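import Pool.Agent.H27.SZ.Defs

/-!
# Project SZ, row SZ-15: balanced blocks
-/

set_option autoImplicit false

open MeasureTheory Metric Set Filter Module
open scoped Topology MeasureTheory RealInnerProductSpace Nat Pointwise

namespace SZ

open SP SP.Mea SX SY

theorem bal_blocks {k n : ℕ} (hn : 1 ≤ n) (hnk : n ≤ k) :
    ∃ β : Fin k → Fin n, Function.Surjective β ∧ ∏ a, (bl β a).card = bal k n := by
  have hn0 : 0 < n := hn
  let β : Fin k → Fin n := fun i => ⟨i.val % n, Nat.mod_lt _ hn0⟩
  refine ⟨β, ?_, ?_⟩
  · intro a
    refine ⟨⟨a.val, lt_of_lt_of_le a.isLt hnk⟩, ?_⟩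
    apply Fin.ext
    exact Nat.mod_eq_of_lt a.isLt
  · have hcard : ∀ a : Fin n, (bl β a).card = if a.val < k % n then k / n + 1 else k / n := by
      intro a
      have h1 : (bl β a).card = ((Finset.range k).filter (fun i => i ≡ a.val [MOD n])).card := by
        refine Finset.card_bij (fun i _ => i.val) ?_ ?_ ?_
        · intro i hi
          have h2 : β i = a := by simpa [bl] using hi
          have h3 : i.val % n = a.val := congrArg Fin.val h2
          rw [Finset.mem_filter, Finset.mem_range]
          refine ⟨i.isLt, ?_⟩
          unfold Nat.ModEq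
          rw [h3, Nat.mod_eq_of_lt a.isLt]
        · intro i _ j _ hij
          exact Fin.ext hij
        · intro i hi
          rw [Finset.mem_filter, Finset.mem_range] at hi
          refine ⟨⟨i, hi.1⟩, ?_, rfl⟩
          have h3 : i % n = a.val := by
            have := hi.2
            unfold Nat.ModEq at this
            rw [this, Nat.mod_eq_of_lt a.isLt]
          simp only [bl, Finset.mem_filter, Finset.mem_univ, true_and]
          exact Fin.ext h3
      rw [h1, ← Nat.count_eq_card_filter_range, Nat.count_modEq_card _ hn0,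
        Nat.mod_eq_of_lt a.isLt]
      split_ifs <;> rfl
    rw [Finset.prod_congr rfl fun a _ => hcard a]
    have hlt : k % n < n := Nat.mod_lt _ hn0
    rw [Fin.prod_univ_eq_prod_range (fun i => if i < k % n then k / n + 1 else k / n) n,
      Finset.prod_ite, Finset.prod_const, Finset.prod_const]
    have h4 : ((Finset.range n).filter (fun i => i < k % n)) = Finset.range (k % n) := by
      ext i
      simp only [Finset.mem_filter, Finset.mem_range]
      omega
    have h5 : ((Finset.range n).filter (fun i => ¬ i < k % n)).card = n - k % n := by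
      have h6 := Finset.card_filter_add_card_filter_not (s := Finset.range n)
        (fun i => i < k % n)
      rw [h4, Finset.card_range, Finset.card_range] at h6
      omega
    rw [h4, h5, Finset.card_range]
    unfold bal
    ring

theorem bal_dvd {k n : ℕ} (hn : 1 ≤ n) (h : n ∣ k) : (bal k n : ℝ) = ((k : ℝ) / n) ^ n := by
  obtain ⟨c, rfl⟩ := h
  have hn0 : (n : ℝ) ≠ 0 := by
    have : 0 < n := hn
    positivity
  have h1 : n * c % n = 0 := Nat.mul_mod_right n c
  have h2 : n * c / n = c := Nat.mul_div_cancel_left c hn
  unfold bal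
  rw [h1, h2]
  simp only [Nat.sub_zero, pow_zero, mul_one, Nat.cast_pow, Nat.cast_mul]
  rw [mul_div_cancel_left₀ _ hn0]

theorem bal_small {k n : ℕ} (hn : 1 ≤ n) (h1 : n ≤ k) (h2 : k ≤ 2 * n) :
    bal k n = 2 ^ (k - n) := by
  unfold bal
  rcases Nat.lt_or_ge k (2 * n) with h | h
  · have h3 : k / n = 1 := by
      rw [Nat.div_eq_iff hn]
      omega
    have h4 : k % n = k - n := by
      have := Nat.div_add_mod k n
      rw [h3] at this
      omega
    rw [h3, h4, one_pow, one_mul]
  · have h3 : k = 2 * n := le_antisymm h2 h
    subst h3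
    have h4 : 2 * n / n = 2 := Nat.mul_div_cancel 2 hn
    have h5 : 2 * n % n = 0 := Nat.mul_mod_left 2 n
    rw [h4, h5]
    simp only [Nat.sub_zero, pow_zero, mul_one]
    congr 1
    omega

end SZ
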