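import Pool.Agent.H27.SZ.Defs

/-!
# Project SZ, row SZ-5: the complementary frame
-/

set_option autoImplicit false

open MeasureTheory Metric Set Filter Module
open scoped Topology MeasureTheory RealInnerProductSpace Nat Pointwise

namespace SZ

open SP SP.Mea SX SY

/-- polarisation of the frame identity -/
private theorem compl_pol {k d : ℕ} {p : Fin k → EuclideanSpace ℝ (Fin d)}
    (h1 : ∀ y, ∑ i, ⟪p i, y⟫ ^ 2 = ‖y‖ ^ 2) (x y : EuclideanSpace ℝ (Fin d)) :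
    ∑ i, ⟪p i, x⟫ * ⟪p i, y⟫ = ⟪x, y⟫ := by
  have ha := h1 (x + y)
  have hb := h1 x
  have hc := h1 y
  rw [norm_add_sq_real, ← hb, ← hc] at ha
  simp only [inner_add_right, add_sq, Finset.sum_add_distrib] at ha
  have h2 : ∑ i, 2 * ⟪p i, x⟫ * ⟪p i, y⟫ = 2 * ∑ i, ⟪p i, x⟫ * ⟪p i, y⟫ := by
    rw [Finset.mul_sum]
    exact Finset.sum_congr rfl fun i _ => by ring
  rw [h2] at ha
  linarith

/-- the isometry `y ↦ (⟪p i, y⟫)_i` -/
private noncomputable def compl_P {k d : ℕ} (p : Fin k → EuclideanSpace ℝ (Fin d))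
    (h1 : ∀ y, ∑ i, ⟪p i, y⟫ ^ 2 = ‖y‖ ^ 2) :
    EuclideanSpace ℝ (Fin d) →ₗᵢ[ℝ] EuclideanSpace ℝ (Fin k) where
  toFun y := WithLp.toLp 2 (fun i => ⟪p i, y⟫)
  map_add' x y := by ext i; simp [inner_add_right]
  map_smul' c x := by ext i; simp [inner_smul_right]
  norm_map' y := by
    have h2 : ‖(WithLp.toLp 2 (fun i => ⟪p i, y⟫) : EuclideanSpace ℝ (Fin k))‖ ^ 2 = ‖y‖ ^ 2 := by
      rw [EuclideanSpace.real_norm_sq_eq, ← h1 y]
    exact (sq_eq_sq₀ (norm_nonneg _) (norm_nonneg _)).1 h2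

private theorem compl_P_apply {k d : ℕ} (p : Fin k → EuclideanSpace ℝ (Fin d))
    (h1 : ∀ y, ∑ i, ⟪p i, y⟫ ^ 2 = ‖y‖ ^ 2) (y : EuclideanSpace ℝ (Fin d)) (i : Fin k) :
    compl_P p h1 y i = ⟪p i, y⟫ := rfl

theorem exists_compl {k d n : ℕ} (hk : k = d + n) (p : Fin k → EuclideanSpace ℝ (Fin d))
    (h1 : ∀ y, ∑ i, ⟪p i, y⟫ ^ 2 = ‖y‖ ^ 2) :
    ∃ q : Fin k → EuclideanSpace ℝ (Fin n), (∀ η, ∑ i, ⟪q i, η⟫ ^ 2 = ‖η‖ ^ 2) ∧
      (∀ η, ∑ i, ⟪q i, η⟫ • p i = 0) ∧ ∀ i, ‖p i‖ ^ 2 + ‖q i‖ ^ 2 = 1 := by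
  set P := compl_P p h1 with hP
  set R : Submodule ℝ (EuclideanSpace ℝ (Fin k)) := LinearMap.range P.toLinearMap with hR
  have hfR : finrank ℝ R = d := by
    rw [hR, LinearMap.finrank_range_of_inj P.injective, finrank_euclideanSpace_fin]
  have hfo : finrank ℝ Rᗮ = n := by
    have h2 := Submodule.finrank_add_finrank_orthogonal R
    rw [finrank_euclideanSpace_fin, hfR] at h2
    omega
  obtain ⟨b⟩ : Nonempty (OrthonormalBasis (Fin n) ℝ Rᗮ) :=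
    ⟨(stdOrthonormalBasis ℝ Rᗮ).reindex (finCongr hfo)⟩
  -- the coordinates
  have hq : ∀ (η : EuclideanSpace ℝ (Fin n)) (i : Fin k),
      ⟪(WithLp.toLp 2 (fun a => (b a : EuclideanSpace ℝ (Fin k)) i) :
        EuclideanSpace ℝ (Fin n)), η⟫ =
      ((∑ a, η a • b a : Rᗮ) : EuclideanSpace ℝ (Fin k)) i := by
    intro η i
    simp [PiLp.inner_apply]
  have hmem : ∀ (u : Rᗮ) (y : EuclideanSpace ℝ (Fin d)),
      ⟪P y, (u : EuclideanSpace ℝ (Fin k))⟫ = 0 := by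
    intro u y
    exact (Submodule.mem_orthogonal _ _).1 u.2 _ ⟨y, rfl⟩
  refine ⟨fun i => WithLp.toLp 2 (fun a => (b a : EuclideanSpace ℝ (Fin k)) i), ?_, ?_, ?_⟩
  · intro η
    simp only [hq]
    rw [← EuclideanSpace.real_norm_sq_eq]
    have h2 : ‖((∑ a, η a • b a : Rᗮ) : EuclideanSpace ℝ (Fin k))‖ = ‖η‖ := by
      have h3 : (∑ a, η a • b a : Rᗮ) = b.repr.symm η := by
        rw [← b.sum_repr_symm]
      have h4 : ‖((∑ a, η a • b a : Rᗮ) : EuclideanSpace ℝ (Fin k))‖ =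
        ‖(∑ a, η a • b a : Rᗮ)‖ := rfl
      rw [h4, h3, LinearIsometryEquiv.norm_map]
    rw [h2]
  · intro η
    simp only [hq]
    set u : Rᗮ := ∑ a, η a • b a with hu
    apply ext_inner_right ℝ
    intro y
    rw [inner_zero_left, sum_inner]
    have h2 := hmem u y
    rw [PiLp.inner_apply] at h2
    rw [← h2]
    refine Finset.sum_congr rfl fun i _ => ?_
    rw [inner_smul_left]
    simp [compl_P_apply, hP]
  · intro i
    -- the residual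
    set e : EuclideanSpace ℝ (Fin k) := EuclideanSpace.single i 1 with he
    have hey : ∀ x : EuclideanSpace ℝ (Fin k), ⟪e, x⟫ = x i := by
      intro x
      rw [he, EuclideanSpace.inner_single_left]
      simp
    have hr : e - P (p i) ∈ Rᗮ := by
      rw [Submodule.mem_orthogonal]
      rintro _ ⟨y, rfl⟩
      have h3 : ⟪P.toLinearMap y, e - P (p i)⟫ = ⟪P y, e⟫ - ⟪P y, P (p i)⟫ := inner_sub_right _ _ _
      rw [h3, real_inner_comm, hey, P.inner_map_map, hP, compl_P_apply, real_inner_comm]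
      ring
    have h4 : ‖(⟨e - P (p i), hr⟩ : Rᗮ)‖ ^ 2 =
        ∑ a, ‖⟪b a, (⟨e - P (p i), hr⟩ : Rᗮ)⟫‖ ^ 2 :=
      (b.sum_sq_norm_inner_right (𝕜 := ℝ) _).symm
    have h5 : ∀ a, ⟪b a, (⟨e - P (p i), hr⟩ : Rᗮ)⟫ = (b a : EuclideanSpace ℝ (Fin k)) i := by
      intro a
      have h6 : ⟪b a, (⟨e - P (p i), hr⟩ : Rᗮ)⟫ =
          ⟪(b a : EuclideanSpace ℝ (Fin k)), e - P (p i)⟫ := rfl
      rw [h6, inner_sub_right, real_inner_comm, hey, real_inner_comm, hmem, sub_zero]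
    simp only [h5] at h4
    have h7 : ‖(WithLp.toLp 2 (fun a => (b a : EuclideanSpace ℝ (Fin k)) i) :
        EuclideanSpace ℝ (Fin n))‖ ^ 2 = ‖e - P (p i)‖ ^ 2 := by
      rw [EuclideanSpace.real_norm_sq_eq]
      rw [Submodule.coe_norm] at h4
      rw [h4]
      refine Finset.sum_congr rfl fun a _ => ?_
      rw [Real.norm_eq_abs, sq_abs]
    show ‖p i‖ ^ 2 + ‖(WithLp.toLp 2 (fun a => (b a : EuclideanSpace ℝ (Fin k)) i) :
        EuclideanSpace ℝ (Fin n))‖ ^ 2 = 1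
    rw [h7, norm_sub_sq_real, hey, P.norm_map, hP, compl_P_apply, real_inner_self_eq_norm_sq]
    have h8 : ‖e‖ = 1 := by rw [he]; simp
    rw [h8]
    ring

theorem norm_lt_one {k d : ℕ} (p : Fin k → EuclideanSpace ℝ (Fin d)) (h0 : ∑ i, p i = 0)
    (h1 : ∀ y, ∑ i, ⟪p i, y⟫ ^ 2 = ‖y‖ ^ 2) (i : Fin k) : ‖p i‖ ^ 2 < 1 := by
  by_contra hcon
  push Not at hcon
  have h2 : ∑ j, ((if j = i then (1 : ℝ) else 0) - ⟪p j, p i⟫) ^ 2 = 1 - ‖p i‖ ^ 2 := by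
    have h3 : ∀ j, ((if j = i then (1 : ℝ) else 0) - ⟪p j, p i⟫) ^ 2 =
        (if j = i then (1 : ℝ) else 0) - 2 * (if j = i then ⟪p j, p i⟫ else 0) +
          ⟪p j, p i⟫ ^ 2 := by
      intro j
      split_ifs <;> ring
    simp only [h3, Finset.sum_add_distrib, Finset.sum_sub_distrib, ← Finset.mul_sum]
    rw [h1]
    simp
    ring
  have h3 : ∑ j, ((if j = i then (1 : ℝ) else 0) - ⟪p j, p i⟫) ^ 2 = 0 :=
    le_antisymm (by rw [h2]; linarith) (Finset.sum_nonneg fun j _ => sq_nonneg _)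
  have h4 : ∀ j, ⟪p j, p i⟫ = if j = i then (1 : ℝ) else 0 := by
    intro j
    have := (Finset.sum_eq_zero_iff_of_nonneg (fun j _ => sq_nonneg _)).1 h3 j (Finset.mem_univ _)
    have := pow_eq_zero_iff (two_ne_zero) |>.1 this
    linarith
  have h5 : ∑ j, ⟪p j, p i⟫ = 0 := by
    rw [← sum_inner, h0, inner_zero_left]
  simp only [h4] at h5
  simp at h5

end SZ
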