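import Mathlib
import Pool.Agent.H27.SY.Defs

/-!
# Sperner partitions: general blocks and the Gaussian bound. Definitions (project SZ)
-/

set_option autoImplicit false

open MeasureTheory Metric Set Filter Module
open scoped Topology MeasureTheory RealInnerProductSpace Nat Pointwise

namespace SZ

open SP SP.Mea SX SY

/-! ### the normal distribution -/

/-- the density -/
noncomputable def gd (s : ℝ) : ℝ := Real.exp (-(s ^ 2 / 2)) / Real.sqrt (2 * Real.pi)

/-- the tail -/
noncomputable def gt (s : ℝ) : ℝ := ∫ x in Ioi s, gd x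

/-- the density of the costs -/
noncomputable def rho (c γ u : ℝ) : ℝ := γ / c * gt (u / c) ^ (γ - 1) * gd (u / c)

/-- the density in dimension `n` -/
noncomputable def gn {n : ℕ} (η : EuclideanSpace ℝ (Fin n)) : ℝ :=
  Real.exp (-(‖η‖ ^ 2 / 2)) / Real.sqrt (2 * Real.pi) ^ n

/-- the linear map with the values `p (G a)` on the basis -/
noncomputable def tL {k d : ℕ} (p : Fin k → EuclideanSpace ℝ (Fin d)) (G : Fin d → Fin k) :
    (Fin d → ℝ) →ₗ[ℝ] (Fin d → ℝ) where
  toFun l := WithLp.ofLp (∑ a, l a • p (G a))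
  map_add' x y := by
    simp only [Pi.add_apply, add_smul, Finset.sum_add_distrib, WithLp.ofLp_add]
  map_smul' c x := by
    simp only [Pi.smul_apply, smul_eq_mul, mul_smul, ← Finset.smul_sum, WithLp.ofLp_smul,
      RingHom.id_apply]

/-- the cone of `G` -/
def cG {k d : ℕ} (p : Fin k → EuclideanSpace ℝ (Fin d)) (G : Fin d → Fin k) :
    Set (EuclideanSpace ℝ (Fin d)) := {y | ∃ l : Fin d → ℝ, (∀ a, 0 < l a) ∧ y = ∑ a, l a • p (G a)}

/-! ### blocks -/

section Blocks

variable {k n : ℕ} (β : Fin k → Fin n)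

/-- the indices of the block `a` -/
def bl (a : Fin n) : Finset (Fin k) := Finset.univ.filter (fun i => β i = a)

/-- the mass of the block `a` -/
noncomputable def bs (x : V k) (a : Fin n) : ℝ := ∑ i ∈ bl β a, x i

/-- size times coordinate minus mass -/
noncomputable def du (x : V k) (i : Fin k) : ℝ := ((bl β (β i)).card : ℝ) * x i - bs β x (β i)

/-- the defect -/
noncomputable def bh (δ : ℝ) (x : V k) : ℝ := ∑ a, max (δ - bs β x a) 0

/-- the correction -/
noncomputable def bt (δ : ℝ) (x : V k) (a : Fin n) : ℝ :=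
  ((a.val : ℝ) + 1) / ((n : ℝ) + 1) * bh β δ x + ((n : ℝ) + 1) * max (δ - bs β x a) 0

/-- the functions of the partition -/
noncomputable def bg (δ : ℝ) (x : V k) (i : Fin k) : ℝ := du β x i - bt β δ x (β i)

/-- the partition -/
def gA (δ : ℝ) (i : Fin k) : Set (V k) := {x | x ∈ Sx k ∧ ∀ l, bg β δ x l ≤ bg β δ x i}

/-- the simplex spanned by the centroids of the blocks -/
def DB : Set (V k) := {x | x ∈ Sx k ∧ ∀ i l, β i = β l → x i = x l}

end Blocks

/-- the product of `n` integers with the sum `k` which differ by at most one -/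
def bal (k n : ℕ) : ℕ := (k / n) ^ (n - k % n) * (k / n + 1) ^ (k % n)

end SZ
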