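import Pool.Agent.H27.SZ.Defs
import Pool.Agent.H59.SP.ExAdm

/-!
# Sperner partitions: the partition for general blocks is admissible (project SZ, row SZ-9)
-/

set_option autoImplicit false

open MeasureTheory Metric Set Filter Module
open scoped Topology MeasureTheory RealInnerProductSpace Nat Pointwise

namespace SZ

open SP SP.Mea SX SY

variable {k n : ℕ} {β : Fin k → Fin n}

private lemma ga_mem (a : Fin n) (i : Fin k) : i ∈ bl β a ↔ β i = a := by
  simp [bl]

private lemma ga_sum (x : V k) : ∑ a, bs β x a = ∑ i, x i := by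
  unfold bs bl
  exact Finset.sum_fiberwise Finset.univ β (fun i => x i)

private lemma ga_nonneg {x : V k} (hx : x ∈ Sx k) (a : Fin n) : 0 ≤ bs β x a :=
  Finset.sum_nonneg fun i _ => hx.1 i

private lemma ga_bs_cont (a : Fin n) : Continuous fun x : V k => bs β x a := by
  unfold bs
  exact continuous_finsetSum _ fun i _ => by fun_prop

private lemma ga_bg_cont (δ : ℝ) (i : Fin k) : Continuous fun x : V k => bg β δ x i := by
  have h := fun a : Fin n => ga_bs_cont (β := β) a
  unfold bg du bt bh
  have h1 : Continuous fun x : V k => ∑ b, max (δ - bs β x b) 0 :=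
    continuous_finsetSum _ fun b _ => (continuous_const.sub (h b)).max continuous_const
  have h2 : Continuous fun x : V k => max (δ - bs β x (β i)) 0 :=
    (continuous_const.sub (h _)).max continuous_const
  have h3 : Continuous fun x : V k => x i := by fun_prop
  exact ((continuous_const.mul h3).sub (h _)).sub
    ((continuous_const.mul h1).add (continuous_const.mul h2))

private lemma ga_closed (δ : ℝ) (i : Fin k) : IsClosed (gA β δ i) := by
  have h1 : {x : V k | ∀ l, bg β δ x l ≤ bg β δ x i} =
      ⋂ l, {x : V k | bg β δ x l ≤ bg β δ x i} := by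
    ext x; simp
  have h2 : IsClosed {x : V k | ∀ l, bg β δ x l ≤ bg β δ x i} := by
    rw [h1]
    exact isClosed_iInter fun l => isClosed_le (ga_bg_cont δ l) (ga_bg_cont δ i)
  exact (exAdm_Sx_closed k).inter h2

private lemma ga_bh_le {δ : ℝ} (h0 : 0 < δ) {x : V k} (hx : x ∈ Sx k) :
    bh β δ x ≤ n * δ := by
  unfold bh
  refine (Finset.sum_le_card_nsmul _ _ δ fun b _ => ?_).trans ?_
  · have := ga_nonneg (β := β) hx b
    exact max_le (by linarith) h0.le
  · rw [Finset.card_univ, Fintype.card_fin, nsmul_eq_mul]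

private lemma ga_bh_nonneg (δ : ℝ) (x : V k) : 0 ≤ bh β δ x :=
  Finset.sum_nonneg fun _ _ => le_max_right _ _

private lemma ga_du_sum (x : V k) (a : Fin n) : ∑ i ∈ bl β a, du β x i = 0 := by
  have h1 : ∑ i ∈ bl β a, du β x i = ∑ i ∈ bl β a, (((bl β a).card : ℝ) * x i - bs β x a) := by
    refine Finset.sum_congr rfl fun i hi => ?_
    rw [ga_mem] at hi
    unfold du
    rw [hi]
  rw [h1, Finset.sum_sub_distrib, ← Finset.mul_sum, Finset.sum_const, nsmul_eq_mul]
  unfold bs
  ring

private lemma ga_exists (hβ : Function.Surjective β) (x : V k) (c : Fin n) :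
    ∃ l, β l = c ∧ 0 ≤ du β x l := by
  obtain ⟨l0, hl0⟩ := hβ c
  obtain ⟨l, hl, hl2⟩ := Finset.exists_le_of_sum_le (s := bl β c) (f := fun _ => (0 : ℝ))
    (g := fun i => du β x i) ⟨l0, (ga_mem c l0).2 hl0⟩ (by rw [ga_du_sum]; simp)
  exact ⟨l, (ga_mem c l).1 hl, hl2⟩

private lemma ga_alpha (a : Fin n) : 0 ≤ ((a.val : ℝ) + 1) / ((n : ℝ) + 1) ∧
    ((a.val : ℝ) + 1) / ((n : ℝ) + 1) ≤ 1 := by
  constructor
  · positivity
  · rw [div_le_one (by positivity)]
    have : (a.val : ℝ) ≤ n := by exact_mod_cast a.isLt.le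
    linarith

private lemma ga_pos (hβ : Function.Surjective β) (hn : 1 ≤ n) {δ : ℝ} (h0 : 0 < δ)
    (h1 : δ * n < 1) {i : Fin k} {x : V k} (hx : x ∈ gA β δ i) : 0 < x i := by
  obtain ⟨hxS, hmax⟩ := hx
  rcases (hxS.1 i).lt_or_eq with h | h
  · exact h
  exfalso
  have hbi : bg β δ x i = -(bs β x (β i)) - bt β δ x (β i) := by
    unfold bg du
    rw [← h]
    ring
  -- the mass of the block of `i` vanishes
  obtain ⟨j, hj, hj2⟩ := ga_exists hβ x (β i)
  have hbj : bg β δ x j = du β x j - bt β δ x (β i) := by
    unfold bg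
    rw [hj]
  have h2 := hmax j
  rw [hbi, hbj] at h2
  have hs0 : bs β x (β i) = 0 := le_antisymm (by linarith) (ga_nonneg hxS _)
  -- a block with large mass
  have hnR : (0 : ℝ) < n := by exact_mod_cast hn
  obtain ⟨c, -, hc⟩ := Finset.exists_le_of_sum_le (s := (Finset.univ : Finset (Fin n)))
    (f := fun _ => (1 : ℝ) / n) (g := fun b => bs β x b) ⟨β i, Finset.mem_univ _⟩ (by
      rw [ga_sum x, hxS.2, Finset.sum_const, Finset.card_univ, Fintype.card_fin, nsmul_eq_mul]
      exact (mul_one_div_cancel hnR.ne').le)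
  have hδ : δ < 1 / n := by
    rw [lt_div_iff₀ hnR]
    exact h1
  obtain ⟨l, hl, hl2⟩ := ga_exists hβ x c
  have h3 := hmax l
  have hm0 : max (δ - bs β x c) 0 = 0 := max_eq_right (by linarith)
  have hma : max (δ - bs β x (β i)) 0 = δ := by
    rw [hs0, sub_zero]
    exact max_eq_left h0.le
  rw [hbi, hs0] at h3
  unfold bg bt at h3
  rw [hl, hm0, hma] at h3
  have hH := ga_bh_le (β := β) h0 hxS
  have hH0 := ga_bh_nonneg (β := β) δ x
  obtain ⟨-, hc1⟩ := ga_alpha c
  obtain ⟨ha0, -⟩ := ga_alpha (β i)
  have h4 : ((c.val : ℝ) + 1) / ((n : ℝ) + 1) * bh β δ x ≤ 1 * bh β δ x :=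
    mul_le_mul_of_nonneg_right hc1 hH0
  have h5 : 0 ≤ (((β i).val : ℝ) + 1) / ((n : ℝ) + 1) * bh β δ x := mul_nonneg ha0 hH0
  nlinarith

/-- the moved point -/
private noncomputable def ga_mv (x : V k) (i l : Fin k) (t : ℝ) : V k :=
  WithLp.toLp 2 (fun s => x s + t * ((if s = l then 1 else 0) - (if s = i then 1 else 0)))

private lemma ga_mv_apply (x : V k) (i l : Fin k) (t : ℝ) (s : Fin k) :
    ga_mv x i l t s = x s + t * ((if s = l then 1 else 0) - (if s = i then 1 else 0)) := rfl

private lemma ga_mv_bs (x : V k) (i l : Fin k) (t : ℝ) (c : Fin n) :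
    bs β (ga_mv x i l t) c = bs β x c +
      t * ((if β l = c then 1 else 0) - (if β i = c then 1 else 0)) := by
  unfold bs
  simp only [ga_mv_apply]
  rw [Finset.sum_add_distrib, ← Finset.mul_sum, Finset.sum_sub_distrib, Finset.sum_ite_eq',
    Finset.sum_ite_eq']
  simp only [ga_mem]

private lemma ga_mv_mem {x : V k} (hx : x ∈ Sx k) {i l : Fin k} (hil : i ≠ l) {t : ℝ}
    (ht0 : 0 ≤ t) (ht : t ≤ x i) : ga_mv x i l t ∈ Sx k := by
  refine ⟨fun s => ?_, ?_⟩
  · rw [ga_mv_apply]
    have hs := hx.1 s
    by_cases h1 : s = l <;> by_cases h2 : s = i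
    · exact absurd (h2.symm.trans h1) hil
    · simp [h1, h2]
      subst h1
      simp [h2]
      linarith
    · subst h2
      simp [h1]
      linarith
    · simp [h1, h2, hs]
  · simp only [ga_mv_apply]
    rw [Finset.sum_add_distrib, ← Finset.mul_sum, Finset.sum_sub_distrib, Finset.sum_ite_eq',
      Finset.sum_ite_eq', hx.2]
    simp

private lemma ga_mv_lim (x : V k) (i l : Fin k) :
    Tendsto (fun t : ℝ => ga_mv x i l t) (𝓝[>] 0) (𝓝 x) := by
  have hcont : Continuous fun t : ℝ => ga_mv x i l t := by
    unfold ga_mv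
    refine (PiLp.continuous_toLp 2 _).comp (continuous_pi fun s => ?_)
    exact continuous_const.add (continuous_id.mul continuous_const)
  have h00 : ga_mv x i l 0 = x := by
    ext s
    rw [ga_mv_apply]
    ring
  have := hcont.tendsto 0
  rw [h00] at this
  exact this.mono_left nhdsWithin_le_nhds

/-- moving inside a block does not change the corrections -/
private lemma ga_same {δ : ℝ} (x : V k) {i l : Fin k} (t : ℝ) (h : β i = β l) :
    (∀ c, bs β (ga_mv x i l t) c = bs β x c) ∧
      ∀ a, bt β δ (ga_mv x i l t) a = bt β δ x a := by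
  have h1 : ∀ c, bs β (ga_mv x i l t) c = bs β x c := by
    intro c
    rw [ga_mv_bs, h]
    ring
  refine ⟨h1, fun a => ?_⟩
  unfold bt bh
  simp only [h1]

/-- the effect of a move between two blocks -/
private lemma ga_key {δ : ℝ} {x : V k} {i l : Fin k} (hil : β i ≠ β l) {t : ℝ} (ht : 0 < t)
    (heq : bg β δ x i = bg β δ x l)
    (hgood : 2 < (bl β (β i)).card + (bl β (β l)).card ∨ bs β x (β i) < δ + t ∨
      bs β x (β l) < δ) :
    bg β δ (ga_mv x i l t) i < bg β δ (ga_mv x i l t) l := by
  have hne : i ≠ l := fun h => hil (by rw [h])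
  set x' := ga_mv x i l t with hx'
  have hps := ga_mv_bs (β := β) x i l t
  rw [← hx'] at hps
  have hxi : x' i = x i - t := by
    rw [hx', ga_mv_apply, if_neg hne, if_pos rfl]
    ring
  have hxl : x' l = x l + t := by
    rw [hx', ga_mv_apply, if_pos rfl, if_neg hne.symm]
    ring
  have hpa : bs β x' (β i) = bs β x (β i) - t := by
    rw [hps, if_neg (fun h => hil h.symm), if_pos rfl]
    ring
  have hpb : bs β x' (β l) = bs β x (β l) + t := by
    rw [hps, if_pos rfl, if_neg hil]
    ring
  have hpc : ∀ c, c ≠ β i → c ≠ β l → bs β x' c = bs β x c := by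
    intro c h1 h2
    rw [hps, if_neg (Ne.symm h2), if_neg (Ne.symm h1)]
    ring
  have hca : 1 ≤ (bl β (β i)).card := Finset.card_pos.2 ⟨i, (ga_mem _ _).2 rfl⟩
  have hcb : 1 ≤ (bl β (β l)).card := Finset.card_pos.2 ⟨l, (ga_mem _ _).2 rfl⟩
  have hcaR : (1 : ℝ) ≤ (bl β (β i)).card := by exact_mod_cast hca
  have hcbR : (1 : ℝ) ≤ (bl β (β l)).card := by exact_mod_cast hcb
  have hn1 : 1 ≤ n := by have := (β i).isLt; omega
  have hnR : (1 : ℝ) ≤ n := by exact_mod_cast hn1
  set a := β i with ha
  set b := β l with hb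
  set Da := max (δ - bs β x' a) 0 - max (δ - bs β x a) 0 with hDa
  set Db := max (δ - bs β x b) 0 - max (δ - bs β x' b) 0 with hDb
  have hDa0 : 0 ≤ Da := by
    have : max (δ - bs β x a) 0 ≤ max (δ - bs β x' a) 0 :=
      max_le_max (by rw [hpa]; linarith) le_rfl
    rw [hDa]; linarith
  have hDb0 : 0 ≤ Db := by
    have : max (δ - bs β x' b) 0 ≤ max (δ - bs β x b) 0 :=
      max_le_max (by rw [hpb]; linarith) le_rfl
    rw [hDb]; linarith
  have hh' : bh β δ x' = bh β δ x + (Da - Db) := by
    unfold bh
    have h1 : ∀ c ∈ (Finset.univ : Finset (Fin n)), max (δ - bs β x' c) 0 =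
        max (δ - bs β x c) 0 + ((if c = a then Da else 0) - (if c = b then Db else 0)) := by
      intro c _
      by_cases h1 : c = a
      · subst h1
        rw [if_pos rfl, if_neg hil, hDa]
        ring
      · by_cases h2 : c = b
        · subst h2
          rw [if_pos rfl, if_neg h1, hDb]
          ring
        · rw [if_neg h1, if_neg h2, hpc c h1 h2]
          ring
    rw [Finset.sum_congr rfl h1, Finset.sum_add_distrib, Finset.sum_sub_distrib,
      Finset.sum_ite_eq', Finset.sum_ite_eq', if_pos (Finset.mem_univ _),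
      if_pos (Finset.mem_univ _)]
  have hma : max (δ - bs β x' a) 0 = max (δ - bs β x a) 0 + Da := by rw [hDa]; ring
  have hmb : max (δ - bs β x' b) 0 = max (δ - bs β x b) 0 - Db := by rw [hDb]; ring
  obtain ⟨ha0, ha1⟩ := ga_alpha a
  obtain ⟨hb0, hb1⟩ := ga_alpha b
  set α := ((a.val : ℝ) + 1) / ((n : ℝ) + 1) with hα
  set γ := ((b.val : ℝ) + 1) / ((n : ℝ) + 1) with hγ
  have hcore : (γ - α) * (Da - Db) ≤ Da + Db := by
    have h1 : |γ - α| ≤ 1 := by
      rw [abs_le]
      constructor <;> linarith
    have h2 : |Da - Db| ≤ Da + Db := by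
      rw [abs_le]
      constructor <;> linarith
    calc (γ - α) * (Da - Db) ≤ |(γ - α) * (Da - Db)| := le_abs_self _
      _ = |γ - α| * |Da - Db| := abs_mul _ _
      _ ≤ 1 * (Da + Db) := mul_le_mul h1 h2 (abs_nonneg _) zero_le_one
      _ = Da + Db := one_mul _
  -- the strict gain
  have hgain : 0 < (((bl β a).card : ℝ) - 1 + (((bl β b).card : ℝ) - 1)) * t + n * (Da + Db) := by
    have hA : 0 ≤ (((bl β a).card : ℝ) - 1 + (((bl β b).card : ℝ) - 1)) * t :=
      mul_nonneg (by linarith) ht.le
    have hB : 0 ≤ (n : ℝ) * (Da + Db) := by positivity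
    rcases hgood with h | h | h
    · have h2 : (2 : ℝ) < (bl β a).card + (bl β b).card := by exact_mod_cast h
      have : 0 < (((bl β a).card : ℝ) - 1 + (((bl β b).card : ℝ) - 1)) * t :=
        mul_pos (by linarith) ht
      linarith
    · have h3 : 0 < Da := by
        rw [hDa, hpa]
        have h4 : max (δ - bs β x a) 0 < max (δ - (bs β x a - t)) 0 :=
          max_lt (lt_max_of_lt_left (by linarith)) (lt_max_of_lt_left (by linarith))
        linarith
      have : 0 < (n : ℝ) * (Da + Db) := mul_pos (by linarith) (by linarith)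
      linarith
    · have h3 : 0 < Db := by
        rw [hDb, hpb]
        have h4 : max (δ - (bs β x b + t)) 0 < max (δ - bs β x b) 0 :=
          max_lt (lt_max_of_lt_left (by linarith)) (lt_max_of_lt_left (by linarith))
        linarith
      have : 0 < (n : ℝ) * (Da + Db) := mul_pos (by linarith) (by linarith)
      linarith
  have e1 : bg β δ x' i = bg β δ x i - (((bl β a).card : ℝ) - 1) * t - α * (Da - Db) -
      ((n : ℝ) + 1) * Da := by
    unfold bg du bt
    rw [← ha, hxi, hpa, hh', ← hpa, hma, hpa]
    ring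
  have e2 : bg β δ x' l = bg β δ x l + (((bl β b).card : ℝ) - 1) * t - γ * (Da - Db) +
      ((n : ℝ) + 1) * Db := by
    unfold bg du bt
    rw [← hb, hxl, hpb, hh', ← hpb, hmb, hpb]
    ring
  rw [e1, e2, heq]
  nlinarith

theorem gen_adm {k n : ℕ} {β : Fin k → Fin n} (hβ : Function.Surjective β) (hn : 1 ≤ n)
    (hnk : n < k) {δ : ℝ} (h0 : 0 < δ) (h1 : δ * n < 1) : Adm k (gA β δ) where
  closed i := ga_closed δ i
  cover := by
    apply Set.Subset.antisymm
    · exact Set.iUnion_subset fun i x hx => hx.1
    · intro x hx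
      obtain ⟨i, -, hi⟩ := Finset.exists_max_image (Finset.univ : Finset (Fin k))
        (fun i => bg β δ x i) ⟨⟨0, by omega⟩, Finset.mem_univ _⟩
      exact Set.mem_iUnion.2 ⟨i, hx, fun l => hi l (Finset.mem_univ l)⟩
  pos i x hx := ga_pos hβ hn h0 h1 hx
  overlap i l hil := by
    rintro x ⟨hxi, hxl⟩
    have hpos := ga_pos hβ hn h0 h1 hxi
    have heq : bg β δ x i = bg β δ x l := le_antisymm (hxl.2 i) (hxi.2 l)
    by_cases hbl : β i = β l
    · -- the same block
      have hev : ∀ᶠ t in 𝓝[>] (0 : ℝ), t ∈ Ioo 0 (x i) := Ioo_mem_nhdsGT hpos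
      refine mem_closure_of_tendsto (ga_mv_lim x i l) ?_
      filter_upwards [hev] with t ht
      refine ⟨ga_mv_mem hxi.1 hil ht.1.le ht.2.le, fun hmem => ?_⟩
      have h2 := hmem.2 l
      obtain ⟨h3, h4⟩ := ga_same (β := β) (δ := δ) x t hbl
      have hc : (0 : ℝ) < (bl β (β l)).card := by
        exact_mod_cast Finset.card_pos.2 ⟨l, (ga_mem _ _).2 rfl⟩
      unfold bg du at h2 heq
      rw [h4, h4, h3, h3, ga_mv_apply, ga_mv_apply, if_pos rfl, if_neg hil.symm, if_pos rfl,
        if_neg hil] at h2
      rw [hbl] at h2 heq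
      have := ht.1
      nlinarith
    · by_cases hgood : 2 < (bl β (β i)).card + (bl β (β l)).card ∨ bs β x (β i) ≤ δ ∨
          bs β x (β l) < δ
      · have hev : ∀ᶠ t in 𝓝[>] (0 : ℝ), t ∈ Ioo 0 (x i) := Ioo_mem_nhdsGT hpos
        refine mem_closure_of_tendsto (ga_mv_lim x i l) ?_
        filter_upwards [hev] with t ht
        refine ⟨ga_mv_mem hxi.1 hil ht.1.le ht.2.le, fun hmem => ?_⟩
        refine absurd (hmem.2 l) (not_le.2 (ga_key hbl ht.1 heq ?_))
        rcases hgood with h | h | h
        · exact Or.inl h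
        · exact Or.inr (Or.inl (by linarith [ht.1]))
        · exact Or.inr (Or.inr h)
      · push Not at hgood
        obtain ⟨hg1, hg2, hg3⟩ := hgood
        have hca : 1 ≤ (bl β (β i)).card := Finset.card_pos.2 ⟨i, (ga_mem _ _).2 rfl⟩
        have hcb : 1 ≤ (bl β (β l)).card := Finset.card_pos.2 ⟨l, (ga_mem _ _).2 rfl⟩
        have hca1 : (bl β (β i)).card = 1 := by omega
        have hcb1 : (bl β (β l)).card = 1 := by omega
        have hsing : ∀ j : Fin k, (bl β (β j)).card = 1 → du β x j = 0 := by
          intro j hj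
          obtain ⟨j', hj'⟩ := Finset.card_eq_one.1 hj
          have hjj : j = j' := by
            have : j ∈ bl β (β j) := (ga_mem _ _).2 rfl
            rw [hj', Finset.mem_singleton] at this
            exact this
          unfold du bs
          rw [hj', Finset.card_singleton, Finset.sum_singleton, ← hjj]
          push_cast
          ring
        have hdi := hsing i hca1
        have hdl := hsing l hcb1
        have hma : max (δ - bs β x (β i)) 0 = 0 := max_eq_right (by linarith)
        have hmb : max (δ - bs β x (β l)) 0 = 0 := max_eq_right (by linarith)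
        -- the defect vanishes
        have hbh : bh β δ x = 0 := by
          unfold bg bt at heq
          rw [hdi, hdl, hma, hmb] at heq
          have h2 : (((β i).val : ℝ) + 1) / ((n : ℝ) + 1) * bh β δ x =
              (((β l).val : ℝ) + 1) / ((n : ℝ) + 1) * bh β δ x := by linarith
          rcases mul_eq_mul_right_iff.1 h2 with h3 | h3
          · exfalso
            have hn1 : ((n : ℝ) + 1) ≠ 0 := by positivity
            rw [div_left_inj' hn1] at h3
            have h4 : ((β i).val : ℝ) = ((β l).val : ℝ) := by linarith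
            exact hbl (Fin.ext (by exact_mod_cast h4))
          · exact h3
        have hmax0 : ∀ c, max (δ - bs β x c) 0 = 0 := by
          intro c
          unfold bh at hbh
          exact (Finset.sum_eq_zero_iff_of_nonneg fun c _ => le_max_right _ _).1 hbh c
            (Finset.mem_univ c)
        have hbt : ∀ c, bt β δ x c = 0 := by
          intro c
          unfold bt
          rw [hbh, hmax0]
          ring
        have hbgi : bg β δ x i = 0 := by
          unfold bg
          rw [hdi, hbt]
          ring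
        have hdle : ∀ j, du β x j ≤ 0 := by
          intro j
          have h2 := hxi.2 j
          rw [hbgi] at h2
          unfold bg at h2
          rw [hbt] at h2
          linarith
        have hd0 : ∀ j, du β x j = 0 := by
          intro j
          have h2 := ga_du_sum (β := β) x (β j)
          exact (Finset.sum_eq_zero_iff_of_nonpos fun j _ => hdle j).1 h2 j ((ga_mem _ _).2 rfl)
        -- a block with two elements
        obtain ⟨j, j', hjj, hj⟩ : ∃ j j' : Fin k, j ≠ j' ∧ β j = β j' := by
          have h2 : ¬ Function.Injective β := by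
            intro h3
            have := Fintype.card_le_of_injective β h3
            rw [Fintype.card_fin, Fintype.card_fin] at this
            omega
          unfold Function.Injective at h2
          push Not at h2
          obtain ⟨j, j', h3, h4⟩ := h2
          exact ⟨j, j', h4, h3⟩
        have hsj : δ ≤ bs β x (β j) := by
          have := hmax0 (β j)
          have h2 := le_max_left (δ - bs β x (β j)) 0
          linarith
        have hcj : (0 : ℝ) < (bl β (β j)).card := by
          exact_mod_cast Finset.card_pos.2 ⟨j, (ga_mem _ _).2 rfl⟩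
        have hxj : 0 < x j := by
          have h2 := hd0 j
          unfold du at h2
          by_contra h3
          push Not at h3
          nlinarith
        have hij : β i ≠ β j := by
          intro h2
          rw [h2] at hca1
          have h3 : 1 < (bl β (β j)).card :=
            Finset.one_lt_card.2 ⟨j, (ga_mem _ _).2 rfl, j', (ga_mem _ _).2 hj.symm, hjj⟩
          omega
        have hij1 : i ≠ j := fun h2 => hij (by rw [h2])
        have hij2 : i ≠ j' := fun h2 => hij (by rw [h2, hj])
        have hev : ∀ᶠ t in 𝓝[>] (0 : ℝ), t ∈ Ioo 0 (x j) := Ioo_mem_nhdsGT hxj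
        refine mem_closure_of_tendsto (ga_mv_lim x j j') ?_
        filter_upwards [hev] with t ht
        refine ⟨ga_mv_mem hxi.1 hjj ht.1.le ht.2.le, fun hmem => ?_⟩
        have h2 := hmem.2 j'
        obtain ⟨h3, h4⟩ := ga_same (β := β) (δ := δ) x t hj
        have h5 : bg β δ (ga_mv x j j' t) i = 0 := by
          unfold bg
          rw [h4, hbt]
          unfold du
          rw [h3, ga_mv_apply, if_neg hij2, if_neg hij1]
          unfold du at hdi
          linarith
        have h6 : bg β δ (ga_mv x j j' t) j' = (bl β (β j')).card * t := by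
          unfold bg
          rw [h4, hbt]
          unfold du
          rw [h3, ga_mv_apply, if_pos rfl, if_neg hjj.symm]
          have h7 := hd0 j'
          unfold du at h7
          linarith
        rw [h5, h6, ← hj] at h2
        have := mul_pos hcj ht.1
        linarith

end SZ
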