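import Pool.Agent.H27.SZ.Defs

/-!
# Where at least `k - n + 1` parts of the partition for general blocks meet (SZ-10)
-/

set_option autoImplicit false

open MeasureTheory Metric Set Filter Module
open scoped Topology MeasureTheory RealInnerProductSpace Nat Pointwise

namespace SZ

open SP SP.Mea SX SY

namespace GenLocAux

variable {k n : ℕ} {β : Fin k → Fin n}

theorem mem_bl {a : Fin n} {i : Fin k} : i ∈ bl β a ↔ β i = a := by
  simp [bl]

theorem card_bl_pos (i : Fin k) : 0 < (bl β (β i)).card :=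
  Finset.card_pos.2 ⟨i, mem_bl.2 rfl⟩

theorem card_bl_le (a : Fin n) : (bl β a).card ≤ k := by
  simpa using Finset.card_le_univ (bl β a)

theorem sum_card : ∑ a, (bl β a).card = k := by
  have h := Finset.card_eq_sum_card_fiberwise (f := β) (s := Finset.univ) (t := Finset.univ)
    (fun _ _ => Finset.mem_coe.2 (Finset.mem_univ _))
  simpa [bl] using h.symm

theorem bs_nonneg {x : V k} (hx : x ∈ Sx k) (a : Fin n) : 0 ≤ bs β x a :=
  Finset.sum_nonneg fun i _ => hx.1 i

/-- the functions `du` have mean zero on every block -/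
theorem sum_du (x : V k) (a : Fin n) : ∑ i ∈ bl β a, du β x i = 0 := by
  have h1 : ∀ i ∈ bl β a, du β x i = ((bl β a).card : ℝ) * x i - bs β x a := by
    intro i hi
    rw [mem_bl] at hi
    unfold du
    rw [hi]
  rw [Finset.sum_congr rfl h1, Finset.sum_sub_distrib, ← Finset.mul_sum, Finset.sum_const,
    nsmul_eq_mul]
  unfold bs
  ring

theorem bh_nonneg (δ : ℝ) (x : V k) : 0 ≤ bh β δ x :=
  Finset.sum_nonneg fun _ _ => le_max_right _ _

theorem bt_nonneg (δ : ℝ) (x : V k) (a : Fin n) : 0 ≤ bt β δ x a := by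
  unfold bt
  have h1 := bh_nonneg (β := β) δ x
  have h2 : 0 ≤ max (δ - bs β x a) 0 := le_max_right _ _
  positivity

theorem bh_le {δ : ℝ} (h0 : 0 < δ) {x : V k} (hx : x ∈ Sx k) : bh β δ x ≤ (n : ℝ) * δ := by
  unfold bh
  calc ∑ a, max (δ - bs β x a) 0 ≤ ∑ _a : Fin n, δ :=
        Finset.sum_le_sum fun b _ => max_le (by linarith [bs_nonneg (β := β) hx b]) h0.le
    _ = (n : ℝ) * δ := by rw [Finset.sum_const, Finset.card_univ, Fintype.card_fin, nsmul_eq_mul]

theorem bt_le {δ : ℝ} (h0 : 0 < δ) {x : V k} (hx : x ∈ Sx k) (a : Fin n) :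
    bt β δ x a ≤ (2 * (n : ℝ) + 1) * δ := by
  unfold bt
  have h1 := bh_le (β := β) h0 hx
  have h1' := bh_nonneg (β := β) δ x
  have h2 : max (δ - bs β x a) 0 ≤ δ := max_le (by linarith [bs_nonneg (β := β) hx a]) h0.le
  have hd : (0 : ℝ) < (n : ℝ) + 1 := by positivity
  have h3 : ((a.val : ℝ) + 1) / ((n : ℝ) + 1) ≤ 1 := by
    rw [div_le_one hd]
    have : (a.val : ℝ) < n := by exact_mod_cast a.isLt
    linarith
  have h4 : ((a.val : ℝ) + 1) / ((n : ℝ) + 1) * bh β δ x ≤ 1 * bh β δ x :=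
    mul_le_mul_of_nonneg_right h3 h1'
  have h5 : ((n : ℝ) + 1) * max (δ - bs β x a) 0 ≤ ((n : ℝ) + 1) * δ :=
    mul_le_mul_of_nonneg_left h2 hd.le
  nlinarith

/-- more than `k - n` indices contain a block -/
theorem exists_full (hβ : Function.Surjective β) (hnk : n < k) {J : Finset (Fin k)}
    (hJ : k - n + 1 ≤ J.card) : ∃ a, bl β a ⊆ J := by
  classical
  by_contra hcon
  push Not at hcon
  have h1 : ∀ a, (J.filter (fun i => β i = a)).card + 1 ≤ (bl β a).card := by
    intro a
    obtain ⟨i, hi, hiJ⟩ := Finset.not_subset.1 (hcon a)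
    apply Finset.card_lt_card
    refine ⟨fun l hl => mem_bl.2 (Finset.mem_filter.1 hl).2, fun h => ?_⟩
    exact hiJ (Finset.mem_filter.1 (h hi)).1
  have h2 : J.card = ∑ a, (J.filter (fun i => β i = a)).card :=
    Finset.card_eq_sum_card_fiberwise (fun _ _ => Finset.mem_coe.2 (Finset.mem_univ _))
  have h3 : ∑ a : Fin n, ((J.filter (fun i => β i = a)).card + 1) ≤ ∑ a, (bl β a).card :=
    Finset.sum_le_sum fun a _ => h1 a
  rw [Finset.sum_add_distrib, ← h2, sum_card, Finset.sum_const, Finset.card_univ,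
    Fintype.card_fin] at h3
  simp only [smul_eq_mul, mul_one] at h3
  omega

/-- a function with mean zero on the block which is bounded above is bounded below -/
theorem du_lower {x : V k} {i : Fin k} {M : ℝ} (h : ∀ l ∈ bl β (β i), du β x l ≤ M)
    (hM : 0 ≤ M) : |du β x i| ≤ (k : ℝ) * M := by
  classical
  have hi : i ∈ bl β (β i) := mem_bl.2 rfl
  have hk : (1 : ℝ) ≤ (k : ℝ) := by
    have := i.isLt
    exact_mod_cast (show 1 ≤ k by omega)
  have h1 := sum_du (β := β) x (β i)
  rw [← Finset.add_sum_erase _ _ hi] at h1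
  have h2 : ∑ l ∈ (bl β (β i)).erase i, du β x l ≤ ((bl β (β i)).erase i).card • M :=
    Finset.sum_le_card_nsmul _ _ _ fun l hl => h l (Finset.mem_of_mem_erase hl)
  have h3 : (((bl β (β i)).erase i).card : ℝ) ≤ (k : ℝ) := by
    exact_mod_cast (Finset.card_le_card (Finset.erase_subset _ _)).trans (card_bl_le _)
  rw [nsmul_eq_mul] at h2
  have h4 : (((bl β (β i)).erase i).card : ℝ) * M ≤ (k : ℝ) * M :=
    mul_le_mul_of_nonneg_right h3 hM
  have h5 : M ≤ (k : ℝ) * M := le_mul_of_one_le_left hM hk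
  have h6 := h i hi
  exact abs_le.2 ⟨by linarith, by linarith⟩

end GenLocAux

open GenLocAux in
theorem gen_loc {k n : ℕ} {β : Fin k → Fin n} (hβ : Function.Surjective β) (hn : 1 ≤ n)
    (hnk : n < k) {δ : ℝ} (h0 : 0 < δ) {x : V k} (hx : x ∈ meet k (gA β δ) (k - n + 1))
    (hx2 : x ∉ DB β) :
    (∀ i, |du β x i| ≤ (k : ℝ) * ((k : ℝ) + 2 * n + 1) * δ) ∧ ∃ a, bs β x a ≤ δ := by
  classical
  obtain ⟨J, hJ, hxJ⟩ := hx
  obtain ⟨a, ha⟩ := exists_full hβ hnk hJ
  obtain ⟨i0, hi0⟩ := hβ a
  have hi0J : i0 ∈ J := ha (mem_bl.2 hi0)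
  have hS : x ∈ Sx k := (hxJ i0 hi0J).1
  -- the function is constant on the full block
  have h1 : ∀ i ∈ bl β a, du β x i = du β x i0 := by
    intro i hi
    have h2 : bg β δ x i = bg β δ x i0 :=
      le_antisymm ((hxJ i0 hi0J).2 i) ((hxJ i (ha hi)).2 i0)
    rw [mem_bl] at hi
    unfold bg at h2
    rw [hi, hi0] at h2
    linarith
  have h2 : du β x i0 = 0 := by
    have h3 := sum_du (β := β) x a
    rw [Finset.sum_congr rfl h1, Finset.sum_const, nsmul_eq_mul] at h3
    have h4 : ((bl β a).card : ℝ) ≠ 0 := by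
      have := card_bl_pos (β := β) i0
      rw [hi0] at this
      exact_mod_cast this.ne'
    exact (mul_eq_zero.1 h3).resolve_left h4
  have h3 : ∀ i, du β x i ≤ bt β δ x (β i) - bt β δ x a := by
    intro i
    have h4 := (hxJ i0 hi0J).2 i
    unfold bg at h4
    rw [h2, hi0] at h4
    linarith
  refine ⟨fun i => ?_, ?_⟩
  · have h5 : |du β x i| ≤ (k : ℝ) * ((2 * (n : ℝ) + 1) * δ) := by
      apply du_lower _ (by positivity)
      intro l _
      have := bt_le (β := β) h0 hS (β l)
      have := bt_nonneg (β := β) δ x a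
      have := h3 l
      linarith
    refine h5.trans ?_
    have hk : (0 : ℝ) ≤ (k : ℝ) := Nat.cast_nonneg k
    have : 0 ≤ (k : ℝ) * (k : ℝ) * δ := by positivity
    nlinarith
  · by_contra hcon
    push Not at hcon
    apply hx2
    have h6 : bh β δ x = 0 := Finset.sum_eq_zero fun b _ =>
      max_eq_right (by linarith [hcon b])
    have h7 : ∀ b, bt β δ x b = 0 := by
      intro b
      unfold bt
      rw [h6, max_eq_right (by linarith [hcon b])]
      ring
    have h8 : ∀ i, du β x i = 0 := by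
      intro i
      have h9 : |du β x i| ≤ (k : ℝ) * 0 := by
        apply du_lower _ le_rfl
        intro l _
        have := h3 l
        rw [h7, h7] at this
        linarith
      rw [mul_zero] at h9
      exact abs_nonpos_iff.1 h9
    refine ⟨hS, fun i l hil => ?_⟩
    have h9 := h8 i
    have h10 := h8 l
    have h11 : ((bl β (β i)).card : ℝ) ≠ 0 := by
      exact_mod_cast (card_bl_pos (β := β) i).ne'
    unfold du at h9 h10
    rw [← hil] at h10
    exact mul_left_cancel₀ h11 (by linarith)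

end SZ
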