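import Mathlib
import Pool.Agent.H27.SZ.Defs
import Pool.Agent.H27.SY.BasePlan

/-!
# Sperner partitions: the parts of the partition for general blocks meet in planes
(project SZ, row SZ-11)
-/

set_option autoImplicit false

open MeasureTheory Metric Set Filter Module
open scoped Topology MeasureTheory RealInnerProductSpace Nat Pointwise

namespace SZ

open SP SP.Mea SX SY

namespace GPl

variable {k n : ℕ} (β : Fin k → Fin n)

/-! ### the blocks -/

theorem bs_add (x y : V k) (a : Fin n) : bs β (x + y) a = bs β x a + bs β y a := by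
  simp only [bs, PiLp.add_apply, Finset.sum_add_distrib]

theorem bs_smul (c : ℝ) (x : V k) (a : Fin n) : bs β (c • x) a = c * bs β x a := by
  simp only [bs, PiLp.smul_apply, smul_eq_mul, Finset.mul_sum]

theorem du_add (x y : V k) (i : Fin k) : du β (x + y) i = du β x i + du β y i := by
  simp only [du, bs_add, PiLp.add_apply]
  ring

theorem du_smul (c : ℝ) (x : V k) (i : Fin k) : du β (c • x) i = c * du β x i := by
  simp only [du, bs_smul, PiLp.smul_apply, smul_eq_mul]
  ring

/-- the total mass -/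
theorem sum_bs (x : V k) : ∑ a, bs β x a = ∑ i, x i := by
  simp only [bs, bl]
  exact Finset.sum_fiberwise _ _ _

theorem mem_bl {i : Fin k} {a : Fin n} : i ∈ bl β a ↔ β i = a := by simp [bl]

theorem card_ne (hβ : Function.Surjective β) (a : Fin n) : ((bl β a).card : ℝ) ≠ 0 := by
  obtain ⟨i, hi⟩ := hβ a
  have : 0 < (bl β a).card := Finset.card_pos.2 ⟨i, (mem_bl β).2 hi⟩
  exact_mod_cast this.ne'

/-- within a block the differences have the sum zero -/
theorem sum_du (x : V k) (a : Fin n) : ∑ i ∈ bl β a, du β x i = 0 := by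
  have h : ∀ i ∈ bl β a, du β x i = ((bl β a).card : ℝ) * x i - bs β x a := by
    intro i hi
    rw [mem_bl] at hi
    rw [du, hi]
  rw [Finset.sum_congr rfl h, Finset.sum_sub_distrib, ← Finset.mul_sum, Finset.sum_const,
    nsmul_eq_mul]
  simp only [bs]
  ring

/-- points with prescribed masses and differences -/
theorem exists_pt (hβ : Function.Surjective β) (P : Fin n → ℝ) (U : Fin k → ℝ)
    (hU : ∀ a, ∑ i ∈ bl β a, U i = 0) :
    ∃ z : V k, (∀ a, bs β z a = P a) ∧ ∀ i, du β z i = U i := by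
  have hc := card_ne β hβ
  let z : V k := WithLp.toLp 2 (fun i => (P (β i) + U i) / ((bl β (β i)).card : ℝ))
  have hz : ∀ i, z i = (P (β i) + U i) / ((bl β (β i)).card : ℝ) := fun i => rfl
  have h1 : ∀ a, bs β z a = P a := by
    intro a
    have h2 : ∀ i ∈ bl β a, z i = (P a + U i) / ((bl β a).card : ℝ) := by
      intro i hi
      rw [mem_bl] at hi
      rw [hz, hi]
    rw [bs, Finset.sum_congr rfl h2, ← Finset.sum_div, Finset.sum_add_distrib, hU,
      Finset.sum_const, nsmul_eq_mul, add_zero, mul_div_cancel_left₀ _ (hc a)]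
  refine ⟨z, h1, fun i => ?_⟩
  rw [du, h1, hz, mul_div_cancel₀ _ (hc _)]
  ring

/-! ### the functions of the partition -/

/-- the linear part of `bg` where `B` is the set of the blocks with mass below `δ` -/
noncomputable def LB (B : Finset (Fin n)) (i : Fin k) : V k →ₗ[ℝ] ℝ where
  toFun z := du β z i + (((β i).val : ℝ) + 1) / ((n : ℝ) + 1) * ∑ b ∈ B, bs β z b +
      ((n : ℝ) + 1) * (if β i ∈ B then bs β z (β i) else 0)
  map_add' x y := by
    simp only [bs_add, du_add, Finset.sum_add_distrib]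
    split_ifs <;> ring
  map_smul' c x := by
    simp only [bs_smul, du_smul, ← Finset.mul_sum, RingHom.id_apply, smul_eq_mul]
    split_ifs <;> ring

theorem LB_apply (B : Finset (Fin n)) (i : Fin k) (z : V k) :
    LB β B i z = du β z i + (((β i).val : ℝ) + 1) / ((n : ℝ) + 1) * ∑ b ∈ B, bs β z b +
      ((n : ℝ) + 1) * (if β i ∈ B then bs β z (β i) else 0) := rfl

/-- prescribed values -/
theorem LB_surj (hβ : Function.Surjective β) (B : Finset (Fin n)) (hB : B ≠ Finset.univ)
    (J : Finset (Fin k)) (h : ∀ a a' : Fin n, a ∉ B → a' ∉ B → bl β a ⊆ J → bl β a' ⊆ J → a = a')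
    (g : Fin k → ℝ) : ∃ z ∈ E0 k, ∃ c : ℝ, ∀ i ∈ J, LB β B i z = g i + c := by
  classical
  set D : ℝ := (n : ℝ) + 1 with hD
  have hD0 : 0 < D := by positivity
  let α : Fin n → ℝ := fun a => ((a.val : ℝ) + 1) / D
  have hα0 : ∀ a, 0 < α a := fun a => by positivity
  have hα1 : ∀ a, α a < 1 := by
    intro a
    have : (a.val : ℝ) < n := by exact_mod_cast a.isLt
    simp only [α]
    rw [div_lt_one hD0, hD]
    linarith
  let γ : Fin n → ℝ := fun a => -(∑ i ∈ bl β a, g i) / ((bl β a).card : ℝ)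
  -- the reference block
  obtain ⟨αs, γs, hs0, hs1, hs⟩ : ∃ αs γs : ℝ, 0 ≤ αs ∧ αs < 1 ∧ ∀ a ∉ B, bl β a ⊆ J →
      α a = αs ∧ γ a = γs := by
    by_cases h1 : ∃ a ∉ B, bl β a ⊆ J
    · obtain ⟨a, ha, h2⟩ := h1
      refine ⟨α a, γ a, (hα0 a).le, hα1 a, fun a' ha' h2' => ?_⟩
      rw [h a' a ha' ha h2' h2]
      exact ⟨rfl, rfl⟩
    · refine ⟨0, 0, le_rfl, one_pos, fun a ha h2 => absurd ⟨a, ha, h2⟩ h1⟩
  obtain ⟨b0, hb0⟩ : ∃ b0, b0 ∉ B := by
    by_contra hc
    push Not at hc
    exact hB (Finset.eq_univ_of_forall hc)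
  let Q : Finset (Fin n) := B.filter (fun a => bl β a ⊆ J)
  have hcoef : 0 < 1 + ∑ a ∈ Q, (α a - αs) / D := by
    have h1 : ∑ a ∈ Q, (-(1 / D)) ≤ ∑ a ∈ Q, (α a - αs) / D := by
      refine Finset.sum_le_sum fun a _ => ?_
      rw [← neg_div]
      gcongr
      linarith [hα0 a]
    have h2 : (Q.card : ℝ) ≤ n := by
      have := Finset.card_le_univ Q
      rw [Fintype.card_fin] at this
      exact_mod_cast this
    rw [Finset.sum_const, nsmul_eq_mul] at h1
    have h3 : (Q.card : ℝ) * (1 / D) < 1 := by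
      rw [mul_one_div, div_lt_one hD0]
      linarith
    linarith
  obtain ⟨H, hH⟩ : ∃ H : ℝ, H * (1 + ∑ a ∈ Q, (α a - αs) / D) = ∑ a ∈ Q, (γ a - γs) / D :=
    ⟨_, div_mul_cancel₀ _ hcoef.ne'⟩
  let t : Fin n → ℝ := fun a => if a ∈ Q then (γ a - γs - (α a - αs) * H) / D else 0
  have ht : ∑ a ∈ B, t a = H := by
    have h1 : ∑ a ∈ B, t a = ∑ a ∈ Q, t a := by
      refine (Finset.sum_subset (Finset.filter_subset _ _) fun a _ ha => ?_).symm
      exact if_neg ha
    have h2 : ∑ a ∈ Q, t a = ∑ a ∈ Q, ((γ a - γs) / D - (α a - αs) / D * H) := by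
      refine Finset.sum_congr rfl fun a ha => ?_
      simp only [t]
      rw [if_pos ha]
      ring
    rw [h1, h2, Finset.sum_sub_distrib, ← Finset.sum_mul]
    linarith
  let P : Fin n → ℝ := fun a => if a ∈ B then - t a else if a = b0 then H else 0
  have hPB : ∑ a ∈ B, P a = - H := by
    rw [← ht, ← Finset.sum_neg_distrib]
    exact Finset.sum_congr rfl fun a ha => if_pos ha
  have hP : ∑ a, P a = 0 := by
    rw [← Finset.sum_add_sum_compl B, hPB]
    have h1 : ∑ a ∈ Bᶜ, P a = ∑ a ∈ Bᶜ, if a = b0 then H else 0 :=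
      Finset.sum_congr rfl fun a ha => if_neg (Finset.mem_compl.1 ha)
    rw [h1, Finset.sum_ite_eq', if_pos (Finset.mem_compl.2 hb0)]
    ring
  let c : ℝ := γs - αs * H
  let τ : Fin n → ℝ := fun a => α a * H + D * (if a ∈ B then t a else 0)
  have hτ : ∀ a, bl β a ⊆ J → τ a = γ a - c := by
    intro a h0
    simp only [τ, c]
    by_cases ha : a ∈ B
    · rw [if_pos ha]
      simp only [t]
      rw [if_pos (Finset.mem_filter.2 ⟨ha, h0⟩), mul_div_cancel₀ _ hD0.ne']
      ring
    · obtain ⟨h2, h3⟩ := hs a ha h0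
      rw [if_neg ha, h2, h3]
      ring
  let Sf : Fin n → ℝ := fun a => ∑ l ∈ bl β a ∩ J, (g l + c + τ a)
  let U : Fin k → ℝ := fun i => if i ∈ J then g i + c + τ (β i) else
    -(Sf (β i)) / ((bl β (β i) \ J).card : ℝ)
  have hU : ∀ a, ∑ i ∈ bl β a, U i = 0 := by
    intro a
    rw [← Finset.sum_inter_add_sum_sdiff (bl β a) J]
    have h1 : ∑ i ∈ bl β a ∩ J, U i = Sf a := by
      refine Finset.sum_congr rfl fun i hi => ?_
      rw [Finset.mem_inter, mem_bl] at hi
      simp only [U]
      rw [if_pos hi.2, hi.1]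
    have h2 : ∑ i ∈ bl β a \ J, U i = ∑ i ∈ bl β a \ J, (-(Sf a) / ((bl β a \ J).card : ℝ)) := by
      refine Finset.sum_congr rfl fun i hi => ?_
      rw [Finset.mem_sdiff, mem_bl] at hi
      simp only [U]
      rw [if_neg hi.2, hi.1]
    rw [h1, h2, Finset.sum_const, nsmul_eq_mul]
    by_cases h3 : bl β a ⊆ J
    · have h4 : Sf a = 0 := by
        simp only [Sf]
        rw [Finset.inter_eq_left.2 h3, Finset.sum_add_distrib, Finset.sum_add_distrib,
          Finset.sum_const, Finset.sum_const, nsmul_eq_mul, nsmul_eq_mul, hτ a h3]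
        simp only [γ]
        have := card_ne β hβ a
        field_simp
        ring
      rw [h4]
      simp
    · have h4 : ((bl β a \ J).card : ℝ) ≠ 0 := by
        have : 0 < (bl β a \ J).card := Finset.card_pos.2 (Finset.sdiff_nonempty.2 h3)
        exact_mod_cast this.ne'
      rw [mul_div_cancel₀ _ h4]
      ring
  obtain ⟨z, hz, hzU⟩ := exists_pt β hβ P U hU
  have hsum : ∑ b ∈ B, bs β z b = - H := by
    rw [Finset.sum_congr rfl fun b _ => hz b, hPB]
  have hval : ∀ i : Fin k, LB β B i z = du β z i - τ (β i) := by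
    intro i
    rw [LB_apply, hsum]
    simp only [τ, α]
    by_cases hi : β i ∈ B
    · rw [if_pos hi, if_pos hi, hz]
      simp only [P]
      rw [if_pos hi]
      ring
    · rw [if_neg hi, if_neg hi]
      ring
  refine ⟨z, ?_, c, ?_⟩
  · rw [mem_E0, ← sum_bs β, ← hP]
    exact Finset.sum_congr rfl fun a _ => hz a
  · intro i hi
    rw [hval, hzU]
    simp only [U]
    rw [if_pos hi]
    ring

/-- where the functions are affine -/
theorem bg_eq (δ : ℝ) (x : V k) (B : Finset (Fin n))
    (hB : ∀ b : Fin n, b ∈ B ↔ bs β x b < δ) (i : Fin k) :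
    bg β δ x i = LB β B i x - ((((β i).val : ℝ) + 1) / ((n : ℝ) + 1) * ∑ _b ∈ B, δ +
      ((n : ℝ) + 1) * (if β i ∈ B then δ else 0)) := by
  have h1 : bh β δ x = ∑ b ∈ B, (δ - bs β x b) := by
    rw [bh, ← Finset.sum_subset (Finset.subset_univ B)]
    · refine Finset.sum_congr rfl fun b hb => max_eq_left ?_
      linarith [(hB b).1 hb]
    · intro b _ hb
      refine max_eq_right ?_
      rw [hB, not_lt] at hb
      linarith
  rw [bg, bt, h1, LB_apply, Finset.sum_sub_distrib]
  by_cases hi : β i ∈ B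
  · rw [if_pos hi, if_pos hi, max_eq_left (by linarith [(hB _).1 hi])]
    ring
  · rw [if_neg hi, if_neg hi, max_eq_right (by
      rw [hB, not_lt] at hi
      linarith)]
    ring

end GPl

open GPl SY.BPl

theorem gen_planes {m d : ℕ} {β : Fin (d + m + 1) → Fin (m + 1)} (hβ : Function.Surjective β)
    (hm : 1 ≤ m) (hd : 1 ≤ d) :
    ∃ N : ℕ, ∀ δ : ℝ, 0 < δ → δ * ((m : ℝ) + 1) < 1 →
      ∃ (p : Fin N → V (d + m + 1)) (v : Fin N → Fin m → V (d + m + 1)),
        (∀ i, p i ∈ Hp (d + m + 1)) ∧ (∀ i a, v i a ∈ E0 (d + m + 1)) ∧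
        meet (d + m + 1) (gA β δ) (d + 1) ⊆
          ⋃ i, range (fun t : Fin m → ℝ => p i + ∑ a, t a • v i a) := by
  classical
  let ι := Option (Finset (Fin (m + 1)) × Finset (Fin (d + m + 1)))
  refine ⟨Fintype.card ι, fun δ h0 h1 => ?_⟩
  have hk2 : 2 ≤ d + m + 1 := by omega
  have hrq : d + 1 + m = d + m + 1 := by omega
  have hncast : (((m + 1 : ℕ)) : ℝ) = (m : ℝ) + 1 := by push_cast; ring
  -- the planes
  let S : ι → Set (V (d + m + 1)) := fun u => match u with
    | none => {x | x ∈ Hp (d + m + 1) ∧ ∀ i, du β x i = 0}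
    | some (B, J) => {x | x ∈ Hp (d + m + 1) ∧ ((B ≠ Finset.univ ∧ J.card = d + 1 ∧
        ∀ a a' : Fin (m + 1), a ∉ B → a' ∉ B → bl β a ⊆ J → bl β a' ⊆ J → a = a') ∧
        (∀ b : Fin (m + 1), b ∈ B ↔ bs β x b < δ) ∧ ∀ i ∈ J, ∀ l ∈ J, bg β δ x i = bg β δ x l)}
  have hS : ∀ u, ∃ p ∈ Hp (d + m + 1), ∃ v : Fin m → V (d + m + 1), (∀ a, v a ∈ E0 (d + m + 1)) ∧
      S u ⊆ range (fun t : Fin m → ℝ => p + ∑ a, t a • v a) := by
    rintro (_ | ⟨B, J⟩)
    · -- all differences vanish
      let W : Submodule ℝ (V (d + m + 1)) :=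
        { carrier := {z | z ∈ E0 (d + m + 1) ∧ ∀ i, du β z i = 0}
          add_mem' := by
            rintro x y ⟨hx, hx0⟩ ⟨hy, hy0⟩
            exact ⟨Submodule.add_mem _ hx hy, fun i => by rw [du_add, hx0, hy0, add_zero]⟩
          zero_mem' := by
            refine ⟨Submodule.zero_mem _, fun i => ?_⟩
            have := du_smul β 0 (0 : V (d + m + 1)) i
            rwa [zero_smul, zero_mul] at this
          smul_mem' := by
            rintro c x ⟨hx, hx0⟩
            exact ⟨Submodule.smul_mem _ _ hx, fun i => by rw [du_smul, hx0, mul_zero]⟩ }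
      have hWE : W ≤ E0 (d + m + 1) := fun z hz => hz.1
      let G : W →ₗ[ℝ] E0 (m + 1) :=
        { toFun := fun z => ⟨WithLp.toLp 2 (fun a => bs β (z : V (d + m + 1)) a), by
            rw [mem_E0]
            have := sum_bs β (z : V (d + m + 1))
            have h2 := mem_E0.1 z.2.1
            rw [h2] at this
            exact this⟩
          map_add' := fun x y => by
            apply Subtype.ext
            apply PiLp.ext
            intro a
            simp [bs_add]
          map_smul' := fun c x => by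
            apply Subtype.ext
            apply PiLp.ext
            intro a
            simp [bs_smul] }
      have hGv : ∀ (z : W) (a : Fin (m + 1)), ((G z : V (m + 1))) a = bs β (z : V (d + m + 1)) a :=
        fun z a => rfl
      have hG : Function.Injective G := by
        rw [injective_iff_map_eq_zero]
        intro z hz
        apply Subtype.ext
        apply PiLp.ext
        intro i
        have h2 : bs β (z : V (d + m + 1)) (β i) = 0 := by
          rw [← hGv, hz]
          simp
        have h3 := z.2.2 i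
        rw [du, h2, sub_zero] at h3
        rcases mul_eq_zero.1 h3 with h4 | h4
        · exact absurd h4 (card_ne β hβ _)
        · simpa using h4
      have hW : finrank ℝ W ≤ m := by
        have h2 := LinearMap.finrank_le_finrank_of_injective hG
        rw [finrank_E0 (by omega)] at h2
        omega
      refine exists_plane (by omega) W hWE hW _ (fun x hx => hx.1) ?_
      rintro x ⟨hx, hx0⟩ y ⟨hy, hy0⟩
      refine ⟨?_, fun i => ?_⟩
      · rw [mem_E0]
        simp only [Hp, mem_ofPred_eq] at hx hy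
        simp only [PiLp.sub_apply, Finset.sum_sub_distrib, hx, hy, sub_self]
      · rw [sub_eq_add_neg, du_add, ← neg_one_smul ℝ y, du_smul, hx0, hy0]
        ring
    · by_cases hg : B ≠ Finset.univ ∧ J.card = d + 1 ∧ ∀ a a' : Fin (m + 1), a ∉ B → a' ∉ B →
          bl β a ⊆ J → bl β a' ⊆ J → a = a'
      · obtain ⟨hB, hJ, h2⟩ := hg
        obtain ⟨p, hp, v, hv, hs⟩ := plane_of_surj hk2 hrq J hJ (LB β B)
          (fun i => - ((((β i).val : ℝ) + 1) / (((m + 1 : ℕ) : ℝ) + 1) * ∑ _b ∈ B, δ +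
            (((m + 1 : ℕ) : ℝ) + 1) * (if β i ∈ B then δ else 0)))
          (LB_surj β hβ B hB J h2)
        refine ⟨p, hp, v, hv, Subset.trans ?_ hs⟩
        rintro x ⟨hx, -, h3, h4⟩
        refine ⟨hx, ?_⟩
        rcases J.eq_empty_or_nonempty with rfl | ⟨l, hl⟩
        · exact ⟨0, fun i hi => absurd hi (Finset.notMem_empty i)⟩
        · refine ⟨bg β δ x l, fun i hi => ?_⟩
          rw [← h4 i hi l hl, bg_eq β δ x B h3 i]
          ring
      · refine ⟨EuclideanSpace.single ⟨0, by omega⟩ 1, by simp [Hp], fun _ => 0,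
          fun _ => Submodule.zero_mem _, ?_⟩
        rintro x ⟨-, h, -⟩
        exact absurd h hg
  choose p hp v hv hT using hS
  let e := Fintype.equivFin ι
  refine ⟨fun n => p (e.symm n), fun n => v (e.symm n), fun n => hp _, fun n => hv _,
    fun x hx => ?_⟩
  suffices hu : ∃ u, x ∈ S u by
    obtain ⟨u, hu⟩ := hu
    refine mem_iUnion.2 ⟨e u, ?_⟩
    have := hT u hu
    simp only [Equiv.symm_apply_apply]
    exact this
  obtain ⟨T, hT', hxT⟩ := hx
  obtain ⟨J, hJT, hJ⟩ := Finset.exists_subset_card_eq hT'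
  have hxJ : ∀ i ∈ J, x ∈ gA β δ i := fun i hi => hxT i (hJT hi)
  obtain ⟨i0, hi0⟩ : J.Nonempty := Finset.card_pos.1 (by omega)
  have hxH : x ∈ Hp (d + m + 1) := (hxJ i0 hi0).1.2
  have heq : ∀ i ∈ J, ∀ l ∈ J, bg β δ x i = bg β δ x l := fun i hi l hl =>
    le_antisymm ((hxJ l hl).2 i) ((hxJ i hi).2 l)
  let B : Finset (Fin (m + 1)) := Finset.univ.filter (fun b => bs β x b < δ)
  have hBm : ∀ b : Fin (m + 1), b ∈ B ↔ bs β x b < δ := fun b => by simp [B]
  have hBu : B ≠ Finset.univ := by
    intro h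
    have h2 : ∑ a, bs β x a = 1 := (sum_bs β x).trans hxH
    have h3 : ∑ a : Fin (m + 1), bs β x a ≤ ∑ _a : Fin (m + 1), δ :=
      Finset.sum_le_sum fun a _ => ((hBm a).1 (h ▸ Finset.mem_univ a)).le
    rw [h2, Finset.sum_const, Finset.card_univ, Fintype.card_fin, nsmul_eq_mul, hncast] at h3
    linarith
  by_cases hg : ∀ a a' : Fin (m + 1), a ∉ B → a' ∉ B → bl β a ⊆ J → bl β a' ⊆ J → a = a'
  · exact ⟨some (B, J), hxH, ⟨hBu, hJ, hg⟩, hBm, heq⟩
  · push Not at hg
    obtain ⟨a, a', ha, ha', h2, h4, hne⟩ := hg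
    refine ⟨none, hxH, ?_⟩
    have hmax : ∀ a : Fin (m + 1), a ∉ B → max (δ - bs β x a) 0 = 0 := by
      intro a ha
      rw [hBm, not_lt] at ha
      exact max_eq_right (by linarith)
    have hta : ∀ a : Fin (m + 1), a ∉ B → bt β δ x a = ((a.val : ℝ) + 1) / (((m + 1 : ℕ) : ℝ) + 1) *
        bh β δ x := by
      intro a ha
      rw [bt, hmax a ha]
      ring
    -- in a full block all differences vanish
    have hfull : ∀ a : Fin (m + 1), bl β a ⊆ J → ∀ i ∈ bl β a, bg β δ x i = - bt β δ x a := by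
      intro a h6 i hi
      have h7 : ∀ l ∈ bl β a, du β x l = du β x i := by
        intro l hl
        have h8 := heq _ (h6 hl) _ (h6 hi)
        rw [mem_bl] at hl hi
        simp only [bg, hl, hi] at h8
        linarith
      have h9 := sum_du β x a
      rw [Finset.sum_congr rfl h7, Finset.sum_const, nsmul_eq_mul] at h9
      rcases mul_eq_zero.1 h9 with h10 | h10
      · exact absurd h10 (card_ne β hβ _)
      · rw [bg, h10, (mem_bl β).1 hi]
        ring
    obtain ⟨i1, hi1⟩ := hβ a
    obtain ⟨i2, hi2⟩ := hβ a'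
    have hi1' : i1 ∈ bl β a := (mem_bl β).2 hi1
    have hi2' : i2 ∈ bl β a' := (mem_bl β).2 hi2
    have hh0 : bh β δ x = 0 := by
      have h6 := hfull a h2 i1 hi1'
      have h7 := hfull a' h4 i2 hi2'
      rw [heq _ (h2 hi1') _ (h4 hi2'), h7, hta a ha, hta a' ha'] at h6
      have h8 : ((a.val : ℝ) - a'.val) * bh β δ x = 0 := by
        have hD : (0 : ℝ) < ((m + 1 : ℕ) : ℝ) + 1 := by positivity
        field_simp at h6
        linarith
      rcases mul_eq_zero.1 h8 with h9 | h9
      · exfalso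
        apply hne
        apply Fin.ext
        have : (a.val : ℝ) = a'.val := by linarith
        exact_mod_cast this
      · exact h9
    have hta0 : ∀ b : Fin (m + 1), bt β δ x b = 0 := by
      intro b
      have h6 : max (δ - bs β x b) 0 ≤ 0 := by
        refine le_trans ?_ hh0.le
        exact Finset.single_le_sum (f := fun b => max (δ - bs β x b) 0)
          (fun _ _ => le_max_right _ _) (Finset.mem_univ b)
      rw [bt, hh0, le_antisymm h6 (le_max_right _ _)]
      ring
    have hle : ∀ i, du β x i ≤ 0 := by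
      intro i
      have h6 := (hxJ _ (h2 hi1')).2 i
      rw [hfull a h2 i1 hi1', hta0, bg, hta0] at h6
      linarith
    intro i
    have h6 := (Finset.sum_eq_zero_iff_of_nonpos (s := bl β (β i)) (f := du β x)
      fun l _ => hle l).1 (sum_du β x (β i))
    exact h6 i ((mem_bl β).2 rfl)

end SZ
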