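import Mathlib
import Pool.Agent.H27.SY.Thin
import Pool.Agent.H27.SZ.Defs

/-!
# Project SZ, row SZ-12: coverings of the thin set by balls
-/

set_option autoImplicit false
set_option linter.all false

open MeasureTheory Metric Set Filter Module
open scoped Topology MeasureTheory RealInnerProductSpace Nat Pointwise

namespace SZ

open SP SP.Mea SX SY

theorem gth_sum {k n : ℕ} (β : Fin k → Fin n) (x : V k) : ∑ a, bs β x a = ∑ i, x i := by
  unfold bs bl
  exact Finset.sum_fiberwise Finset.univ β (fun i => x i)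

theorem gth_nonneg {k n : ℕ} (β : Fin k → Fin n) {x : V k} (hx : x ∈ Sx k) (a : Fin n) :
    0 ≤ bs β x a := by
  unfold bs
  exact Finset.sum_nonneg fun i _ => hx.1 i

/-- the centres of the balls -/
noncomputable def gth_c {k n : ℕ} (β : Fin k → Fin n) (δ : ℝ) (q : Fin n × Fin n)
    (w : Fin n → ℕ) : V k :=
  WithLp.toLp 2 fun i : Fin k => (if β i = q.1 then 0 else
    if β i = q.2 then 1 - ∑ b, δ * (w b : ℝ) else δ * (w (β i) : ℝ)) / ((bl β (β i)).card : ℝ)

theorem gth_card {k n : ℕ} (β : Fin k → Fin n) (i : Fin k) : (1 : ℝ) ≤ ((bl β (β i)).card : ℝ) := by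
  have h : 0 < (bl β (β i)).card := by
    apply Finset.card_pos.2
    exact ⟨i, by simp [bl]⟩
  exact_mod_cast h

theorem gth_cover {k n : ℕ} (hk : 1 ≤ k) (hn : 2 ≤ n) (β : Fin k → Fin n) (C1 : ℝ) {δ : ℝ}
    (h0 : 0 < δ) (h1 : δ ≤ 1) {x : V k} (hx : x ∈ Sx k) (hu : ∀ i, |du β x i| ≤ C1 * δ)
    (ha : ∃ a, bs β x a ≤ δ) : ∃ q : Fin n × Fin n, q.1 ≠ q.2 ∧
      ∃ w ∈ thin_G ⌊1 / δ⌋₊ q, x ∈ closedBall (gth_c β δ q w) (k * ((|C1| + n) * δ)) := by
  obtain ⟨a0, ha₀⟩ := ha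
  haveI : Nontrivial (Fin n) := Fin.nontrivial_iff_two_le.2 hn
  obtain ⟨a1, ha1⟩ := exists_ne a0
  set q : Fin n × Fin n := (a0, a1) with hq
  have hps0 : ∀ a, 0 ≤ bs β x a := gth_nonneg β hx
  have hsum : ∑ a : Fin n, bs β x a = 1 := by rw [gth_sum, hx.2]
  have hps1 : ∀ a : Fin n, bs β x a ≤ 1 := by
    intro a
    rw [← hsum]
    exact Finset.single_le_sum (f := fun a : Fin n => bs β x a) (fun b _ => hps0 b)
      (Finset.mem_univ a)
  set w : Fin n → ℕ := fun a => if a = q.1 ∨ a = q.2 then 0 else ⌊bs β x a / δ⌋₊ with hw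
  have hnmem : w ∈ thin_G ⌊1 / δ⌋₊ q := by
    unfold thin_G
    rw [Fintype.mem_piFinset]
    intro a
    by_cases h : a = q.1 ∨ a = q.2
    · simp [hw, h]
    · rw [if_neg h, Finset.mem_range, hw]
      simp only [if_neg h]
      exact Nat.lt_succ_of_le (Nat.floor_le_floor (by
        apply div_le_div_of_nonneg_right (hps1 a) h0.le))
  -- the errors
  have herr : ∀ a : Fin n, a ≠ a1 → |bs β x a - δ * (w a : ℝ)| ≤ δ := by
    intro a haa
    by_cases h : a = a0
    · have h2 : w a = 0 := by rw [hw]; simp [h, hq]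
      rw [h2, h]
      simp only [Nat.cast_zero, mul_zero, sub_zero]
      rw [abs_of_nonneg (hps0 _)]
      exact ha₀
    · have h2 : w a = ⌊bs β x a / δ⌋₊ := by
        rw [hw]
        simp only [hq]
        rw [if_neg]
        push Not
        exact ⟨h, haa⟩
      rw [h2]
      have h3 := Nat.floor_le (div_nonneg (hps0 a) h0.le)
      have h4 := Nat.lt_floor_add_one (bs β x a / δ)
      rw [le_div_iff₀ h0] at h3
      rw [div_lt_iff₀ h0] at h4
      rw [abs_le]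
      constructor <;> nlinarith
  have hn1 : w a1 = 0 := by rw [hw]; simp [hq]
  have herr1 : |bs β x a1 - (1 - ∑ b, δ * (w b : ℝ))| ≤ n * δ := by
    have h2 : bs β x a1 - (1 - ∑ b, δ * (w b : ℝ)) =
        ∑ b ∈ Finset.univ.erase a1, (δ * (w b : ℝ) - bs β x b) := by
      have h3 : ∑ b, δ * (w b : ℝ) = ∑ b ∈ Finset.univ.erase a1, δ * (w b : ℝ) := by
        rw [← Finset.add_sum_erase _ _ (Finset.mem_univ a1), hn1]
        simp
      have h4 : (1 : ℝ) = bs β x a1 + ∑ b ∈ Finset.univ.erase a1, bs β x b := by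
        rw [← hsum, ← Finset.add_sum_erase _ _ (Finset.mem_univ a1)]
      rw [Finset.sum_sub_distrib, h3]
      linarith
    rw [h2]
    refine (Finset.abs_sum_le_sum_abs _ _).trans ?_
    calc ∑ b ∈ Finset.univ.erase a1, |δ * (w b : ℝ) - bs β x b|
        ≤ ∑ b ∈ Finset.univ.erase a1, δ := by
          refine Finset.sum_le_sum fun b hb => ?_
          rw [abs_sub_comm]
          exact herr b (Finset.ne_of_mem_erase hb)
      _ ≤ ∑ _b : Fin n, δ := Finset.sum_le_sum_of_subset_of_nonneg (Finset.subset_univ _)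
          fun _ _ _ => h0.le
      _ = n * δ := by simp
  have hd1 : (1 : ℝ) ≤ n := by exact_mod_cast (by omega : 1 ≤ n)
  have hall : ∀ a : Fin n, |bs β x a - (if a = q.1 then 0 else
      if a = q.2 then 1 - ∑ b, δ * (w b : ℝ) else δ * (w a : ℝ))| ≤ n * δ := by
    intro a
    by_cases h2 : a = q.1
    · rw [if_pos h2, sub_zero, abs_of_nonneg (hps0 _), h2]
      have h3 : bs β x q.1 ≤ δ := ha₀
      nlinarith
    · rw [if_neg h2]
      by_cases h3 : a = q.2
      · rw [if_pos h3, h3]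
        exact herr1
      · rw [if_neg h3]
        refine (herr a h3).trans ?_
        nlinarith
  refine ⟨q, ha1.symm, w, hnmem, ?_⟩
  rw [mem_closedBall, dist_eq_norm]
  apply thin_norm hk _ (by positivity)
  intro i
  have h2 := hall (β i)
  have h3 := hu i
  have hc1 := gth_card β i
  have hc0 : (0 : ℝ) < ((bl β (β i)).card : ℝ) := by linarith
  have h4 : (x - gth_c β δ q w : V k) i = (du β x i + (bs β x (β i) -
      (if β i = q.1 then 0 else
        if β i = q.2 then 1 - ∑ b, δ * (w b : ℝ) else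
          δ * (w (β i) : ℝ)))) / ((bl β (β i)).card : ℝ) := by
    show x i - (if β i = q.1 then 0 else
      if β i = q.2 then 1 - ∑ b, δ * (w b : ℝ) else
        δ * (w (β i) : ℝ)) / ((bl β (β i)).card : ℝ) = _
    unfold du
    field_simp
    ring
  rw [h4, abs_div, abs_of_pos hc0, div_le_iff₀ hc0]
  refine (abs_add_le _ _).trans ?_
  have h5 : C1 * δ ≤ |C1| * δ := mul_le_mul_of_nonneg_right (le_abs_self _) h0.le
  have h6 : 0 ≤ |C1| * δ := by positivity
  have h7 : (0 : ℝ) ≤ n * δ := by positivity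
  calc |du β x i| + |bs β x (β i) - (if β i = q.1 then 0 else
        if β i = q.2 then 1 - ∑ b, δ * (w b : ℝ) else δ * (w (β i) : ℝ))|
      ≤ |C1| * δ + n * δ := add_le_add (h3.trans h5) h2
    _ = (|C1| + n) * δ * 1 := by ring
    _ ≤ (|C1| + n) * δ * ((bl β (β i)).card : ℝ) :=
        mul_le_mul_of_nonneg_left hc1 (by positivity)

theorem gth_main {k n : ℕ} (hk : 1 ≤ k) (hn : 2 ≤ n) (β : Fin k → Fin n) (C1 : ℝ) :
    ∃ C : ℝ, 0 < C ∧ ∀ δ : ℝ, 0 < δ → δ ≤ 1 → ∀ (p : V k) (v : Fin (n - 1) → V k),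
      μHE[n - 1] (range (fun t : Fin (n - 1) → ℝ => p + ∑ a, t a • v a) ∩
        {x | x ∈ Sx k ∧ (∀ i, |du β x i| ≤ C1 * δ) ∧ ∃ a, bs β x a ≤ δ}) ≤
      ENNReal.ofReal (C * δ) := by
  obtain ⟨C, hC, hb⟩ := plane_ball k (n - 1)
  have hd1 : (1 : ℝ) ≤ n := by exact_mod_cast (by omega : 1 ≤ n)
  have hk1 : (1 : ℝ) ≤ k := by exact_mod_cast hk
  have hC2 : 0 < (k : ℝ) * (|C1| + n) := by positivity
  refine ⟨(n : ℝ) * n * (2 ^ (n - 2) * (C * (k * (|C1| + n)) ^ (n - 1))), by positivity, ?_⟩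
  intro δ h0 h1 p v
  set N := ⌊1 / δ⌋₊ with hN
  set P := range (fun t : Fin (n - 1) → ℝ => p + ∑ a, t a • v a) with hP
  set Q : Finset (Fin n × Fin n) := Finset.univ.filter fun q => q.1 ≠ q.2 with hQ
  have hsub : P ∩ {x | x ∈ Sx k ∧ (∀ i, |du β x i| ≤ C1 * δ) ∧ ∃ a, bs β x a ≤ δ} ⊆
      ⋃ q ∈ Q, ⋃ w ∈ thin_G N q, P ∩ closedBall (gth_c β δ q w) (k * ((|C1| + n) * δ)) := by
    rintro x ⟨hxP, hx, hu, ha⟩
    obtain ⟨q, hq, w, hw, hxn⟩ := gth_cover hk hn β C1 h0 h1 hx hu ha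
    refine mem_iUnion₂.2 ⟨q, ?_, mem_iUnion₂.2 ⟨w, hw, hxP, hxn⟩⟩
    rw [hQ, Finset.mem_filter]
    exact ⟨Finset.mem_univ _, hq⟩
  have hr : 0 < (k : ℝ) * ((|C1| + n) * δ) := by positivity
  set B : ℝ := C * ((k : ℝ) * ((|C1| + n) * δ)) ^ (n - 1) with hB
  have hB0 : 0 ≤ B := by positivity
  have hN2 : ((N : ℝ) + 1) * δ ≤ 2 := by
    have h2 : (N : ℝ) ≤ 1 / δ := Nat.floor_le (by positivity)
    rw [le_div_iff₀ h0] at h2
    linarith
  refine (measure_mono hsub).trans ?_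
  refine (measure_biUnion_finset_le _ _).trans ?_
  calc ∑ q ∈ Q, μHE[n - 1] (⋃ w ∈ thin_G N q, P ∩ closedBall (gth_c β δ q w)
        (k * ((|C1| + n) * δ)))
      ≤ ∑ q ∈ Q, ENNReal.ofReal (((N : ℝ) + 1) ^ (n - 2) * B) := by
        refine Finset.sum_le_sum fun q hq => ?_
        rw [hQ, Finset.mem_filter] at hq
        refine (measure_biUnion_finset_le _ _).trans ?_
        refine (Finset.sum_le_sum fun w _ => hb p v (gth_c β δ q w) _ hr).trans ?_
        rw [Finset.sum_const, thin_card N q hq.2, nsmul_eq_mul]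
        have h9 : ENNReal.ofReal (((N : ℝ) + 1) ^ (n - 2)) =
            (((N + 1) ^ (n - 2) : ℕ) : ENNReal) := by
          rw [← ENNReal.ofReal_natCast]
          congr 1
          push_cast
          rfl
        rw [ENNReal.ofReal_mul (p := ((N : ℝ) + 1) ^ (n - 2)) (by positivity), h9]
    _ ≤ ∑ _q : Fin n × Fin n, ENNReal.ofReal (((N : ℝ) + 1) ^ (n - 2) * B) :=
        Finset.sum_le_sum_of_subset (Finset.subset_univ _)
    _ = ENNReal.ofReal ((n : ℝ) * n * (((N : ℝ) + 1) ^ (n - 2) * B)) := by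
        rw [Finset.sum_const, Finset.card_univ, Fintype.card_prod, Fintype.card_fin,
          nsmul_eq_mul]
        have h9 : (n : ℝ) * n * (((N : ℝ) + 1) ^ (n - 2) * B) =
            ((n * n : ℕ) : ℝ) * (((N : ℝ) + 1) ^ (n - 2) * B) := by
          push_cast
          ring
        rw [h9, ENNReal.ofReal_mul (Nat.cast_nonneg _), ENNReal.ofReal_natCast]
    _ ≤ _ := by
        apply ENNReal.ofReal_le_ofReal
        rw [hB, mul_assoc ((n : ℝ) * n)]
        have h3 : ((N : ℝ) + 1) ^ (n - 2) * δ ^ (n - 2) ≤ 2 ^ (n - 2) := by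
          rw [← mul_pow]
          exact pow_le_pow_left₀ (by positivity) hN2 _
        have h4 : ((k : ℝ) * ((|C1| + n) * δ)) ^ (n - 1) =
            (k * (|C1| + n)) ^ (n - 1) * (δ ^ (n - 2) * δ) := by
          rw [← pow_succ, show n - 2 + 1 = n - 1 by omega, ← mul_pow, mul_assoc]
        rw [h4]
        have h5 : ((N : ℝ) + 1) ^ (n - 2) * (C * ((k * (|C1| + n)) ^ (n - 1) * (δ ^ (n - 2) * δ))) =
            (((N : ℝ) + 1) ^ (n - 2) * δ ^ (n - 2)) * (C * (k * (|C1| + n)) ^ (n - 1) * δ) := by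
          ring
        rw [h5, show (2 : ℝ) ^ (n - 2) * (C * (k * (|C1| + n)) ^ (n - 1)) * δ =
          2 ^ (n - 2) * (C * (k * (|C1| + n)) ^ (n - 1) * δ) by ring]
        gcongr

theorem gen_thin {m d : ℕ} {β : Fin (d + m + 1) → Fin (m + 1)} (hβ : Function.Surjective β)
    (hm : 1 ≤ m) (C1 : ℝ) : ∃ C : ℝ, 0 < C ∧
    ∀ δ : ℝ, 0 < δ → δ ≤ 1 → ∀ (p : V (d + m + 1)) (v : Fin m → V (d + m + 1)),
      μHE[m] (range (fun t : Fin m → ℝ => p + ∑ a, t a • v a) ∩
        {x | x ∈ Sx (d + m + 1) ∧ (∀ i, |du β x i| ≤ C1 * δ) ∧ ∃ a, bs β x a ≤ δ}) ≤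
      ENNReal.ofReal (C * δ) :=
  gth_main (k := d + m + 1) (n := m + 1) (by omega) (by omega) β C1

end SZ
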