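import Pool.Agent.H27.SZ.Defs
import Pool.Agent.H27.SY.Vol

/-!
# SZ-13: the volume of the block simplex (helper53 for helper27)
-/

set_option autoImplicit false

open MeasureTheory Metric Set Filter Module
open scoped Topology MeasureTheory RealInnerProductSpace Nat Pointwise

namespace SZ

open SP SP.Mea SX SY

private theorem gv_sum {k n : ℕ} (β : Fin k → Fin n) (g : Fin n → ℝ) :
    ∑ i, g (β i) = ∑ a, ((bl β a).card : ℝ) * g a := by
  rw [← Finset.sum_fiberwise Finset.univ β]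
  refine Finset.sum_congr rfl fun a _ => ?_
  rw [Finset.sum_congr rfl fun i hi => show g (β i) = g a by rw [(Finset.mem_filter.1 hi).2],
    Finset.sum_const, nsmul_eq_mul]
  rfl

private theorem gv_sqrt {n : ℕ} (c : Fin n → ℝ) (hc : ∀ i, 0 ≤ c i) :
    ∏ a, Real.sqrt (c a) = Real.sqrt (∏ a, c a) := by
  have h : ∀ s : Finset (Fin n), ∏ a ∈ s, Real.sqrt (c a) = Real.sqrt (∏ a ∈ s, c a) := by
    intro s
    induction s using Finset.induction_on with
    | empty => simp
    | insert a s ha ih => rw [Finset.prod_insert ha, Finset.prod_insert ha, ih, Real.sqrt_mul (hc a)]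
  exact h _

/-- the isometric parametrisation -/
private noncomputable def gJ {k n : ℕ} (β : Fin k → Fin n) (y : V n) : V k :=
  WithLp.toLp 2 fun i => y (β i) / Real.sqrt ((bl β (β i)).card : ℝ)

private theorem gJ_isometry {k n : ℕ} {β : Fin k → Fin n} (hc : ∀ a, 0 < ((bl β a).card : ℝ)) :
    Isometry (gJ β) := by
  refine Isometry.of_dist_eq fun y z => ?_
  rw [EuclideanSpace.dist_eq, EuclideanSpace.dist_eq]
  congr 1
  have e1 : ∀ i : Fin k, dist (gJ β y i) (gJ β z i) ^ 2 =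
      (fun a : Fin n => (y a - z a) ^ 2 / Real.sqrt ((bl β a).card : ℝ) ^ 2) (β i) := by
    intro i
    rw [Real.dist_eq, sq_abs]
    simp only [gJ]
    rw [← sub_div, div_pow]
  rw [Finset.sum_congr rfl fun i _ => e1 i,
    gv_sum β (fun a : Fin n => (y a - z a) ^ 2 / Real.sqrt ((bl β a).card : ℝ) ^ 2)]
  refine Finset.sum_congr rfl fun a _ => ?_
  rw [Real.dist_eq, sq_abs, Real.sq_sqrt (hc a).le]
  have := (hc a).ne'
  field_simp

theorem vol_DB {m d : ℕ} {β : Fin (d + m + 1) → Fin (m + 1)} (hβ : Function.Surjective β)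
    (hm : 1 ≤ m) :
    μHE[m] (DB β) ≤ ENNReal.ofReal (Real.sqrt ((d : ℝ) + m + 1) /
      ((m ! : ℝ) * Real.sqrt (∏ a, ((bl β a).card : ℝ)))) := by
  have hc : ∀ a, 0 < ((bl β a).card : ℝ) := fun a => by
    obtain ⟨i, hi⟩ := hβ a
    exact_mod_cast Finset.card_pos.2 ⟨i, Finset.mem_filter.2 ⟨Finset.mem_univ _, hi⟩⟩
  set w : Fin (m + 1) → ℝ := fun a => Real.sqrt ((bl β a).card : ℝ) with hw
  have hwpos : ∀ j, 0 < w j := fun j => Real.sqrt_pos.2 (hc j)
  have hww : ∀ j, w j ^ 2 = ((bl β j).card : ℝ) := fun j => Real.sq_sqrt (hc j).le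
  have hprod : ∏ j, w j = Real.sqrt (∏ a, ((bl β a).card : ℝ)) := gv_sqrt _ fun a => (hc a).le
  have hsq : ∑ j, w j ^ 2 = (d : ℝ) + m + 1 := by
    have h1 := gv_sum β (fun _ => 1)
    simp only [mul_one, Finset.sum_const, Finset.card_univ, Fintype.card_fin, nsmul_eq_mul] at h1
    rw [Finset.sum_congr rfl fun j _ => hww j, ← h1]
    push_cast
    ring
  set ν : V (m + 1) := WithLp.toLp 2 w with hν
  have hν2 : ‖ν‖ ^ 2 = (d : ℝ) + m + 1 := by
    rw [EuclideanSpace.norm_sq_eq, ← hsq]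
    simp [hν]
  have hνn : ‖ν‖ = Real.sqrt ((d : ℝ) + m + 1) := by
    rw [← hν2, Real.sqrt_sq (norm_nonneg _)]
  have hν0 : ν ≠ 0 := by
    intro h
    rw [h, norm_zero] at hν2
    have h1 : (0 : ℝ) ≤ m := Nat.cast_nonneg m
    have h2 : (0 : ℝ) ≤ d := Nat.cast_nonneg d
    nlinarith
  have hin : ∀ y : V (m + 1), ⟪ν, y⟫ = ∑ i, w i * y i := by
    intro y
    rw [PiLp.inner_apply]
    refine Finset.sum_congr rfl fun i _ => ?_
    simp [hν, mul_comm]
  set G : Set (V (m + 1)) := {y | (∀ i, 0 ≤ y i) ∧ ∑ i, w i * y i ≤ 1} with hG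
  have hGm : MeasurableSet G := by
    have a1 : IsClosed {z : V (m + 1) | ∀ i, 0 ≤ z i} := by
      have : {z : V (m + 1) | ∀ i, 0 ≤ z i} = ⋂ i, {z | 0 ≤ z i} := by
        ext p; simp
      rw [this]
      exact isClosed_iInter fun i => isClosed_le continuous_const (by fun_prop)
    have a2 : IsClosed {z : V (m + 1) | ∑ i, w i * z i ≤ 1} :=
      isClosed_le (by fun_prop) continuous_const
    exact (a1.inter a2).measurableSet
  have hGv : volume G = ENNReal.ofReal (1 / (Real.sqrt (∏ a, ((bl β a).card : ℝ)) *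
      ((m + 1)! : ℝ))) := by
    rw [← hprod, ← vol_wcorner w hwpos]
    have hmp := EuclideanSpace.volume_preserving_symm_measurableEquiv_toLp (Fin (m + 1))
    rw [← hmp.measure_preimage_equiv]
    rfl
  set D : Set (V (m + 1)) := {y | (∀ i, 0 ≤ y i) ∧ ∑ i, w i * y i = 1} with hD
  have hkey := cone_slice (m := m) (by simp) ν hν0 (D := D) hGm
    (fun y hy => by rw [hin]; exact hy.2)
    (fun x hx hx1 y hy => by
      refine ⟨fun i => mul_nonneg hx.le (hy.1 i), ?_⟩
      have : ∑ i, w i * (x • y) i = x * ∑ i, w i * y i := by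
        rw [Finset.mul_sum]
        refine Finset.sum_congr rfl fun i _ => ?_
        simp only [PiLp.smul_apply, smul_eq_mul]
        ring
      rw [this, hy.2, mul_one]
      exact hx1)
  have hDB : μHE[m] (DB β) ≤ μHE[m] D := by
    have h1 := (gJ_isometry hc).euclideanHausdorffMeasure_image (d := m) D
    rw [← h1]
    apply measure_mono
    rintro x ⟨⟨hx1, hx2⟩, hx3⟩
    set e : Fin (m + 1) → Fin (d + m + 1) := Function.surjInv hβ with he
    have heβ : ∀ a, β (e a) = a := Function.surjInv_eq hβ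
    refine ⟨WithLp.toLp 2 fun a => w a * x (e a), ⟨fun a => mul_nonneg (hwpos a).le (hx1 _), ?_⟩, ?_⟩
    · rw [← hx2, Finset.sum_congr rfl fun i _ => show x i = (fun a => x (e a)) (β i) from
        hx3 _ _ (heβ (β i)).symm, gv_sum β (fun a => x (e a))]
      refine Finset.sum_congr rfl fun a _ => ?_
      rw [← hww]
      simp only
      ring
    · ext i
      simp only [gJ]
      rw [mul_div_cancel_left₀ _ (hwpos _).ne']
      exact hx3 _ _ (heβ (β i))
  have h5 : (0 : ℝ) < Real.sqrt (∏ a, ((bl β a).card : ℝ)) :=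
    Real.sqrt_pos.2 (Finset.prod_pos fun a _ => hc a)
  have h6 := hDB.trans hkey
  rw [hGv] at h6
  generalize Real.sqrt (∏ a, ((bl β a).card : ℝ)) = S at h5 h6 ⊢
  refine h6.trans (le_of_eq ?_)
  rw [← ENNReal.ofReal_mul (by positivity), hνn]
  have h3 : ((m + 1)! : ℝ) = ((m : ℝ) + 1) * (m ! : ℝ) := by
    rw [Nat.factorial_succ]; push_cast; ring
  have h4 : (m ! : ℝ) ≠ 0 := by positivity
  have h7 : ((m : ℝ) + 1) ≠ 0 := by positivity
  have h8 := h5.ne'
  congr 1
  rw [h3]
  field_simp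

end SZ
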