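import Pool.Agent.H27.SZ.Defs

/-!
# SZ-3: the normal distribution in dimension `n`
-/

set_option autoImplicit false

open MeasureTheory Metric Set Filter Module
open scoped Topology MeasureTheory RealInnerProductSpace Nat Pointwise

namespace SZ

open SP SP.Mea SX SY

namespace MargAux

private theorem gd_eq (s : ℝ) : gd s = ProbabilityTheory.gaussianPDFReal 0 1 s := by
  unfold gd ProbabilityTheory.gaussianPDFReal
  rw [NNReal.coe_one, mul_one, mul_one, sub_zero, div_eq_inv_mul, neg_div]

private theorem gd_int' : Integrable gd ∧ ∫ s, gd s = 1 := by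
  have h : gd = ProbabilityTheory.gaussianPDFReal 0 1 := funext gd_eq
  rw [h]
  exact ⟨ProbabilityTheory.integrable_gaussianPDFReal 0 1,
    ProbabilityTheory.integral_gaussianPDFReal_eq_one 0 one_ne_zero⟩

private theorem gd_sq' : Integrable (fun s => gd s * s ^ 2) ∧ ∫ s, gd s * s ^ 2 = 1 := by
  have hv := ProbabilityTheory.variance_fun_id_gaussianReal (μ := 0) (v := 1)
  rw [ProbabilityTheory.variance_eq_integral (by fun_prop),
    ProbabilityTheory.integral_id_gaussianReal,
    ProbabilityTheory.integral_gaussianReal_eq_integral_smul one_ne_zero] at hv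
  have h2 : ∫ s, gd s * s ^ 2 = 1 := by
    simp only [sub_zero, smul_eq_mul, NNReal.coe_one] at hv
    simpa only [gd_eq] using hv
  refine ⟨?_, h2⟩
  by_contra hi
  rw [integral_undef hi] at h2
  exact zero_ne_one h2

/-- the density as a product -/
private theorem gn_prod {n : ℕ} (x : Fin n → ℝ) :
    gn (WithLp.toLp 2 x : EuclideanSpace ℝ (Fin n)) = ∏ i, gd (x i) := by
  unfold gn gd
  rw [Finset.prod_div_distrib, ← Real.exp_sum, Finset.prod_const, Finset.card_univ,
    Fintype.card_fin, EuclideanSpace.norm_sq_eq]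
  congr 2
  rw [Finset.sum_neg_distrib, ← Finset.sum_div]
  congr 2
  refine Finset.sum_congr rfl (fun i _ => ?_)
  rw [Real.norm_eq_abs, sq_abs]

/-- change of variables between `EuclideanSpace` and the product space -/
private theorem transfer {n : ℕ} (F : EuclideanSpace ℝ (Fin n) → ℝ) :
    (Integrable F ↔ Integrable (fun x : Fin n → ℝ => F (WithLp.toLp 2 x))) ∧
      ∫ η, F η = ∫ x : Fin n → ℝ, F (WithLp.toLp 2 x) := by
  have hm := (EuclideanSpace.volume_preserving_symm_measurableEquiv_toLp (Fin n)).symm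
  constructor
  · rw [← hm.integrable_comp_emb (MeasurableEquiv.measurableEmbedding _)]
    rfl
  · rw [← hm.integral_comp (MeasurableEquiv.measurableEmbedding _)]
    rfl

/-- the marginal along a coordinate -/
private theorem coord {n : ℕ} (i0 : Fin n) {f : ℝ → ℝ} (hf : Integrable (fun s => gd s * f s)) :
    Integrable (fun η : EuclideanSpace ℝ (Fin n) => gn η * f (η i0)) ∧
      ∫ η : EuclideanSpace ℝ (Fin n), gn η * f (η i0) = ∫ s, gd s * f s := by
  classical
  let g : Fin n → ℝ → ℝ := fun i => if i = i0 then fun s => gd s * f s else gd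
  have hg : ∀ i, Integrable (g i) := by
    intro i
    by_cases h : i = i0
    · simp only [g, h, if_true]; exact hf
    · simp only [g, h, if_false]; exact gd_int'.1
  have hp : ∀ x : Fin n → ℝ, ∏ i, g i (x i) =
      gn (WithLp.toLp 2 x : EuclideanSpace ℝ (Fin n)) * f (x i0) := by
    intro x
    rw [gn_prod, ← Finset.mul_prod_erase Finset.univ (fun i => g i (x i)) (Finset.mem_univ i0),
      ← Finset.mul_prod_erase Finset.univ (fun i => gd (x i)) (Finset.mem_univ i0)]
    have e1 : g i0 (x i0) = gd (x i0) * f (x i0) := by simp only [g, if_true]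
    have e2 : ∏ i ∈ Finset.univ.erase i0, g i (x i) = ∏ i ∈ Finset.univ.erase i0, gd (x i) := by
      refine Finset.prod_congr rfl (fun i hi => ?_)
      have h : i ≠ i0 := (Finset.mem_erase.1 hi).1
      simp only [g, h, if_false]
    rw [e1, e2]
    ring
  obtain ⟨t1, t2⟩ := transfer (fun η : EuclideanSpace ℝ (Fin n) => gn η * f (η i0))
  constructor
  · rw [t1]
    have h := Integrable.fintype_prod (μ := fun _ : Fin n => (volume : Measure ℝ)) hg
    refine (integrable_congr ?_).1 h
    filter_upwards with x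
    exact hp x
  · rw [t2]
    have h := integral_fintype_prod_volume_eq_prod g
    have e : ∀ x : Fin n → ℝ, gn (WithLp.toLp 2 x : EuclideanSpace ℝ (Fin n)) *
        f ((WithLp.toLp 2 x : EuclideanSpace ℝ (Fin n)) i0) = ∏ i, g i (x i) := fun x => (hp x).symm
    simp_rw [e]
    rw [h, ← Finset.mul_prod_erase Finset.univ (fun i => ∫ s, g i s) (Finset.mem_univ i0)]
    have e1 : ∫ s, g i0 s = ∫ s, gd s * f s := by simp only [g, if_true]
    have e2 : ∏ i ∈ Finset.univ.erase i0, ∫ s, g i s = 1 := by
      refine Finset.prod_eq_one (fun i hi => ?_)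
      have h : i ≠ i0 := (Finset.mem_erase.1 hi).1
      simp only [g, h, if_false]
      exact gd_int'.2
    rw [e1, e2, mul_one]

end MargAux

open MargAux

theorem gn_int (n : ℕ) : Integrable (gn (n := n)) ∧ ∫ η : EuclideanSpace ℝ (Fin n), gn η = 1 := by
  obtain ⟨t1, t2⟩ := transfer (gn (n := n))
  constructor
  · rw [t1]
    have h := Integrable.fintype_prod (μ := fun _ : Fin n => (volume : Measure ℝ))
      (f := fun _ => gd) (fun _ => gd_int'.1)
    refine (integrable_congr ?_).1 h
    filter_upwards with x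
    exact (gn_prod x).symm
  · rw [t2]
    have h := integral_fintype_prod_volume_eq_prod (ι := Fin n) (fun _ => gd)
    simp_rw [gn_prod]
    rw [h]
    exact Finset.prod_eq_one (fun i _ => gd_int'.2)

theorem gn_marg {n : ℕ} (u : EuclideanSpace ℝ (Fin n)) (hu : ‖u‖ = 1) {f : ℝ → ℝ}
    (hf : Integrable (fun s => gd s * f s)) :
    Integrable (fun η : EuclideanSpace ℝ (Fin n) => gn η * f ⟪u, η⟫) ∧
      ∫ η : EuclideanSpace ℝ (Fin n), gn η * f ⟪u, η⟫ = ∫ s, gd s * f s := by
  classical
  obtain ⟨i0⟩ : Nonempty (Fin n) := by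
    by_contra hne
    rw [not_nonempty_iff] at hne
    have h0 : u = 0 := by
      ext i
      exact (hne.false i).elim
    rw [h0, norm_zero] at hu
    exact zero_ne_one hu
  have hv : Orthonormal ℝ ((({i0} : Set (Fin n))).domRestrict
      (fun _ => u : Fin n → EuclideanSpace ℝ (Fin n))) := by
    constructor
    · intro i
      simpa using hu
    · intro i j hij
      exact absurd (Subsingleton.elim i j) hij
  obtain ⟨b, hb⟩ := hv.exists_orthonormalBasis_extension_of_card_eq (by simp)
  have hb0 : b i0 = u := hb i0 rfl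
  obtain ⟨c1, c2⟩ := coord i0 hf
  have hmp := b.measurePreserving_repr
  have hemb : MeasurableEmbedding b.repr := b.measurableEquiv.measurableEmbedding
  have e : (fun η : EuclideanSpace ℝ (Fin n) => gn η * f ⟪u, η⟫) =
      (fun η : EuclideanSpace ℝ (Fin n) => gn η * f (η i0)) ∘ b.repr := by
    funext η
    simp only [Function.comp_apply, b.repr_apply_apply, hb0]
    unfold gn
    rw [LinearIsometryEquiv.norm_map]
  rw [e]
  constructor
  · rw [hmp.integrable_comp_emb hemb]
    exact c1
  · rw [← c2]
    exact hmp.integral_comp hemb (fun η : EuclideanSpace ℝ (Fin n) => gn η * f (η i0))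

theorem gn_sq (n : ℕ) : Integrable (fun η : EuclideanSpace ℝ (Fin n) => gn η * ‖η‖ ^ 2) ∧
    ∫ η : EuclideanSpace ℝ (Fin n), gn η * ‖η‖ ^ 2 = n := by
  have e : (fun η : EuclideanSpace ℝ (Fin n) => gn η * ‖η‖ ^ 2) =
      fun η : EuclideanSpace ℝ (Fin n) => ∑ i, gn η * (η i) ^ 2 := by
    funext η
    rw [EuclideanSpace.norm_sq_eq, Finset.mul_sum]
    refine Finset.sum_congr rfl (fun i _ => ?_)
    rw [Real.norm_eq_abs, sq_abs]
  have hc : ∀ i : Fin n, Integrable (fun η : EuclideanSpace ℝ (Fin n) => gn η * (η i) ^ 2) ∧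
      ∫ η : EuclideanSpace ℝ (Fin n), gn η * (η i) ^ 2 = 1 := by
    intro i
    obtain ⟨h1, h2⟩ := coord i (f := fun s => s ^ 2) gd_sq'.1
    exact ⟨h1, h2.trans gd_sq'.2⟩
  rw [e]
  constructor
  · exact integrable_finset_sum _ (fun i _ => (hc i).1)
  · have h := integral_finset_sum (μ := (volume : Measure (EuclideanSpace ℝ (Fin n))))
      Finset.univ (f := fun (i : Fin n) (η : EuclideanSpace ℝ (Fin n)) => gn η * (η i) ^ 2)
      (fun i _ => (hc i).1)
    rw [h]
    rw [Finset.sum_congr rfl (fun i _ => (hc i).2)]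
    simp

end SZ
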