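import Pool.Agent.H27.SZ.Tail
import Pool.Agent.H27.SZ.Marg

/-!
# Project SZ: the lower bound for one facet (SZ-4)
-/

set_option autoImplicit false

open MeasureTheory Metric Set Filter Module
open scoped Topology MeasureTheory RealInnerProductSpace Nat Pointwise

namespace SZ

open SP SP.Mea SX SY

private theorem ofReal_integral_le {α : Type} [MeasurableSpace α] {μ : Measure α} {f : α → ℝ}
    (hf : Integrable f μ) : ENNReal.ofReal (∫ x, f x ∂μ) ≤ ∫⁻ x, ENNReal.ofReal (f x) ∂μ := by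
  rw [integral_eq_lintegral_pos_part_sub_lintegral_neg_part hf]
  refine le_trans (ENNReal.ofReal_le_ofReal (sub_le_self _ ENNReal.toReal_nonneg)) ?_
  exact ENNReal.ofReal_toReal_le

private theorem gd_eq (s : ℝ) : gd s = Real.exp (-(s ^ 2 / 2)) / Real.sqrt (2 * Real.pi) := rfl

/-- the integrand divided by the constant and the normal density is `exp X` with `X` of mean zero;
`exp X ≥ 1 + X` -/
theorem key {k n : ℕ} (hn : 1 ≤ n) (q : Fin k → EuclideanSpace ℝ (Fin n)) (hq : ∀ i, q i ≠ 0)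
    (γ : Fin k → ℝ) (hγ : ∀ i, γ i = n * ‖q i‖ / ∑ l, ‖q l‖) (T : Finset (Fin k))
    (hT : T.card = n) :
    ENNReal.ofReal ((n / ∑ l, ‖q l‖) ^ n) ≤
      ∫⁻ η : EuclideanSpace ℝ (Fin n), (∏ i ∈ T, ENNReal.ofReal (rho ‖q i‖ (γ i) ⟪q i, η⟫)) *
        ∏ i ∈ Tᶜ, ENNReal.ofReal (gt (⟪q i, η⟫ / ‖q i‖) ^ γ i) := by
  classical
  have hqn : ∀ i, 0 < ‖q i‖ := fun i => norm_pos_iff.2 (hq i)
  set L : ℝ := ∑ l, ‖q l‖ with hL
  have hLpos : 0 < L := by
    obtain ⟨i, hi⟩ : T.Nonempty := by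
      rw [← Finset.card_pos]
      omega
    exact Finset.sum_pos (fun j _ => hqn j) ⟨i, Finset.mem_univ i⟩
  have hgn : ∀ i, γ i / ‖q i‖ = n / L := by
    intro i
    rw [hγ i]
    have := (hqn i).ne'
    field_simp
  have hsum : ∑ i, γ i = n := by
    simp only [hγ]
    rw [← Finset.sum_div, ← Finset.mul_sum, mul_div_assoc, div_self hLpos.ne', mul_one]
  -- unit vectors
  let u : Fin k → EuclideanSpace ℝ (Fin n) := fun i => (‖q i‖)⁻¹ • q i
  have hu : ∀ i, ‖u i‖ = 1 := by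
    intro i
    simp only [u]
    rw [norm_smul, norm_inv, norm_norm, inv_mul_cancel₀ (hqn i).ne']
  have hs : ∀ i η, ⟪q i, η⟫ / ‖q i‖ = ⟪u i, η⟫ := by
    intro i η
    simp only [u]
    rw [real_inner_smul_left, div_eq_inv_mul]
  -- the integrals
  have hA : ∀ i, Integrable (fun η : EuclideanSpace ℝ (Fin n) => gn η * ⟪u i, η⟫ ^ 2) ∧
      ∫ η : EuclideanSpace ℝ (Fin n), gn η * ⟪u i, η⟫ ^ 2 = 1 := by
    intro i
    have h := gn_marg (u i) (hu i) (f := fun s => s ^ 2) gd_sq.1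
    rw [gd_sq.2] at h
    exact h
  have hB : ∀ i, Integrable (fun η : EuclideanSpace ℝ (Fin n) => gn η * Real.log (gt ⟪u i, η⟫)) ∧
      ∫ η : EuclideanSpace ℝ (Fin n), gn η * Real.log (gt ⟪u i, η⟫) = -1 := by
    intro i
    have h := gn_marg (u i) (hu i) (f := fun s => Real.log (gt s)) gt_log.1
    rw [gt_log.2] at h
    exact h
  -- the exponent
  let X : EuclideanSpace ℝ (Fin n) → ℝ := fun η => ‖η‖ ^ 2 / 2 - (∑ i ∈ T, ⟪u i, η⟫ ^ 2) / 2 -
    (∑ i ∈ T, Real.log (gt ⟪u i, η⟫)) + ∑ i, γ i * Real.log (gt ⟪u i, η⟫)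
  let h : EuclideanSpace ℝ (Fin n) → ℝ := fun η => (n / L) ^ n * (gn η * (1 + X η))
  have hexp : ∀ η, h η = (n / L) ^ n * (gn η + 1 / 2 * (gn η * ‖η‖ ^ 2) -
      1 / 2 * (∑ i ∈ T, gn η * ⟪u i, η⟫ ^ 2) - (∑ i ∈ T, gn η * Real.log (gt ⟪u i, η⟫)) +
      ∑ i, γ i * (gn η * Real.log (gt ⟪u i, η⟫))) := by
    intro η
    have e1 : ∑ i, γ i * (gn η * Real.log (gt ⟪u i, η⟫)) =
        gn η * ∑ i, γ i * Real.log (gt ⟪u i, η⟫) := by
      rw [Finset.mul_sum]
      exact Finset.sum_congr rfl fun i _ => by ring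
    simp only [h, X]
    rw [← Finset.mul_sum, ← Finset.mul_sum, e1]
    ring
  have i1 := (gn_int n).1
  have i2 := (gn_sq n).1.const_mul (1 / 2)
  have i3 : Integrable (fun η : EuclideanSpace ℝ (Fin n) =>
      1 / 2 * (∑ i ∈ T, gn η * ⟪u i, η⟫ ^ 2)) :=
    (integrable_finset_sum T fun i _ => (hA i).1).const_mul _
  have i4 : Integrable (fun η : EuclideanSpace ℝ (Fin n) =>
      ∑ i ∈ T, gn η * Real.log (gt ⟪u i, η⟫)) :=
    integrable_finset_sum T fun i _ => (hB i).1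
  have i5 : Integrable (fun η : EuclideanSpace ℝ (Fin n) =>
      ∑ i, γ i * (gn η * Real.log (gt ⟪u i, η⟫))) :=
    integrable_finset_sum _ fun i _ => ((hB i).1.const_mul (γ i))
  have hfun : h = fun η => (n / L) ^ n * (gn η + 1 / 2 * (gn η * ‖η‖ ^ 2) -
      1 / 2 * (∑ i ∈ T, gn η * ⟪u i, η⟫ ^ 2) - (∑ i ∈ T, gn η * Real.log (gt ⟪u i, η⟫)) +
      ∑ i, γ i * (gn η * Real.log (gt ⟪u i, η⟫))) := funext hexp
  have hint : Integrable h := by
    rw [hfun]
    exact ((((i1.add i2).sub i3).sub i4).add i5).const_mul _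
  have hval : ∫ η, h η = (n / L) ^ n := by
    have e1 : ∫ η : EuclideanSpace ℝ (Fin n), 1 / 2 * (∑ i ∈ T, gn η * ⟪u i, η⟫ ^ 2) =
        1 / 2 * (n : ℝ) := by
      rw [integral_const_mul, integral_finset_sum T fun i _ => (hA i).1,
        Finset.sum_congr rfl fun i _ => (hA i).2]
      simp [hT]
    have e2 : ∫ η : EuclideanSpace ℝ (Fin n), ∑ i ∈ T, gn η * Real.log (gt ⟪u i, η⟫) = -n := by
      rw [integral_finset_sum T fun i _ => (hB i).1, Finset.sum_congr rfl fun i _ => (hB i).2]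
      simp [hT]
    have e3 : ∫ η : EuclideanSpace ℝ (Fin n), ∑ i, γ i * (gn η * Real.log (gt ⟪u i, η⟫)) = -n := by
      rw [integral_finset_sum _ fun i _ => ((hB i).1.const_mul (γ i)), ← hsum,
        ← Finset.sum_neg_distrib]
      refine Finset.sum_congr rfl fun i _ => ?_
      rw [integral_const_mul, (hB i).2]
      ring
    have e4 : ∫ η : EuclideanSpace ℝ (Fin n), 1 / 2 * (gn η * ‖η‖ ^ 2) =
        1 / 2 * (n : ℝ) := by
      rw [integral_const_mul, (gn_sq n).2]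
    have j1 : Integrable (fun η : EuclideanSpace ℝ (Fin n) =>
        gn η + 1 / 2 * (gn η * ‖η‖ ^ 2)) := i1.add i2
    have j2 : Integrable (fun η : EuclideanSpace ℝ (Fin n) =>
        gn η + 1 / 2 * (gn η * ‖η‖ ^ 2) - 1 / 2 * (∑ i ∈ T, gn η * ⟪u i, η⟫ ^ 2)) := j1.sub i3
    have j3 : Integrable (fun η : EuclideanSpace ℝ (Fin n) =>
        gn η + 1 / 2 * (gn η * ‖η‖ ^ 2) - 1 / 2 * (∑ i ∈ T, gn η * ⟪u i, η⟫ ^ 2) -
          (∑ i ∈ T, gn η * Real.log (gt ⟪u i, η⟫))) := j2.sub i4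
    rw [hfun, integral_const_mul, integral_add j3 i5, integral_sub j2 i4, integral_sub j1 i3,
      integral_add i1 i2, (gn_int n).2, e1, e2, e3, e4]
    ring
  rw [← hval]
  refine (ofReal_integral_le hint).trans (lintegral_mono fun η => ?_)
  -- pointwise
  have hc0 : 0 ≤ (n / L : ℝ) := by positivity
  have hgt := gt_pos
  have hrho : ∀ i, rho ‖q i‖ (γ i) ⟪q i, η⟫ =
      n / L * (Real.exp ((γ i - 1) * Real.log (gt ⟪u i, η⟫)) * gd ⟪u i, η⟫) := by
    intro i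
    unfold rho
    rw [hgn i, hs i η, Real.rpow_def_of_pos (hgt _), mul_comm (Real.log _), mul_assoc]
  have hgt2 : ∀ i, gt (⟪q i, η⟫ / ‖q i‖) ^ γ i =
      Real.exp (γ i * Real.log (gt ⟪u i, η⟫)) := by
    intro i
    rw [hs i η, Real.rpow_def_of_pos (hgt _), mul_comm (Real.log _)]
  have hgd : ∀ s, 0 ≤ gd s := fun s => by
    rw [gd_eq]
    positivity
  have hprod : (∏ i ∈ T, ENNReal.ofReal (rho ‖q i‖ (γ i) ⟪q i, η⟫)) *
      ∏ i ∈ Tᶜ, ENNReal.ofReal (gt (⟪q i, η⟫ / ‖q i‖) ^ γ i) =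
      ENNReal.ofReal ((n / L) ^ n * (gn η * Real.exp (X η))) := by
    rw [← ENNReal.ofReal_prod_of_nonneg, ← ENNReal.ofReal_prod_of_nonneg,
      ← ENNReal.ofReal_mul]
    · congr 1
      simp only [hrho, hgt2]
      rw [Finset.prod_mul_distrib, Finset.prod_const, hT, mul_assoc]
      congr 1
      rw [Finset.prod_mul_distrib, ← Real.exp_sum, ← Real.exp_sum]
      have e1 : ∏ i ∈ T, gd ⟪u i, η⟫ =
          Real.exp (-((∑ i ∈ T, ⟪u i, η⟫ ^ 2) / 2)) / Real.sqrt (2 * Real.pi) ^ n := by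
        simp only [gd_eq]
        rw [Finset.prod_div_distrib, Finset.prod_const, hT, ← Real.exp_sum,
          Finset.sum_neg_distrib, Finset.sum_div]
      rw [e1]
      unfold gn
      have e2 : X η = ‖η‖ ^ 2 / 2 + (-((∑ i ∈ T, ⟪u i, η⟫ ^ 2) / 2)) +
          (∑ i ∈ T, (γ i - 1) * Real.log (gt ⟪u i, η⟫)) +
          ∑ i ∈ Tᶜ, γ i * Real.log (gt ⟪u i, η⟫) := by
        simp only [X]
        rw [← Finset.sum_add_sum_compl T (fun i => γ i * Real.log (gt ⟪u i, η⟫))]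
        have e3 : ∑ i ∈ T, (γ i - 1) * Real.log (gt ⟪u i, η⟫) =
            (∑ i ∈ T, γ i * Real.log (gt ⟪u i, η⟫)) - ∑ i ∈ T, Real.log (gt ⟪u i, η⟫) := by
          rw [← Finset.sum_sub_distrib]
          exact Finset.sum_congr rfl fun i _ => by ring
        rw [e3]
        ring
      rw [e2, Real.exp_add, Real.exp_add, Real.exp_add, Real.exp_neg (‖η‖ ^ 2 / 2)]
      have e4 := Real.exp_pos (‖η‖ ^ 2 / 2)
      field_simp
    · refine Finset.prod_nonneg fun i _ => ?_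
      rw [hrho]
      have := hgd ⟪u i, η⟫
      positivity
    · intro i _
      rw [hgt2]
      positivity
    · intro i _
      rw [hrho]
      have := hgd ⟪u i, η⟫
      positivity
  rw [hprod]
  refine ENNReal.ofReal_le_ofReal ?_
  simp only [h]
  refine mul_le_mul_of_nonneg_left (mul_le_mul_of_nonneg_left ?_ ?_) (by positivity)
  · have := Real.add_one_le_exp (X η)
    linarith
  · unfold gn
    positivity

end SZ
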