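import Pool.Agent.H27.SZ.Defs

/-!
# SZ-1: the normal distribution on the line
-/

set_option autoImplicit false

open MeasureTheory Metric Set Filter Module
open scoped Topology MeasureTheory RealInnerProductSpace Nat Pointwise

namespace SZ

open SP SP.Mea SX SY

private theorem gd_eq : gd = ProbabilityTheory.gaussianPDFReal 0 1 := by
  funext s
  simp only [gd, ProbabilityTheory.gaussianPDFReal, sub_zero, NNReal.coe_one, mul_one]
  rw [div_eq_inv_mul]
  congr 2
  ring

theorem gd_int : Integrable gd ∧ ∫ s, gd s = 1 := by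
  rw [gd_eq]
  exact ⟨ProbabilityTheory.integrable_gaussianPDFReal 0 1,
    ProbabilityTheory.integral_gaussianPDFReal_eq_one 0 one_ne_zero⟩

private theorem gd_pos (s : ℝ) : 0 < gd s := by
  unfold gd
  positivity

private theorem gd_cont : Continuous gd := by
  unfold gd
  fun_prop

private theorem gd_exp (s : ℝ) : gd s = Real.exp (-(1 / 2) * s ^ 2) / Real.sqrt (2 * Real.pi) := by
  unfold gd
  congr 2
  ring

private theorem gd_deriv (s : ℝ) : HasDerivAt gd (-(s * gd s)) s := by
  have h1 : HasDerivAt (fun s : ℝ => -(s ^ 2 / 2)) (-s) s := by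
    have := ((hasDerivAt_pow 2 s).div_const 2).neg
    refine this.congr_deriv ?_
    simp
  have h2 := (h1.exp).div_const (Real.sqrt (2 * Real.pi))
  refine h2.congr_deriv ?_
  unfold gd
  ring

theorem gd_sq : Integrable (fun s => gd s * s ^ 2) ∧ ∫ s, gd s * s ^ 2 = 1 := by
  have hi2 : Integrable (fun s => gd s * s ^ 2) := by
    have h := integrable_rpow_mul_exp_neg_mul_sq (b := 1 / 2) (by norm_num) (s := 2) (by norm_num)
    have h' := h.div_const (Real.sqrt (2 * Real.pi))
    refine h'.congr (ae_of_all _ fun s => ?_)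
    simp only [gd_exp]
    rw [Real.rpow_two]
    ring
  have hi1 : Integrable (fun s => s * gd s) := by
    have h := integrable_mul_exp_neg_mul_sq (b := 1 / 2) (by norm_num)
    have h' := h.div_const (Real.sqrt (2 * Real.pi))
    refine h'.congr (ae_of_all _ fun s => ?_)
    simp only [gd_exp]
    ring
  refine ⟨hi2, ?_⟩
  have hd : ∀ s, HasDerivAt (fun s => s * gd s) (gd s - gd s * s ^ 2) s := fun s => by
    have := (hasDerivAt_id s).mul (gd_deriv s)
    refine this.congr_deriv ?_
    simp only [id]
    ring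
  have h0 := integral_eq_zero_of_hasDerivAt_of_integrable hd (gd_int.1.sub hi2) hi1
  rw [integral_sub gd_int.1 hi2, gd_int.2] at h0
  linarith

theorem gt_pos (s : ℝ) : 0 < gt s := by
  unfold gt
  rw [setIntegral_pos_iff_support_of_nonneg_ae (ae_of_all _ fun x => (gd_pos x).le)
    gd_int.1.integrableOn]
  have : Function.support gd ∩ Ioi s = Ioi s := by
    rw [Set.inter_eq_right]
    intro x _
    exact (gd_pos x).ne'
  rw [this]
  simp

theorem gt_le_one (s : ℝ) : gt s ≤ 1 := by
  unfold gt
  rw [← gd_int.2]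
  exact setIntegral_le_integral gd_int.1 (ae_of_all _ fun x => (gd_pos x).le)

private theorem gt_eq (s : ℝ) : gt s = gt 0 - ∫ x in (0 : ℝ)..s, gd x := by
  have := intervalIntegral.integral_interval_add_Ioi (gd_int.1.integrableOn (s := Ioi (0 : ℝ)))
    (gd_int.1.integrableOn (s := Ioi s))
  unfold gt
  linarith

theorem gt_deriv (s : ℝ) : HasDerivAt gt (-(gd s)) s := by
  have h : gt = fun s => gt 0 - ∫ x in (0 : ℝ)..s, gd x := funext gt_eq
  rw [h]
  have h1 : HasDerivAt (fun s : ℝ => ∫ x in (0 : ℝ)..s, gd x) (gd s) s :=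
    intervalIntegral.integral_hasDerivAt_right (gd_cont.intervalIntegrable _ _)
      (gd_cont.stronglyMeasurableAtFilter _ _) gd_cont.continuousAt
  simpa using h1.const_sub (gt 0)

theorem gt_top : Tendsto gt atTop (𝓝 0) := by
  have h : gt = fun s => gt 0 - ∫ x in (0 : ℝ)..s, gd x := funext gt_eq
  have h1 : Tendsto (fun s : ℝ => ∫ x in (0 : ℝ)..s, gd x) atTop (𝓝 (gt 0)) :=
    intervalIntegral_tendsto_integral_Ioi 0 gd_int.1.integrableOn tendsto_id
  have h2 := (tendsto_const_nhds (x := gt 0) (f := atTop)).sub h1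
  rw [sub_self] at h2
  rw [h]
  exact h2

theorem gt_bot : Tendsto gt atBot (𝓝 1) := by
  have h1 : Tendsto (fun s : ℝ => ∫ x in s..(0 : ℝ), gd x) atBot (𝓝 (∫ x in Iic (0 : ℝ), gd x)) :=
    intervalIntegral_tendsto_integral_Iic 0 gd_int.1.integrableOn tendsto_id
  have h2 := h1.add (tendsto_const_nhds (x := gt 0) (f := atBot))
  have h3 : (∫ x in Iic (0 : ℝ), gd x) + gt 0 = 1 := by
    have h4 := setIntegral_union (μ := volume) (Iic_disjoint_Ioi (le_refl (0 : ℝ)))
      measurableSet_Ioi (gd_int.1.integrableOn (s := Iic (0 : ℝ)))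
      (gd_int.1.integrableOn (s := Ioi (0 : ℝ)))
    rw [Set.Iic_union_Ioi, setIntegral_univ, gd_int.2] at h4
    unfold gt
    exact h4.symm
  rw [h3] at h2
  refine h2.congr fun s => ?_
  rw [gt_eq s, intervalIntegral.integral_symm]
  ring

theorem gt_log : Integrable (fun s => gd s * Real.log (gt s)) ∧
    ∫ s, gd s * Real.log (gt s) = -1 := by
  set F : ℝ → ℝ := fun s => gt s * Real.log (gt s) - gt s with hF
  set f : ℝ → ℝ := fun s => -(gd s * Real.log (gt s)) with hf
  have hd : ∀ s, HasDerivAt F (f s) s := fun s => by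
    have h1 := gt_deriv s
    have h2 := (h1.mul (h1.log (gt_pos s).ne')).sub h1
    refine h2.congr_deriv ?_
    have := (gt_pos s).ne'
    simp only [hf]
    field_simp
    ring
  have hgc : Continuous gt := continuous_iff_continuousAt.2 fun s => (gt_deriv s).continuousAt
  have hfc : Continuous f := (gd_cont.mul (hgc.log fun s => (gt_pos s).ne')).neg
  have hnn : ∀ s, 0 ≤ f s := fun s => by
    have := Real.log_nonpos (gt_pos s).le (gt_le_one s)
    simp only [hf]
    nlinarith [gd_pos s]
  have hFc : Continuous (fun x : ℝ => x * Real.log x - x) := Real.continuous_mul_log.sub continuous_id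
  have htop : Tendsto F atTop (𝓝 0) := by
    have := (hFc.tendsto 0).comp gt_top
    simpa [hF, Function.comp_def] using this
  have hbot : Tendsto F atBot (𝓝 (-1)) := by
    have := (hFc.tendsto 1).comp gt_bot
    simpa [hF, Function.comp_def] using this
  have hint : Integrable f := by
    refine integrable_of_intervalIntegral_norm_tendsto (l := atTop) (a := fun n : ℕ => -(n : ℝ))
      (b := fun n : ℕ => (n : ℝ)) 1 (fun n => ?_) ?_ tendsto_natCast_atTop_atTop ?_
    · exact hfc.integrableOn_Ioc
    · exact tendsto_neg_atTop_atBot.comp tendsto_natCast_atTop_atTop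
    · have h1 : ∀ n : ℕ, ∫ x in (-(n : ℝ))..(n : ℝ), ‖f x‖ = F n - F (-n) := fun n => by
        have : ∀ x, ‖f x‖ = f x := fun x => Real.norm_of_nonneg (hnn x)
        simp only [this]
        exact intervalIntegral.integral_eq_sub_of_hasDerivAt (fun x _ => hd x)
          (hfc.intervalIntegrable _ _)
      simp only [h1]
      have h2 := (htop.comp tendsto_natCast_atTop_atTop).sub
        (hbot.comp (tendsto_neg_atTop_atBot.comp tendsto_natCast_atTop_atTop))
      have h3 : (0 : ℝ) - -1 = 1 := by norm_num
      rw [h3] at h2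
      exact h2
  have hval := integral_of_hasDerivAt_of_tendsto hd hint hbot htop
  have hf2 : (fun s => gd s * Real.log (gt s)) = fun s => -(f s) := by
    funext s
    simp [hf]
  rw [hf2]
  refine ⟨hint.neg, ?_⟩
  rw [integral_neg, hval]
  norm_num

end SZ
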