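import Pool.Agent.H27.SZ.Defs
import Pool.Agent.H27.SZ.Tail

/-!
# Project SZ: the law of the costs (row SZ-2)
-/

set_option autoImplicit false

open MeasureTheory Metric Set Filter Module
open scoped Topology MeasureTheory

namespace SZ

theorem law_gd_nonneg (s : ℝ) : 0 ≤ gd s := by unfold gd; positivity

theorem law_gd_cont : Continuous gd := by unfold gd; fun_prop

theorem law_gt_cont : Continuous gt := continuous_iff_continuousAt.2 fun s => (gt_deriv s).continuousAt

theorem rho_meas (c γ : ℝ) : Measurable (rho c γ) := by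
  have h3 : Measurable (fun u : ℝ => gt (u / c)) :=
    (law_gt_cont.comp (continuous_id.div_const c)).measurable
  have h4 : Measurable (fun u : ℝ => gd (u / c)) :=
    (law_gd_cont.comp (continuous_id.div_const c)).measurable
  exact ((h3.pow_const (γ - 1)).const_mul (γ / c)).mul h4

theorem law_rho_nonneg {c γ : ℝ} (hc : 0 < c) (hγ : 0 < γ) (u : ℝ) : 0 ≤ rho c γ u := by
  have h1 := gt_pos (u / c)
  have h2 := law_gd_nonneg (u / c)
  unfold rho
  positivity

theorem law_rho_deriv {c γ : ℝ} (u l : ℝ) :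
    HasDerivAt (fun l : ℝ => -(gt ((l + u) / c) ^ γ)) (rho c γ (l + u)) l := by
  have h1 : HasDerivAt (fun l : ℝ => (l + u) / c) (1 / c) l :=
    ((hasDerivAt_id l).add_const u).div_const c
  have h2 : HasDerivAt (fun l : ℝ => gt ((l + u) / c)) (-(gd ((l + u) / c)) * (1 / c)) l :=
    HasDerivAt.comp (h := fun l : ℝ => (l + u) / c) l (gt_deriv ((l + u) / c)) h1
  have h3 := (h2.rpow_const (p := γ) (Or.inl (gt_pos _).ne')).neg
  refine h3.congr_deriv ?_
  unfold rho
  ring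

theorem law_rho_top {c γ : ℝ} (hc : 0 < c) (hγ : 0 < γ) (u : ℝ) :
    Tendsto (fun l : ℝ => -(gt ((l + u) / c) ^ γ)) atTop (𝓝 0) := by
  have h1 : Tendsto (fun l : ℝ => (l + u) / c) atTop atTop :=
    (tendsto_id.atTop_add tendsto_const_nhds).atTop_div_const hc
  have h2 : Tendsto (fun l : ℝ => gt ((l + u) / c) ^ γ) atTop (𝓝 (0 ^ γ)) :=
    (gt_top.comp h1).rpow_const (Or.inr hγ.le)
  rw [Real.zero_rpow hγ.ne'] at h2
  simpa using h2.neg

theorem rho_tail {c γ : ℝ} (hc : 0 < c) (hγ : 0 < γ) (u : ℝ) :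
    ∫⁻ l in Ioi (0 : ℝ), ENNReal.ofReal (rho c γ (l + u)) = ENNReal.ofReal (gt (u / c) ^ γ) := by
  have h1 := integrableOn_Ioi_deriv_of_nonneg' (a := 0) (fun l _ => law_rho_deriv (c := c) (γ := γ) u l)
    (fun l _ => law_rho_nonneg hc hγ (l + u)) (law_rho_top hc hγ u)
  have h2 := integral_Ioi_of_hasDerivAt_of_nonneg' (a := 0)
    (fun l _ => law_rho_deriv (c := c) (γ := γ) u l)
    (fun l _ => law_rho_nonneg hc hγ (l + u)) (law_rho_top hc hγ u)
  rw [← ofReal_integral_eq_lintegral_ofReal h1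
    (Eventually.of_forall fun l => law_rho_nonneg hc hγ (l + u)), h2]
  congr 1
  rw [zero_add]; ring

theorem rho_total {c γ : ℝ} (hc : 0 < c) (hγ : 0 < γ) :
    ∫⁻ u, ENNReal.ofReal (rho c γ u) = 1 := by
  have hs : ∀ u : ℝ, ∫⁻ x in Ioi u, ENNReal.ofReal (rho c γ x) =
      ENNReal.ofReal (gt (u / c) ^ γ) := by
    intro u
    rw [← rho_tail hc hγ u, ← lintegral_indicator measurableSet_Ioi,
      ← lintegral_indicator measurableSet_Ioi,
      ← lintegral_add_right_eq_self ((Ioi u).indicator fun x => ENNReal.ofReal (rho c γ x)) u]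
    refine lintegral_congr fun l => ?_
    simp only [indicator, mem_Ioi]
    congr 1
    exact propext (lt_add_iff_pos_left u)
  have hm : Monotone (fun n : ℕ => Ioi (-(n : ℝ))) := fun a b hab =>
    Ioi_subset_Ioi (neg_le_neg (by exact_mod_cast hab))
  have hu : (⋃ n : ℕ, Ioi (-(n : ℝ))) = univ := by
    ext x
    simp only [mem_iUnion, mem_Ioi, mem_univ, iff_true]
    obtain ⟨n, hn⟩ := exists_nat_gt (-x)
    exact ⟨n, by linarith⟩
  have h1 : ∫⁻ u, ENNReal.ofReal (rho c γ u) =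
      ⨆ n : ℕ, ∫⁻ u in Ioi (-(n : ℝ)), ENNReal.ofReal (rho c γ u) := by
    rw [← setLIntegral_univ, ← hu, setLIntegral_iUnion_of_directed _ hm.directed_le]
  have h2 : Tendsto (fun n : ℕ => ∫⁻ u in Ioi (-(n : ℝ)), ENNReal.ofReal (rho c γ u)) atTop
      (𝓝 (⨆ n : ℕ, ∫⁻ u in Ioi (-(n : ℝ)), ENNReal.ofReal (rho c γ u))) :=
    tendsto_atTop_iSup fun a b hab => lintegral_mono_set (hm hab)
  have h3 : Tendsto (fun n : ℕ => ∫⁻ u in Ioi (-(n : ℝ)), ENNReal.ofReal (rho c γ u)) atTop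
      (𝓝 1) := by
    simp_rw [hs]
    have h4 : Tendsto (fun n : ℕ => -(n : ℝ) / c) atTop atBot :=
      (tendsto_neg_atTop_atBot.comp tendsto_natCast_atTop_atTop).atBot_div_const hc
    have h5 : Tendsto (fun n : ℕ => gt (-(n : ℝ) / c) ^ γ) atTop (𝓝 (1 ^ γ)) :=
      (gt_bot.comp h4).rpow_const (Or.inl one_ne_zero)
    rw [Real.one_rpow] at h5
    simpa using ENNReal.tendsto_ofReal h5
  rw [h1]
  exact tendsto_nhds_unique h2 h3

end SZ
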