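import Pool.Agent.H27.SZ.Defs

/-!
# SZ-6: the change of variables
-/

set_option autoImplicit false

open MeasureTheory Metric Set Filter Module
open scoped Topology MeasureTheory RealInnerProductSpace Nat Pointwise

namespace SZ

open SP SP.Mea SX SY

namespace SplitAux

/-- Tonelli for a product of functions of one variable -/
theorem lint_pi {n : ℕ} (μ : Fin n → Measure ℝ) [∀ i, SigmaFinite (μ i)]
    (f : Fin n → ℝ → ENNReal) (hf : ∀ i, Measurable (f i)) :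
    ∫⁻ x : Fin n → ℝ, ∏ i, f i (x i) ∂(Measure.pi μ) = ∏ i, ∫⁻ t, f i t ∂(μ i) := by
  induction n with
  | zero => simp
  | succ n ih =>
    have hm := (measurePreserving_piFinSuccAbove μ 0).symm
    calc _ = ∫⁻ x : ℝ × (Fin n → ℝ), f 0 x.1 * ∏ i : Fin n, f (Fin.succ i) (x.2 i)
            ∂((μ 0).prod (Measure.pi (fun i ↦ μ i.succ))) := by
          rw [← hm.lintegral_comp_emb (MeasurableEquiv.measurableEmbedding _)]
          refine lintegral_congr fun x => ?_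
          rw [Fin.prod_univ_succ]
          rfl
      _ = (∫⁻ x, f 0 x ∂μ 0) * ∏ i : Fin n, ∫⁻ x, f (Fin.succ i) x ∂(μ i.succ) := by
          rw [← ih (fun i : Fin n => μ i.succ) (fun i : Fin n => f i.succ) (fun i => hf _)]
          exact lintegral_prod_mul (hf 0).aemeasurable
            (Finset.measurable_prod _ (fun (i : Fin n) _ =>
              (hf i.succ).comp (measurable_pi_apply i))).aemeasurable
      _ = _ := by rw [Fin.prod_univ_succ]

section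

variable {k d n : ℕ} (p : Fin k → EuclideanSpace ℝ (Fin d)) (q : Fin k → EuclideanSpace ℝ (Fin n))

/-- the linear map `(y, η) ↦ (⟪p i, y⟫ + ⟪q i, η⟫)_i` -/
noncomputable def th0 :
    WithLp 2 (EuclideanSpace ℝ (Fin d) × EuclideanSpace ℝ (Fin n)) →ₗ[ℝ]
      EuclideanSpace ℝ (Fin k) where
  toFun x := WithLp.toLp 2 (fun i => ⟪p i, x.fst⟫ + ⟪q i, x.snd⟫)
  map_add' x y := by
    ext i
    simp only [WithLp.add_fst, WithLp.add_snd, inner_add_right, PiLp.add_apply]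
    ring
  map_smul' c x := by
    ext i
    simp only [WithLp.smul_fst, WithLp.smul_snd, inner_smul_right, PiLp.smul_apply,
      RingHom.id_apply, smul_eq_mul]
    ring

theorem norm_th0 (h1 : ∀ y, ∑ i, ⟪p i, y⟫ ^ 2 = ‖y‖ ^ 2)
    (h2 : ∀ η, ∑ i, ⟪q i, η⟫ ^ 2 = ‖η‖ ^ 2) (h3 : ∀ η, ∑ i, ⟪q i, η⟫ • p i = 0)
    (x : WithLp 2 (EuclideanSpace ℝ (Fin d) × EuclideanSpace ℝ (Fin n))) :
    ‖th0 p q x‖ = ‖x‖ := by
  rw [← sq_eq_sq₀ (norm_nonneg _) (norm_nonneg _), EuclideanSpace.norm_sq_eq,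
    WithLp.prod_norm_sq_eq_of_L2, ← h1, ← h2, ← Finset.sum_add_distrib]
  have h4 : ∑ i, ⟪p i, x.fst⟫ * ⟪q i, x.snd⟫ = 0 := by
    have h5 := congrArg (fun v => ⟪v, x.fst⟫) (h3 x.snd)
    simp only [sum_inner, inner_zero_left, real_inner_smul_left] at h5
    rw [← h5]
    exact Finset.sum_congr rfl fun i _ => mul_comm _ _
  have h6 : ∑ i, ‖(th0 p q x) i‖ ^ 2 = ∑ i, (⟪p i, x.fst⟫ ^ 2 + ⟪q i, x.snd⟫ ^ 2) +
      2 * ∑ i, ⟪p i, x.fst⟫ * ⟪q i, x.snd⟫ := by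
    rw [Finset.mul_sum, ← Finset.sum_add_distrib]
    refine Finset.sum_congr rfl fun i _ => ?_
    have : (th0 p q x) i = ⟪p i, x.fst⟫ + ⟪q i, x.snd⟫ := rfl
    rw [this, Real.norm_eq_abs, sq_abs]
    ring
  rw [h6, h4]
  ring

/-- the isometry -/
noncomputable def th (hk : k = d + n) (h1 : ∀ y, ∑ i, ⟪p i, y⟫ ^ 2 = ‖y‖ ^ 2)
    (h2 : ∀ η, ∑ i, ⟪q i, η⟫ ^ 2 = ‖η‖ ^ 2) (h3 : ∀ η, ∑ i, ⟪q i, η⟫ • p i = 0) :
    WithLp 2 (EuclideanSpace ℝ (Fin d) × EuclideanSpace ℝ (Fin n)) ≃ₗᵢ[ℝ]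
      EuclideanSpace ℝ (Fin k) :=
  LinearIsometry.toLinearIsometryEquiv ⟨th0 p q, norm_th0 p q h1 h2 h3⟩ (by
    have e : finrank ℝ (WithLp 2 (EuclideanSpace ℝ (Fin d) × EuclideanSpace ℝ (Fin n))) =
        finrank ℝ (EuclideanSpace ℝ (Fin d) × EuclideanSpace ℝ (Fin n)) :=
      (WithLp.linearEquiv 2 ℝ (EuclideanSpace ℝ (Fin d) × EuclideanSpace ℝ (Fin n))).finrank_eq
    rw [e, Module.finrank_prod]
    simp [hk])

theorem th_apply (hk : k = d + n) (h1 : ∀ y, ∑ i, ⟪p i, y⟫ ^ 2 = ‖y‖ ^ 2)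
    (h2 : ∀ η, ∑ i, ⟪q i, η⟫ ^ 2 = ‖η‖ ^ 2) (h3 : ∀ η, ∑ i, ⟪q i, η⟫ • p i = 0)
    (x : WithLp 2 (EuclideanSpace ℝ (Fin d) × EuclideanSpace ℝ (Fin n))) (i : Fin k) :
    (th p q hk h1 h2 h3 x) i = ⟪p i, x.fst⟫ + ⟪q i, x.snd⟫ := rfl

theorem pol (h1 : ∀ y, ∑ i, ⟪p i, y⟫ ^ 2 = ‖y‖ ^ 2) (y : EuclideanSpace ℝ (Fin d)) :
    ∑ i, ⟪p i, y⟫ • p i = y := by
  refine ext_inner_right ℝ fun z => ?_
  rw [sum_inner]
  simp only [real_inner_smul_left]
  have h4 := h1 (y + z)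
  have h5 := h1 (y - z)
  rw [← sub_eq_zero]
  have e1 : ‖y + z‖ ^ 2 - ‖y - z‖ ^ 2 = 4 * ⟪y, z⟫ := by
    rw [norm_add_sq_real, norm_sub_sq_real]; ring
  have e2 : ∑ i, ⟪p i, y + z⟫ ^ 2 - ∑ i, ⟪p i, y - z⟫ ^ 2 = 4 * ∑ i, ⟪p i, y⟫ * ⟪p i, z⟫ := by
    rw [← Finset.sum_sub_distrib, Finset.mul_sum]
    refine Finset.sum_congr rfl fun i _ => ?_
    rw [inner_add_right, inner_sub_right]; ring
  linarith

theorem cross (h3 : ∀ η, ∑ i, ⟪q i, η⟫ • p i = 0) (y : EuclideanSpace ℝ (Fin d)) :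
    ∑ i, ⟪p i, y⟫ • q i = 0 := by
  refine ext_inner_right ℝ fun z => ?_
  rw [sum_inner, inner_zero_left]
  simp only [real_inner_smul_left]
  have h5 := congrArg (fun v => ⟪v, y⟫) (h3 z)
  simp only [sum_inner, inner_zero_left, real_inner_smul_left] at h5
  rw [← h5]
  exact Finset.sum_congr rfl fun i _ => mul_comm _ _

theorem repr (hk : k = d + n) (h1 : ∀ y, ∑ i, ⟪p i, y⟫ ^ 2 = ‖y‖ ^ 2)
    (h2 : ∀ η, ∑ i, ⟪q i, η⟫ ^ 2 = ‖η‖ ^ 2) (h3 : ∀ η, ∑ i, ⟪q i, η⟫ • p i = 0)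
    (c : Fin k → ℝ) (i : Fin k) :
    c i = ⟪p i, ∑ j, c j • p j⟫ + ⟪q i, ∑ j, c j • q j⟫ := by
  obtain ⟨x, hx⟩ := (th p q hk h1 h2 h3).surjective (WithLp.toLp 2 c)
  have hc : ∀ j, c j = ⟪p j, x.fst⟫ + ⟪q j, x.snd⟫ := fun j => by
    have := congrArg (fun v => v j) hx
    simp only [th_apply] at this
    exact this.symm
  have e1 : ∑ j, c j • p j = x.fst := by
    simp only [hc, add_smul, Finset.sum_add_distrib]
    rw [pol p h1, h3, add_zero]
  have e2 : ∑ j, c j • q j = x.snd := by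
    simp only [hc, add_smul, Finset.sum_add_distrib]
    rw [pol q h2, cross p q h3, zero_add]
  rw [e1, e2, hc]

/-- the map on the product -/
noncomputable def ph (z : EuclideanSpace ℝ (Fin d) × EuclideanSpace ℝ (Fin n)) : Fin k → ℝ :=
  fun i => ⟪p i, z.1⟫ + ⟪q i, z.2⟫

theorem ph_mp (hk : k = d + n) (h1 : ∀ y, ∑ i, ⟪p i, y⟫ ^ 2 = ‖y‖ ^ 2)
    (h2 : ∀ η, ∑ i, ⟪q i, η⟫ ^ 2 = ‖η‖ ^ 2) (h3 : ∀ η, ∑ i, ⟪q i, η⟫ • p i = 0) :
    MeasurePreserving (ph p q) := by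
  have e := ((PiLp.volume_preserving_ofLp (Fin k)).comp
    (th p q hk h1 h2 h3).measurePreserving).comp
      (WithLp.volume_preserving_toLp (EuclideanSpace ℝ (Fin d)) (EuclideanSpace ℝ (Fin n)))
  exact e

/-- the map `l ↦ ∑ l a • p (G a)` -/
noncomputable def pL (G : Fin d → Fin k) (l : Fin d → ℝ) : EuclideanSpace ℝ (Fin d) :=
  ∑ a, l a • p (G a)

theorem cG_eq (G : Fin d → Fin k) :
    cG p G = pL p G '' (univ.pi fun _ => Ioi (0 : ℝ)) := by
  ext y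
  constructor
  · rintro ⟨l, hl, rfl⟩
    exact ⟨l, by simpa [Set.mem_pi] using hl, rfl⟩
  · rintro ⟨l, hl, rfl⟩
    exact ⟨l, by simpa [Set.mem_pi] using hl, rfl⟩

theorem cG_pre (G : Fin d → Fin k) :
    (WithLp.ofLp : EuclideanSpace ℝ (Fin d) → (Fin d → ℝ)) '' cG p G =
      tL p G '' (univ.pi fun _ => Ioi (0 : ℝ)) := by
  rw [cG_eq, Set.image_image]
  rfl

theorem change (G : Fin d → Fin k) (hG2 : Function.Injective (tL p G))
    (h : EuclideanSpace ℝ (Fin d) → ENNReal) :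
    ∫⁻ y in cG p G, h y = ∫⁻ l in univ.pi (fun _ : Fin d => Ioi (0 : ℝ)),
      ENNReal.ofReal |LinearMap.det (tL p G)| * h (pL p G l) := by
  have hme : MeasurableEmbedding (WithLp.ofLp : EuclideanSpace ℝ (Fin d) → (Fin d → ℝ)) :=
    (MeasurableEquiv.toLp 2 (Fin d → ℝ)).symm.measurableEmbedding
  have e1 : ∫⁻ y in cG p G, h y =
      ∫⁻ y in (WithLp.ofLp : EuclideanSpace ℝ (Fin d) → (Fin d → ℝ)) '' cG p G,
        h (WithLp.toLp 2 y) := by
    rw [← (PiLp.volume_preserving_ofLp (Fin d)).setLIntegral_comp_emb hme]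
  rw [e1, cG_pre]
  have e2 := lintegral_image_eq_lintegral_abs_det_fderiv_mul (volume : Measure (Fin d → ℝ))
    (s := univ.pi fun _ => Ioi (0 : ℝ)) (f := tL p G)
    (MeasurableSet.univ_pi fun _ => measurableSet_Ioi)
    (f' := fun _ => (tL p G).toContinuousLinearMap)
    (fun x _ => (tL p G).toContinuousLinearMap.hasFDerivAt.hasFDerivWithinAt)
    (hG2.injOn) (fun y => h (WithLp.toLp 2 y))
  exact e2

/-- the vector `∑ l a • e (G a)` -/
noncomputable def cl (G : Fin d → Fin k) (l : Fin d → ℝ) (i : Fin k) : ℝ :=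
  ∑ a, if G a = i then l a else 0

theorem cl_sum {E : Type*} [AddCommGroup E] [Module ℝ E] (G : Fin d → Fin k) (l : Fin d → ℝ)
    (u : Fin k → E) : ∑ i, cl G l i • u i = ∑ a, l a • u (G a) := by
  unfold cl
  simp only [Finset.sum_smul]
  rw [Finset.sum_comm]
  refine Finset.sum_congr rfl fun a _ => ?_
  simp only [ite_smul, zero_smul]
  rw [Finset.sum_ite_eq]
  simp

theorem cl_range {G : Fin d → Fin k} (hG : Function.Injective G) (l : Fin d → ℝ) (a : Fin d) :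
    cl G l (G a) = l a := by
  unfold cl
  rw [Finset.sum_eq_single a]
  · simp
  · intro b _ hb
    rw [if_neg (fun h => hb (hG h))]
  · intro h
    exact absurd (Finset.mem_univ a) h

theorem cl_compl {G : Fin d → Fin k} (l : Fin d → ℝ) {i : Fin k}
    (hi : i ∈ (Finset.univ.image G)ᶜ) : cl G l i = 0 := by
  unfold cl
  refine Finset.sum_eq_zero fun a _ => ?_
  rw [if_neg]
  rintro rfl
  exact (Finset.mem_compl.1 hi) (Finset.mem_image_of_mem _ (Finset.mem_univ a))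

theorem ph_shift (hk : k = d + n) (h1 : ∀ y, ∑ i, ⟪p i, y⟫ ^ 2 = ‖y‖ ^ 2)
    (h2 : ∀ η, ∑ i, ⟪q i, η⟫ ^ 2 = ‖η‖ ^ 2) (h3 : ∀ η, ∑ i, ⟪q i, η⟫ • p i = 0)
    (G : Fin d → Fin k) (l : Fin d → ℝ) (η : EuclideanSpace ℝ (Fin n)) (i : Fin k) :
    ph p q (pL p G l, η + ∑ a, l a • q (G a)) i = cl G l i + ⟪q i, η⟫ := by
  have h := repr p q hk h1 h2 h3 (cl G l) i
  rw [cl_sum, cl_sum] at h
  rw [h]
  unfold ph pL
  simp only [inner_add_right]
  ring

theorem prod_split {G : Fin d → Fin k} (hG : Function.Injective G) (f : Fin k → ℝ → ENNReal)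
    (l : Fin d → ℝ) (t : Fin k → ℝ) :
    ∏ i, f i (cl G l i + t i) =
      (∏ i ∈ (Finset.univ.image G)ᶜ, f i (t i)) * ∏ a, f (G a) (l a + t (G a)) := by
  rw [← Finset.prod_mul_prod_compl (Finset.univ.image G), mul_comm]
  congr 1
  · refine Finset.prod_congr rfl fun i hi => ?_
    rw [cl_compl l hi, zero_add]
  · rw [Finset.prod_image (fun a _ b _ h => hG h)]
    refine Finset.prod_congr rfl fun a _ => ?_
    rw [cl_range hG]

end

end SplitAux

open SplitAux in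
theorem split {k d n : ℕ} (hk : k = d + n) (p : Fin k → EuclideanSpace ℝ (Fin d))
    (h1 : ∀ y, ∑ i, ⟪p i, y⟫ ^ 2 = ‖y‖ ^ 2) (q : Fin k → EuclideanSpace ℝ (Fin n))
    (h2 : ∀ η, ∑ i, ⟪q i, η⟫ ^ 2 = ‖η‖ ^ 2) (h3 : ∀ η, ∑ i, ⟪q i, η⟫ • p i = 0)
    (G : Fin d → Fin k) (hG : Function.Injective G) (hG2 : Function.Injective (tL p G))
    (f : Fin k → ℝ → ENNReal) (hf : ∀ i, Measurable (f i)) :
    ∫⁻ c in {c : Fin k → ℝ | ∑ i, c i • p i ∈ cG p G}, ∏ i, f i (c i) =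
      ENNReal.ofReal |LinearMap.det (tL p G)| * ∫⁻ η : EuclideanSpace ℝ (Fin n),
        (∏ i ∈ (Finset.univ.image G)ᶜ, f i ⟪q i, η⟫) *
          ∏ a, ∫⁻ l in Ioi (0 : ℝ), f (G a) (l + ⟪q (G a), η⟫) := by
  have hme : MeasurableEmbedding (WithLp.ofLp : EuclideanSpace ℝ (Fin d) → (Fin d → ℝ)) :=
    (MeasurableEquiv.toLp 2 (Fin d → ℝ)).symm.measurableEmbedding
  have hPm : MeasurableSet (univ.pi fun _ : Fin d => Ioi (0 : ℝ)) :=
    MeasurableSet.univ_pi fun _ => measurableSet_Ioi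
  have hcG : MeasurableSet (cG p G) := by
    rw [← Set.preimage_image_eq (cG p G) hme.injective, cG_pre]
    refine hme.measurable ?_
    have hcl : Topology.IsClosedEmbedding (tL p G) :=
      (tL p G).isClosedEmbedding_of_injective (LinearMap.ker_eq_bot.2 hG2)
    exact hcl.measurableEmbedding.measurableSet_image' hPm
  have hFm : Measurable (fun c : Fin k → ℝ => ∏ i, f i (c i)) :=
    Finset.measurable_prod _ fun i _ => (hf i).comp (measurable_pi_apply i)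
  have hpm : Measurable (ph p q) := (ph_mp p q hk h1 h2 h3).measurable
  have hset : MeasurableSet {c : Fin k → ℝ | ∑ i, c i • p i ∈ cG p G} := by
    refine measurableSet_preimage ?_ hcG
    fun_prop
  rw [← (ph_mp p q hk h1 h2 h3).setLIntegral_comp_preimage hset hFm]
  have hpre : ph p q ⁻¹' {c : Fin k → ℝ | ∑ i, c i • p i ∈ cG p G} = cG p G ×ˢ univ := by
    ext ⟨y, η⟩
    simp only [mem_preimage, mem_ofPred_eq, mem_prod, mem_univ, and_true]
    have : ∑ i, ph p q (y, η) i • p i = y := by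
      unfold ph
      simp only [add_smul, Finset.sum_add_distrib]
      rw [pol p h1, h3, add_zero]
    rw [this]
  rw [hpre, Measure.volume_eq_prod, ← Measure.prod_restrict, Measure.restrict_univ,
    lintegral_prod (fun z => ∏ i, f i (ph p q z i)) (hFm.comp hpm).aemeasurable, change p G hG2]
  have hconst : ∀ l : Fin d → ℝ, ENNReal.ofReal |LinearMap.det (tL p G)| *
      ∫⁻ η : EuclideanSpace ℝ (Fin n), ∏ i, f i (ph p q (pL p G l, η) i) =
      ENNReal.ofReal |LinearMap.det (tL p G)| *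
      ∫⁻ η : EuclideanSpace ℝ (Fin n), (∏ i ∈ (Finset.univ.image G)ᶜ, f i ⟪q i, η⟫) *
        ∏ a, f (G a) (l a + ⟪q (G a), η⟫) := by
    intro l
    congr 1
    rw [← lintegral_add_right_eq_self _ (∑ a, l a • q (G a))]
    refine lintegral_congr fun η => ?_
    simp only [ph_shift p q hk h1 h2 h3 G l η]
    exact prod_split hG f l fun i => ⟪q i, η⟫
  rw [lintegral_congr hconst, lintegral_const_mul' _ _ ENNReal.ofReal_ne_top]
  congr 1
  have hq : ∀ i, Measurable fun η : EuclideanSpace ℝ (Fin n) => f i ⟪q i, η⟫ := fun i =>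
    (hf i).comp (by fun_prop)
  have hA : Measurable fun η : EuclideanSpace ℝ (Fin n) =>
      ∏ i ∈ (Finset.univ.image G)ᶜ, f i ⟪q i, η⟫ :=
    Finset.measurable_prod _ fun i _ => hq i
  have hB : Measurable fun z : (Fin d → ℝ) × EuclideanSpace ℝ (Fin n) =>
      ∏ a, f (G a) (z.1 a + ⟪q (G a), z.2⟫) :=
    Finset.measurable_prod _ fun a _ => (hf (G a)).comp (by fun_prop)
  rw [lintegral_lintegral_swap ((hA.comp measurable_snd).mul hB).aemeasurable]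
  refine lintegral_congr fun η => ?_
  have hC : Measurable fun l : Fin d → ℝ => ∏ a, f (G a) (l a + ⟪q (G a), η⟫) :=
    Finset.measurable_prod _ fun a _ => (hf (G a)).comp (by fun_prop)
  rw [lintegral_const_mul _ hC]
  congr 1
  have hr : (volume : Measure (Fin d → ℝ)).restrict (univ.pi fun _ : Fin d => Ioi (0 : ℝ)) =
      Measure.pi fun _ : Fin d => (volume : Measure ℝ).restrict (Ioi (0 : ℝ)) := by
    rw [volume_pi, Measure.restrict_pi_pi]
  rw [hr, lint_pi (fun _ : Fin d => (volume : Measure ℝ).restrict (Ioi (0 : ℝ)))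
    (fun a t => f (G a) (t + ⟪q (G a), η⟫)) fun a => (hf (G a)).comp (by fun_prop)]

end SZ
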