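import Pool.Agent.H27.SZ.Law
import Pool.Agent.H27.SZ.Key
import Pool.Agent.H27.SZ.Compl
import Pool.Agent.H27.SZ.Split

/-!
# Project SZ, SZ-7: the sum of the determinants
-/

set_option autoImplicit false

open MeasureTheory Metric Set Filter Module
open scoped Topology MeasureTheory RealInnerProductSpace Nat Pointwise

namespace SZ

open SP SP.Mea SX SY

/-- Tonelli for a product of functions of one coordinate. -/
private theorem sd_prod : ∀ (k : ℕ) (f : Fin k → ℝ → ENNReal), (∀ i, Measurable (f i)) →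
    ∫⁻ x : Fin k → ℝ, ∏ i, f i (x i) = ∏ i, ∫⁻ x, f i x
  | 0, f, _ => by
    rw [volume_pi, Measure.pi_of_empty]
    simp
  | k + 1, f, hf => by
    have ih := sd_prod k (fun i => f i.succ) (fun i => hf i.succ)
    have hm : Measurable (fun p : Fin k → ℝ => ∏ i, f i.succ (p i)) :=
      Finset.measurable_prod _ fun i _ => (hf i.succ).comp (measurable_pi_apply i)
    have hg : Measurable (fun p : ℝ × (Fin k → ℝ) => f 0 p.1 * ∏ i, f i.succ (p.2 i)) :=
      ((hf 0).comp measurable_fst).mul (hm.comp measurable_snd)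
    have h1 := (volume_preserving_piFinSuccAbove (fun _ : Fin (k + 1) => ℝ) 0).lintegral_comp hg
    have h2 : ∀ x : Fin (k + 1) → ℝ,
        (fun p : ℝ × (Fin k → ℝ) => f 0 p.1 * ∏ i, f i.succ (p.2 i))
          (MeasurableEquiv.piFinSuccAbove (fun _ => ℝ) 0 x) = ∏ i, f i (x i) := by
      intro x
      rw [Fin.prod_univ_succ]
      rfl
    have h3 : ∫⁻ p : ℝ × (Fin k → ℝ), f 0 p.1 * ∏ i, f i.succ (p.2 i) =
        (∫⁻ x, f 0 x) * ∫⁻ x : Fin k → ℝ, ∏ i, f i.succ (x i) :=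
      lintegral_prod_mul (hf 0).aemeasurable hm.aemeasurable
    calc ∫⁻ x : Fin (k + 1) → ℝ, ∏ i, f i (x i)
        = ∫⁻ x : Fin (k + 1) → ℝ, (fun p : ℝ × (Fin k → ℝ) => f 0 p.1 * ∏ i, f i.succ (p.2 i))
          (MeasurableEquiv.piFinSuccAbove (fun _ => ℝ) 0 x) :=
          lintegral_congr fun x => (h2 x).symm
      _ = ∫⁻ p : ℝ × (Fin k → ℝ), f 0 p.1 * ∏ i, f i.succ (p.2 i) := h1
      _ = ∏ i, ∫⁻ x, f i x := by rw [h3, ih, Fin.prod_univ_succ]

/-- The cone is measurable. -/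
private theorem sd_meas {k d : ℕ} (p : Fin k → EuclideanSpace ℝ (Fin d)) (G : Fin d → Fin k)
    (hG : Function.Injective (tL p G)) : MeasurableSet (cG p G) := by
  let e := LinearEquiv.ofInjectiveEndo (tL p G) hG
  have h1 : cG p G = {y : EuclideanSpace ℝ (Fin d) | ∀ a, 0 < e.symm (WithLp.ofLp y) a} := by
    ext y
    constructor
    · rintro ⟨l, hl, rfl⟩ a
      have h2 : WithLp.ofLp (∑ a, l a • p (G a)) = e l := rfl
      rw [h2, LinearEquiv.symm_apply_apply]
      exact hl a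
    · intro h
      refine ⟨e.symm (WithLp.ofLp y), h, ?_⟩
      have h2 : WithLp.ofLp (∑ a, (e.symm (WithLp.ofLp y)) a • p (G a)) =
          e (e.symm (WithLp.ofLp y)) := rfl
      rw [LinearEquiv.apply_symm_apply] at h2
      exact (WithLp.ofLp_injective 2 h2).symm
  rw [h1]
  have h2 : Continuous fun y : EuclideanSpace ℝ (Fin d) => e.symm (WithLp.ofLp y) :=
    (LinearMap.continuous_of_finiteDimensional e.symm.toLinearMap).comp
      (PiLp.continuous_ofLp 2 _)
  have h3 : IsOpen {y : EuclideanSpace ℝ (Fin d) | ∀ a, 0 < e.symm (WithLp.ofLp y) a} := by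
    rw [Set.ofPred_forall]
    exact isOpen_iInter_of_finite fun a =>
      isOpen_lt continuous_const ((continuous_apply a).comp h2)
  exact h3.measurableSet

theorem sum_det {k d n : ℕ} (hk : k = d + n) (hn : 1 ≤ n) (p : Fin k → EuclideanSpace ℝ (Fin d))
    (h0 : ∑ i, p i = 0) (h1 : ∀ y, ∑ i, ⟪p i, y⟫ ^ 2 = ‖y‖ ^ 2) (T : Finset (Fin d → Fin k))
    (hT1 : ∀ G ∈ T, Function.Injective G) (hT2 : ∀ G ∈ T, Function.Injective (tL p G))
    (hT3 : ∀ G ∈ T, ∀ G' ∈ T, G ≠ G' → Disjoint (cG p G) (cG p G')) :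
    ∑ G ∈ T, ENNReal.ofReal |LinearMap.det (tL p G)| ≤
      ENNReal.ofReal (Real.sqrt (((k : ℝ) / n) ^ n)) := by
  obtain ⟨q, h2, h3, h4⟩ := exists_compl hk p h1
  have hq : ∀ i, 0 < ‖q i‖ := by
    intro i
    have h5 := norm_lt_one p h0 h1 i
    have h6 := h4 i
    have h7 : 0 < ‖q i‖ ^ 2 := by linarith
    rcases (norm_nonneg (q i)).lt_or_eq with h | h
    · exact h
    · rw [← h] at h7
      norm_num at h7
  have hq0 : ∀ i, q i ≠ 0 := fun i => norm_pos_iff.1 (hq i)
  have hn0 : (0 : ℝ) < n := by exact_mod_cast hn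
  have : NeZero k := ⟨by omega⟩
  set L : ℝ := ∑ l, ‖q l‖ with hL
  have hLpos : 0 < L := Finset.sum_pos (fun i _ => hq i) ⟨0, Finset.mem_univ _⟩
  let γ : Fin k → ℝ := fun i => n * ‖q i‖ / L
  have hγ : ∀ i, 0 < γ i := fun i => div_pos (mul_pos hn0 (hq i)) hLpos
  let f : Fin k → ℝ → ENNReal := fun i u => ENNReal.ofReal (rho ‖q i‖ (γ i) u)
  have hf : ∀ i, Measurable (f i) := fun i => (rho_meas _ _).ennreal_ofReal
  -- the total mass
  have htot : ∫⁻ c : Fin k → ℝ, ∏ i, f i (c i) = 1 := by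
    rw [sd_prod k f hf]
    exact Finset.prod_eq_one fun i _ => rho_total (hq i) (hγ i)
  -- the sets
  let S : (Fin d → Fin k) → Set (Fin k → ℝ) := fun G => {c | ∑ i, c i • p i ∈ cG p G}
  have hcont : Continuous fun c : Fin k → ℝ => ∑ i, c i • p i :=
    continuous_finsetSum _ fun i _ => (continuous_apply i).smul continuous_const
  have hSm : ∀ G ∈ T, MeasurableSet (S G) := fun G hG =>
    hcont.measurable (sd_meas p G (hT2 G hG))
  have hSd : Set.PairwiseDisjoint (↑T : Set (Fin d → Fin k)) S := by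
    intro G hG G' hG' hne
    exact Disjoint.preimage _ (hT3 G hG G' hG' hne)
  have hle : ∑ G ∈ T, ∫⁻ c in S G, ∏ i, f i (c i) ≤ 1 := by
    rw [← lintegral_biUnion_finset hSd hSm, ← htot]
    exact setLIntegral_le_lintegral _ _
  -- one cone
  have hone : ∀ G ∈ T, ENNReal.ofReal |LinearMap.det (tL p G)| * ENNReal.ofReal ((n / L) ^ n) ≤
      ∫⁻ c in S G, ∏ i, f i (c i) := by
    intro G hG
    have h5 := split hk p h1 q h2 h3 G (hT1 G hG) (hT2 G hG) f hf
    change _ ≤ ∫⁻ c in {c : Fin k → ℝ | ∑ i, c i • p i ∈ cG p G}, ∏ i, f i (c i)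
    rw [h5]
    refine mul_le_mul_right ?_ _
    have hcard : (Finset.univ.image G)ᶜ.card = n := by
      rw [Finset.card_compl, Finset.card_image_of_injective _ (hT1 G hG)]
      simp [hk]
    have h6 := key hn q hq0 γ (fun i => rfl) (Finset.univ.image G)ᶜ hcard
    refine h6.trans (le_of_eq (lintegral_congr fun η => ?_))
    congr 1
    rw [compl_compl, Finset.prod_image (fun a _ b _ hab => hT1 G hG hab)]
    refine Finset.prod_congr rfl fun a _ => ?_
    exact (rho_tail (hq (G a)) (hγ (G a)) _).symm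
  have hsum : (∑ G ∈ T, ENNReal.ofReal |LinearMap.det (tL p G)|) *
      ENNReal.ofReal ((n / L) ^ n) ≤ 1 := by
    rw [Finset.sum_mul]
    exact (Finset.sum_le_sum hone).trans hle
  have hpos : 0 < (n / L) ^ n := pow_pos (div_pos hn0 hLpos) n
  have hfin : ∑ G ∈ T, ENNReal.ofReal |LinearMap.det (tL p G)| ≤
      ENNReal.ofReal ((L / n) ^ n) := by
    have h7 : ENNReal.ofReal ((L / n) ^ n) = (ENNReal.ofReal ((n / L) ^ n))⁻¹ := by
      rw [← ENNReal.ofReal_inv_of_pos hpos]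
      congr 1
      rw [← inv_pow, inv_div]
    rw [h7]
    exact (ENNReal.le_inv_iff_mul_le).2 hsum
  refine hfin.trans (ENNReal.ofReal_le_ofReal (Real.le_sqrt_of_sq_le ?_))
  -- the norms of `q`
  have hq2 : ∑ i, ‖q i‖ ^ 2 = n := by
    have h8 : ∀ i, ‖q i‖ ^ 2 = ∑ a : Fin n, ⟪q i, EuclideanSpace.single a (1 : ℝ)⟫ ^ 2 := by
      intro i
      rw [EuclideanSpace.norm_sq_eq]
      refine Finset.sum_congr rfl fun a _ => ?_
      rw [real_inner_comm, EuclideanSpace.inner_single_left]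
      simp
    simp_rw [h8]
    rw [Finset.sum_comm]
    simp_rw [h2]
    simp
  have hcs : L ^ 2 ≤ k * n := by
    have h9 := Finset.sum_mul_sq_le_sq_mul_sq Finset.univ (fun _ : Fin k => (1 : ℝ))
      (fun i => ‖q i‖)
    simp only [one_mul, one_pow, Finset.sum_const, Finset.card_univ, Fintype.card_fin,
      nsmul_eq_mul, mul_one] at h9
    rw [hq2] at h9
    exact h9
  rw [← pow_mul, mul_comm n 2, pow_mul]
  refine pow_le_pow_left₀ (sq_nonneg _) ?_ n
  rw [div_pow, div_le_div_iff₀ (by positivity) hn0]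
  nlinarith [hcs, hn0]

end SZ
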