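import Pool.Agent.H27.SZ.Defs
import Pool.Agent.H27.SZ.SumDet
import Pool.Agent.H27.SY.Proj

/-!
# Project SZ (MP_38b231_co), row SZ-8: the volume of the projections of the simplex
-/

set_option autoImplicit false

open MeasureTheory Metric Set Filter Module
open scoped Topology MeasureTheory RealInnerProductSpace Nat Pointwise

namespace SZ

open SP SP.Mea SX SY

private theorem tL_eq {k d : ℕ} (p : Fin k → EuclideanSpace ℝ (Fin d)) (G : Fin d → Fin k) :
    tL p G = sy13_L p G := rfl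

private theorem cG_eq {k d : ℕ} (p : Fin k → EuclideanSpace ℝ (Fin d)) (G : Fin d → Fin k) :
    cG p G = tm p G '' {l | ∀ a, 0 < l a} := by
  ext y
  constructor
  · rintro ⟨l, hl, rfl⟩
    exact ⟨l, hl, rfl⟩
  · rintro ⟨l, hl, rfl⟩
    exact ⟨l, hl, rfl⟩

private theorem tL_inj {k d : ℕ} (p : Fin k → EuclideanSpace ℝ (Fin d)) (G : Fin d → Fin k)
    (h : Function.Injective (tm p G)) : Function.Injective (tL p G) := by
  intro l l' hl
  refine h ?_
  have h1 : WithLp.ofLp (tm p G l) = WithLp.ofLp (tm p G l') := hl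
  exact congrArg (WithLp.toLp 2) h1

/-- the volume of the convex hull of a tight frame -/
theorem hull_vol_gauss {k d n : ℕ} (hk : k = d + n) (hn : 1 ≤ n) (hd : 1 ≤ d)
    (p : Fin k → EuclideanSpace ℝ (Fin d)) (h0 : ∑ i, p i = 0)
    (h1 : ∀ y, ∑ i, ⟪p i, y⟫ ^ 2 = ‖y‖ ^ 2) :
    volume (convexHull ℝ (range p)) ≤
      ENNReal.ofReal (Real.sqrt (((k : ℝ) / n) ^ n) / (d ! : ℝ)) := by
  have key : ∀ ε : ℝ, 0 < ε → volume (convexHull ℝ (range p)) ≤
      ENNReal.ofReal ((1 + ε) ^ d * (Real.sqrt (((k : ℝ) / n) ^ n) / (d ! : ℝ))) := by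
    intro ε hε
    obtain ⟨T, hi, ht, hdis, hvol⟩ := star hd p h0 h1 hε
    refine hvol.trans ?_
    rw [ENNReal.ofReal_mul (by positivity)]
    refine mul_le_mul_right ?_ _
    simp only [sy13_image]
    rw [← Finset.sum_mul, vol_corner d 1 zero_le_one, one_pow, div_eq_mul_one_div (Real.sqrt _),
      ENNReal.ofReal_mul (by positivity)]
    refine mul_le_mul_left ?_ _
    refine sum_det hk hn p h0 h1 T hi (fun G hG => tL_inj p G (ht G hG)) ?_
    intro G hG G' hG' hne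
    rw [cG_eq, cG_eq]
    exact hdis G hG G' hG' hne
  have h2 : Tendsto (fun ε : ℝ => ENNReal.ofReal
      ((1 + ε) ^ d * (Real.sqrt (((k : ℝ) / n) ^ n) / (d ! : ℝ))))
      (𝓝[>] 0) (𝓝 (ENNReal.ofReal
        ((1 + 0) ^ d * (Real.sqrt (((k : ℝ) / n) ^ n) / (d ! : ℝ))))) := by
    refine ENNReal.tendsto_ofReal ?_
    refine Tendsto.mono_left ?_ nhdsWithin_le_nhds
    exact (Continuous.tendsto (by fun_prop) 0)
  rw [add_zero, one_pow, one_mul] at h2
  exact ge_of_tendsto h2 (eventually_mem_nhdsWithin.mono fun ε hε => key ε hε)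

theorem proj_vol_gauss {m d : ℕ} (hd : 1 ≤ d) (w : Fin d → V (d + m + 1)) (hw : Fr w) :
    volume (cw w '' D0 (d + m + 1)) ≤ ENNReal.ofReal
      (Real.sqrt ((((d : ℝ) + m + 1) / ((m : ℝ) + 1)) ^ (m + 1)) / (d ! : ℝ)) := by
  have h := (measure_mono (pjd_subset (by omega) w hw)).trans
    (hull_vol_gauss (n := m + 1) (by omega) (by omega) hd (pjd w) (pjd_sum w hw) (pjd_frame w hw))
  have h1 : ((d + m + 1 : ℕ) : ℝ) / ((m + 1 : ℕ) : ℝ) = ((d : ℝ) + m + 1) / ((m : ℝ) + 1) := by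
    push_cast
    rfl
  rw [h1] at h
  exact h

end SZ
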