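import Pool.Agent.H27.SZ.Upper
import Pool.Agent.H27.SZ.ProjG
import Pool.Agent.H27.SZ.Bal
import Pool.Agent.NR.Lower
import Pool.Agent.H59.SP.Main

/-!
# SZ-16: the value of the infimum for all closed Sperner partitions
-/

set_option autoImplicit false

open MeasureTheory Metric Set Filter Module
open scoped Topology MeasureTheory RealInnerProductSpace Nat Pointwise

namespace SZ

open SP SP.Mea SX SY

theorem lower_pairs {m d : ℕ} (hm : 1 ≤ m) (hd : 1 ≤ d)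
    {A : Fin (d + m + 1) → Set (V (d + m + 1))} (hA : Adm0 (d + m + 1) A) {L : ℝ}
    (hL : HasContent (d + m + 1) m (meet (d + m + 1) A (d + 1)) L) :
    Real.sqrt ((d : ℝ) + m + 1) / ((m ! : ℝ) * Real.sqrt (2 ^ d)) ≤ L := by
  have h := NR.lower_V (v := Real.sqrt (2 ^ d) / (d ! : ℝ)) hm hd (by positivity)
    (fun w hw => proj_vol (by omega) hd w hw) hA hL
  have h1 : (d ! : ℝ) * (Real.sqrt (2 ^ d) / (d ! : ℝ)) = Real.sqrt (2 ^ d) := by
    field_simp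
  rwa [h1] at h

theorem lower_gauss {m d : ℕ} (hm : 1 ≤ m) (hd : 1 ≤ d)
    {A : Fin (d + m + 1) → Set (V (d + m + 1))} (hA : Adm0 (d + m + 1) A) {L : ℝ}
    (hL : HasContent (d + m + 1) m (meet (d + m + 1) A (d + 1)) L) :
    Real.sqrt ((d : ℝ) + m + 1) / ((m ! : ℝ) *
      Real.sqrt ((((d : ℝ) + m + 1) / ((m : ℝ) + 1)) ^ (m + 1))) ≤ L := by
  have h := NR.lower_V
    (v := Real.sqrt ((((d : ℝ) + m + 1) / ((m : ℝ) + 1)) ^ (m + 1)) / (d ! : ℝ))
    hm hd (by positivity) (fun w hw => proj_vol_gauss hd w hw) hA hL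
  have h1 : (d ! : ℝ) * (Real.sqrt ((((d : ℝ) + m + 1) / ((m : ℝ) + 1)) ^ (m + 1)) / (d ! : ℝ)) =
      Real.sqrt ((((d : ℝ) + m + 1) / ((m : ℝ) + 1)) ^ (m + 1)) := by
    field_simp
  rwa [h1] at h

theorem upper_bal {m d : ℕ} (hm : 1 ≤ m) (hd : 1 ≤ d) {b : ℝ}
    (hb : b ∈ lowerBounds {L : ℝ | ∃ A : Fin (d + m + 1) → Set (V (d + m + 1)),
      Adm (d + m + 1) A ∧ HasContent (d + m + 1) m (meet (d + m + 1) A (d + 1)) L}) :
    b ≤ Real.sqrt ((d : ℝ) + m + 1) / ((m ! : ℝ) * Real.sqrt (bal (d + m + 1) (m + 1))) := by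
  refine le_of_forall_pos_le_add fun η hη => ?_
  obtain ⟨β, hβ, hβ2⟩ := bal_blocks (k := d + m + 1) (n := m + 1) (by omega) (by omega)
  obtain ⟨A, hA, h3, h4⟩ := upper hβ hm hd hη
  have hβ3 : ∏ a, ((bl β a).card : ℝ) = (bal (d + m + 1) (m + 1) : ℝ) := by
    rw [← hβ2]; push_cast; rfl
  rw [hβ3] at h4
  obtain ⟨h5, h6⟩ := meet_compact hA.toAdm0 (d + 1) (by omega)
  have h7 : meet (d + m + 1) A (d + 1) ⊆ Hp (d + m + 1) := fun x hx => (h6 hx).2
  have h8 := planar_content hm hd h5 h7 h3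
  exact (hb ⟨A, hA, h8⟩).trans (ENNReal.toReal_le_of_le_ofReal (by positivity) h4)

/-- the case `m = 1` -/
theorem bal_two {d : ℕ} : Real.sqrt ((d : ℝ) + (1 : ℕ) + 1) / (((1 : ℕ) ! : ℝ) *
      Real.sqrt (bal (d + 1 + 1) (1 + 1))) =
    Real.sqrt (1 / (((d + 1 + 1) / 2 : ℕ) : ℝ) + 1 / (((d + 1 + 1 + 1) / 2 : ℕ) : ℝ)) := by
  have hb : (bal (d + 1 + 1) (1 + 1) : ℝ) =
      (((d + 1 + 1) / 2 : ℕ) : ℝ) * (((d + 1 + 1 + 1) / 2 : ℕ) : ℝ) := by
    unfold bal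
    rcases Nat.even_or_odd' d with ⟨c, rfl | rfl⟩
    · have h1 : (2 * c + 1 + 1) / (1 + 1) = c + 1 := by omega
      have h2 : (2 * c + 1 + 1) % (1 + 1) = 0 := by omega
      have h4 : (2 * c + 1 + 1 + 1) / 2 = c + 1 := by omega
      rw [h1, h2, h4]
      push_cast
      ring
    · have h1 : (2 * c + 1 + 1 + 1) / (1 + 1) = c + 1 := by omega
      have h2 : (2 * c + 1 + 1 + 1) % (1 + 1) = 1 := by omega
      have h4 : (2 * c + 1 + 1 + 1 + 1) / 2 = c + 2 := by omega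
      rw [h1, h2, h4]
      push_cast
      ring
  rw [hb, Nat.factorial_one, Nat.cast_one, one_mul, ← Real.sqrt_div (by positivity)]
  congr 1
  have h1 : (0 : ℝ) < (((d + 1 + 1) / 2 : ℕ) : ℝ) := by
    exact_mod_cast (by omega : 0 < (d + 1 + 1) / 2)
  have h2 : (0 : ℝ) < (((d + 1 + 1 + 1) / 2 : ℕ) : ℝ) := by
    exact_mod_cast (by omega : 0 < (d + 1 + 1 + 1) / 2)
  have h3 : (d : ℝ) + 1 + 1 = (((d + 1 + 1) / 2 : ℕ) : ℝ) + (((d + 1 + 1 + 1) / 2 : ℕ) : ℝ) := by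
    have : d + 1 + 1 = (d + 1 + 1) / 2 + (d + 1 + 1 + 1) / 2 := by omega
    exact_mod_cast this
  rw [h3]
  field_simp
  ring

/-- the final statement -/
theorem final (k j : ℕ) (hj : 3 ≤ j) (hjk : j + 1 ≤ k) :
    (2 * (j - 1) ≤ k ∨ (k - j + 1) ∣ k ∨ j + 1 = k →
      IsGLB {L : ℝ | ∃ A : Fin k → Set (V k), Adm k A ∧ HasContent k (k - j) (meet k A j) L}
        (Real.sqrt k / (((k - j) ! : ℝ) * Real.sqrt (bal k (k - j + 1))))) ∧
    (∀ b ∈ lowerBounds {L : ℝ | ∃ A : Fin k → Set (V k), Adm k A ∧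
        HasContent k (k - j) (meet k A j) L},
      b ≤ Real.sqrt k / (((k - j) ! : ℝ) * Real.sqrt (bal k (k - j + 1)))) ∧
    ∀ A : Fin k → Set (V k), Adm0 k A → ∀ L : ℝ, HasContent k (k - j) (meet k A j) L →
      Real.sqrt k / (((k - j) ! : ℝ) * Real.sqrt
        (min (2 ^ (j - 1)) (((k : ℝ) / ((k - j + 1 : ℕ) : ℝ)) ^ (k - j + 1)))) ≤ L := by
  obtain ⟨d, rfl⟩ : ∃ d, j = d + 1 := ⟨j - 1, by omega⟩
  obtain ⟨m, rfl⟩ : ∃ m, k = d + m + 1 := ⟨k - d - 1, by omega⟩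
  have h1 : d + m + 1 - (d + 1) = m := by omega
  have h2 : d + 1 - 1 = d := by omega
  have h3 : ((d + m + 1 : ℕ) : ℝ) = (d : ℝ) + m + 1 := by push_cast; ring
  have h4 : ((m + 1 : ℕ) : ℝ) = (m : ℝ) + 1 := by push_cast; ring
  rw [h1, h2, h3, h4]
  refine ⟨fun h => ⟨?_, fun b hb => upper_bal (by omega) (by omega) hb⟩,
    fun b hb => upper_bal (by omega) (by omega) hb,
    fun A hA L hL => ?_⟩
  swap
  · rcases min_choice ((2 : ℝ) ^ d) ((((d : ℝ) + m + 1) / ((m : ℝ) + 1)) ^ (m + 1)) with h | h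
    · rw [h]
      exact lower_pairs (by omega) (by omega) hA hL
    · rw [h]
      exact lower_gauss (by omega) (by omega) hA hL
  rintro L ⟨A, hA, hL⟩
  rcases h with h | h | h
  · have h5 := lower_pairs (by omega) (by omega) hA.toAdm0 hL
    have h6 := bal_small (k := d + m + 1) (n := m + 1) (by omega) (by omega) (by omega)
    rw [show d + m + 1 - (m + 1) = d by omega] at h6
    rw [h6]
    push_cast
    exact h5
  · have h5 := lower_gauss (by omega) (by omega) hA.toAdm0 hL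
    have h6 := bal_dvd (k := d + m + 1) (n := m + 1) (by omega) h
    rw [h6, h3, h4]
    exact h5
  · obtain rfl : m = 1 := by omega
    have h5 := (SP.main (k := d + 1 + 1) (by omega)).2 A hA.toAdm0 L (by simpa using hL)
    rw [bal_two]
    exact h5

end SZ
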