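import Mathlib
import Pool.Agent.H27.SZ.Defs
import Pool.Agent.H27.SZ.GenAdm
import Pool.Agent.H27.SZ.GenLoc
import Pool.Agent.H27.SZ.GenPlan
import Pool.Agent.H27.SZ.GenThin
import Pool.Agent.H27.SZ.GenVol

/-!
# Sperner partitions with general blocks: the upper bound (project SZ, row SZ-14)
-/

set_option autoImplicit false

open MeasureTheory Metric Set Filter Module
open scoped Topology MeasureTheory RealInnerProductSpace Nat Pointwise

namespace SZ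

open SP SP.Mea SX SY

theorem upper {m d : ℕ} {β : Fin (d + m + 1) → Fin (m + 1)} (hβ : Function.Surjective β)
    (hm : 1 ≤ m) (hd : 1 ≤ d) {η : ℝ} (hη : 0 < η) :
    ∃ A : Fin (d + m + 1) → Set (V (d + m + 1)), Adm (d + m + 1) A ∧
      Planar (d + m + 1) m (meet (d + m + 1) A (d + 1)) ∧
      μHE[m] (meet (d + m + 1) A (d + 1)) ≤ ENNReal.ofReal (Real.sqrt ((d : ℝ) + m + 1) /
        ((m ! : ℝ) * Real.sqrt (∏ a, ((bl β a).card : ℝ))) + η) := by
  obtain ⟨n, hn⟩ := gen_planes hβ hm hd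
  have hk1 : m + 1 < d + m + 1 := by omega
  obtain ⟨C, hC, hthin⟩ := gen_thin hβ hm
    (((d + m + 1 : ℕ) : ℝ) * (((d + m + 1 : ℕ) : ℝ) + 2 * ((m + 1 : ℕ) : ℝ) + 1))
  obtain ⟨δ, h0, h1, h2, h3⟩ : ∃ δ : ℝ, 0 < δ ∧ δ ≤ 1 ∧ δ * ((m + 1 : ℕ) : ℝ) < 1 ∧
      (n : ℝ) * (C * δ) ≤ η := by
    refine ⟨min (1 / (((m + 1 : ℕ) : ℝ) + 1)) (η / ((n : ℝ) * C + 1)), ?_, ?_, ?_, ?_⟩
    · have : (0 : ℝ) ≤ (n : ℝ) := Nat.cast_nonneg n
      refine lt_min (by positivity) (by positivity)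
    · refine (min_le_left _ _).trans ?_
      rw [div_le_one (by positivity)]
      have : (0 : ℝ) ≤ ((m + 1 : ℕ) : ℝ) := Nat.cast_nonneg _
      linarith
    · have h4 : (0 : ℝ) < ((m + 1 : ℕ) : ℝ) := by positivity
      have h5 : min (1 / (((m + 1 : ℕ) : ℝ) + 1)) (η / ((n : ℝ) * C + 1)) *
          ((m + 1 : ℕ) : ℝ) ≤ (1 / (((m + 1 : ℕ) : ℝ) + 1)) * ((m + 1 : ℕ) : ℝ) :=
        mul_le_mul_of_nonneg_right (min_le_left _ _) h4.le
      refine h5.trans_lt ?_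
      rw [one_div, inv_mul_lt_iff₀ (by positivity)]
      linarith
    · have h4 : (0 : ℝ) ≤ (n : ℝ) * C := by positivity
      have h5 : (n : ℝ) * (C * min (1 / (((m + 1 : ℕ) : ℝ) + 1)) (η / ((n : ℝ) * C + 1))) ≤
          ((n : ℝ) * C) * (η / ((n : ℝ) * C + 1)) := by
        rw [← mul_assoc]
        exact mul_le_mul_of_nonneg_left (min_le_right _ _) h4
      refine h5.trans ?_
      rw [← mul_div_assoc, div_le_iff₀ (by positivity)]
      nlinarith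
  have hA := gen_adm hβ (by omega) hk1 h0 h2
  have h2' : δ * ((m : ℝ) + 1) < 1 := by
    have h4 : ((m + 1 : ℕ) : ℝ) = (m : ℝ) + 1 := by push_cast; ring
    rwa [h4] at h2
  obtain ⟨p, v, hp, hv, hS⟩ := hn δ h0 h2'
  refine ⟨gA β δ, hA, ⟨n, p, v, hp, hv, hS⟩, ?_⟩
  have hdm : d + m + 1 - (m + 1) + 1 = d + 1 := by omega
  set P : Fin n → Set (V (d + m + 1)) := fun i =>
    range (fun t : Fin m → ℝ => p i + ∑ a, t a • v i a) ∩
      {x | x ∈ Sx (d + m + 1) ∧ (∀ i, |du β x i| ≤ (((d + m + 1 : ℕ) : ℝ) *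
        (((d + m + 1 : ℕ) : ℝ) + 2 * ((m + 1 : ℕ) : ℝ) + 1)) * δ) ∧ ∃ a, bs β x a ≤ δ} with hP
  have hsub : meet (d + m + 1) (gA β δ) (d + 1) ⊆ DB β ∪ ⋃ i : Fin n, P i := by
    intro x hx
    by_cases hxD : x ∈ DB β
    · exact Or.inl hxD
    · right
      have hxS : x ∈ Sx (d + m + 1) := by
        obtain ⟨T, hT, hxT⟩ := hx
        obtain ⟨i, hi⟩ : T.Nonempty := Finset.card_pos.1 (by omega)
        exact (hxT i hi).1
      have hx' : x ∈ meet (d + m + 1) (gA β δ) (d + m + 1 - (m + 1) + 1) := by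
        rw [hdm]; exact hx
      obtain ⟨h4, h5⟩ := gen_loc hβ (by omega) hk1 h0 hx' hxD
      obtain ⟨i, hi⟩ := mem_iUnion.1 (hS hx)
      exact mem_iUnion.2 ⟨i, hi, hxS, h4, h5⟩
  calc μHE[m] (meet (d + m + 1) (gA β δ) (d + 1))
      ≤ μHE[m] (DB β ∪ ⋃ i : Fin n, P i) := measure_mono hsub
    _ ≤ μHE[m] (DB β) + μHE[m] (⋃ i : Fin n, P i) := measure_union_le _ _
    _ ≤ ENNReal.ofReal (Real.sqrt ((d : ℝ) + m + 1) /
        ((m ! : ℝ) * Real.sqrt (∏ a, ((bl β a).card : ℝ)))) + ENNReal.ofReal η := by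
        refine add_le_add (vol_DB hβ hm) ?_
        calc μHE[m] (⋃ i : Fin n, P i) ≤ ∑ i : Fin n, μHE[m] (P i) :=
              measure_iUnion_fintype_le _ _
          _ ≤ ∑ _i : Fin n, ENNReal.ofReal (C * δ) :=
              Finset.sum_le_sum fun i _ => hthin δ h0 h1 (p i) (v i)
          _ = ENNReal.ofReal ((n : ℝ) * (C * δ)) := by
              rw [Finset.sum_const, Finset.card_univ, Fintype.card_fin, nsmul_eq_mul,
                ENNReal.ofReal_mul (Nat.cast_nonneg n), ENNReal.ofReal_natCast]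
          _ ≤ ENNReal.ofReal η := ENNReal.ofReal_le_ofReal h3
    _ = ENNReal.ofReal (Real.sqrt ((d : ℝ) + m + 1) /
        ((m ! : ℝ) * Real.sqrt (∏ a, ((bl β a).card : ℝ))) + η) :=
        (ENNReal.ofReal_add (div_nonneg (Real.sqrt_nonneg _)
          (mul_nonneg (Nat.cast_nonneg _) (Real.sqrt_nonneg _))) hη.le).symm

end SZ
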